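import Pool.Agent.Helper34.Dg.Defs

set_option autoImplicit false

namespace Pool.Agent.Helper34.Dg

section

open MeasureTheory AddCircle Complex Filter Topology
open scoped ENNReal ComplexConjugate

/-- Boundary values of functions in `H^∞`: essentially bounded functions on the circle whose
Fourier coefficients with negative index vanish. -/
def HInf : Set (T → ℂ) :=
  {f | MemLp f ∞ mu ∧ ∀ n : ℤ, n < 0 → fourierCoeff f n = 0}

/-- The holomorphic function on the unit disc with boundary values `f` (for `f ∈ HInf`). -/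
noncomputable def ext (f : T → ℂ) (z : ℂ) : ℂ := ∑' n : ℕ, fourierCoeff f n * z ^ n

/-- The function `e^{2 π i n t}`. -/
noncomputable abbrev e (n : ℤ) (t : T) : ℂ := fourier n t

lemma e_cont (n : ℤ) : Continuous (e n) := (fourier n).continuous

lemma e_norm (n : ℤ) (t : T) : ‖e n t‖ = 1 := by
  rw [e, fourier_apply]; exact Circle.norm_coe _

lemma e_zero (t : T) : e 0 t = 1 := by simp [e]

lemma e_add (m n : ℤ) (t : T) : e (m + n) t = e m t * e n t := fourier_add

lemma e_neg (n : ℤ) (t : T) : e (-n) t = conj (e n t) := fourier_neg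

lemma e_ne (n : ℤ) (t : T) : e n t ≠ 0 := by
  intro h
  have := e_norm n t
  rw [h] at this
  simp at this

lemma e_nat (n : ℕ) (t : T) : e (n : ℤ) t = (e 1 t) ^ n := by
  induction n with
  | zero => simp
  | succ k ih => rw [Nat.cast_succ, e_add, ih, pow_succ]

lemma e_negnat (n : ℕ) (t : T) : e (-(n : ℤ)) t = (e (-1) t) ^ n := by
  rw [e_neg, e_nat, e_neg, map_pow]

lemma e_mul_neg (t : T) : e 1 t * e (-1) t = 1 := by
  rw [← e_add]; simp

lemma e_aesm (n : ℤ) : AEStronglyMeasurable (e n) mu := (e_cont n).aestronglyMeasurable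

lemma fc_def (f : T → ℂ) (n : ℤ) : fourierCoeff f n = ∫ t, e (-n) t * f t ∂mu := by
  simp [fourierCoeff, e]

lemma int_mul_e (f : T → ℂ) (n : ℤ) : ∫ t, f t * e n t ∂mu = fourierCoeff f (-n) := by
  rw [fc_def, neg_neg]
  simp_rw [mul_comm]

lemma int_e (n : ℤ) : ∫ t, e n t ∂mu = if n = 0 then 1 else 0 := by
  have h := fourierCoeff_fourier (T := (1 : ℝ)) n
  have h2 := congrFun h 0
  rw [fc_def] at h2
  simp only [neg_zero, e_zero, one_mul] at h2
  rw [h2]
  by_cases hn : n = 0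
  · subst hn; simp
  · rw [Pi.single_eq_of_ne (Ne.symm hn), if_neg hn]

lemma memLp_integrable {f : T → ℂ} (hf : MemLp f ∞ mu) : Integrable f mu :=
  hf.integrable (by simp)

/-- a bound for an essentially bounded function -/
lemma exists_bound {f : T → ℂ} (hf : MemLp f ∞ mu) : ∃ C : ℝ, 0 ≤ C ∧ ∀ᵐ t ∂mu, ‖f t‖ ≤ C := by
  refine ⟨(eLpNorm f ∞ mu).toReal, ENNReal.toReal_nonneg, ?_⟩
  have h := ae_le_eLpNormEssSup (f := f) (μ := mu)
  filter_upwards [h] with t ht
  have hfin : eLpNorm f ∞ mu ≠ ∞ := hf.2.ne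
  rw [eLpNorm_exponent_top] at *
  have := (ENNReal.toReal_le_toReal (by simp) hfin).2 ht
  simpa using this

lemma bdd_mul {f g : T → ℂ} (hf : MemLp f ∞ mu) (hg : MemLp g ∞ mu) :
    MemLp (fun t => f t * g t) ∞ mu := by
  obtain ⟨C, hC0, hC⟩ := exists_bound hf
  obtain ⟨D, hD0, hD⟩ := exists_bound hg
  refine memLp_top_of_bound (hf.1.mul hg.1) (C * D) ?_
  filter_upwards [hC, hD] with t h1 h2
  rw [norm_mul]
  exact mul_le_mul h1 h2 (norm_nonneg _) hC0

lemma bdd_conj {f : T → ℂ} (hf : MemLp f ∞ mu) : MemLp (fun t => conj (f t)) ∞ mu := by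
  obtain ⟨C, hC0, hC⟩ := exists_bound hf
  refine memLp_top_of_bound (continuous_conj.comp_aestronglyMeasurable hf.1) C ?_
  filter_upwards [hC] with t h1
  simpa using h1

lemma bdd_e (n : ℤ) : MemLp (e n) ∞ mu :=
  memLp_top_of_bound (e_aesm n) 1 (Eventually.of_forall fun t => (e_norm n t).le)

lemma bdd_cont {f : T → ℂ} (hf : Continuous f) : MemLp f ∞ mu := by
  obtain ⟨C, hC⟩ := isCompact_univ.exists_bound_of_continuousOn hf.continuousOn
  exact memLp_top_of_bound hf.aestronglyMeasurable C (Eventually.of_forall fun t => hC t trivial)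

/-- geometric series under the integral -/
lemma geom {f ψ : T → ℂ} (hf : Integrable f mu) (hψ : Continuous ψ) (h1 : ∀ t, ‖ψ t‖ ≤ 1)
    {a : ℂ} (ha : ‖a‖ < 1) :
    HasSum (fun m : ℕ => a ^ m * ∫ t, f t * ψ t ^ m ∂mu) (∫ t, f t * (1 - a * ψ t)⁻¹ ∂mu) := by
  have h2 : ∀ t, ‖a * ψ t‖ < 1 := fun t => by
    rw [norm_mul]
    calc ‖a‖ * ‖ψ t‖ ≤ ‖a‖ * 1 := mul_le_mul_of_nonneg_left (h1 t) (norm_nonneg _)
      _ < 1 := by simpa using ha
  have key := hasSum_integral_of_dominated_convergence (μ := mu)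
    (F := fun (m : ℕ) t => f t * (a * ψ t) ^ m) (f := fun t => f t * (1 - a * ψ t)⁻¹)
    (fun (m : ℕ) t => ‖f t‖ * ‖a‖ ^ m) ?_ ?_ ?_ ?_ ?_
  · have e1 : (fun m : ℕ => a ^ m * ∫ t, f t * ψ t ^ m ∂mu) =
        fun m : ℕ => ∫ t, f t * (a * ψ t) ^ m ∂mu := by
      funext m
      rw [← integral_const_mul]
      congr 1
      funext t
      rw [mul_pow]; ring
    rw [e1]; exact key
  · intro m
    exact hf.1.mul ((continuous_const.mul hψ).pow m).aestronglyMeasurable
  · intro m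
    refine Eventually.of_forall fun t => ?_
    rw [norm_mul, norm_pow, norm_mul]
    refine mul_le_mul_of_nonneg_left ?_ (norm_nonneg _)
    apply pow_le_pow_left₀ (by positivity)
    calc ‖a‖ * ‖ψ t‖ ≤ ‖a‖ * 1 := mul_le_mul_of_nonneg_left (h1 t) (norm_nonneg _)
      _ = ‖a‖ := mul_one _
  · exact Eventually.of_forall fun t =>
      (summable_geometric_of_lt_one (norm_nonneg _) ha).mul_left _
  · simp_rw [tsum_mul_left]
    exact hf.norm.mul_const _
  · refine Eventually.of_forall fun t => ?_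
    exact (hasSum_geometric_of_norm_lt_one (h2 t)).mul_left _

/-- the Cauchy kernel `1 / (1 - z e^{-it})` -/
noncomputable def ck (z : ℂ) (t : T) : ℂ := (1 - z * e (-1) t)⁻¹

/-- the kernel `1 / (1 - b e^{it})` -/
noncomputable def qk (b : ℂ) (t : T) : ℂ := (1 - b * e 1 t)⁻¹

lemma den_ne {z : ℂ} (hz : ‖z‖ < 1) (n : ℤ) (t : T) : 1 - z * e n t ≠ 0 := by
  intro h
  have h1 : z * e n t = 1 := by linear_combination -h
  have h2 := congrArg norm h1
  rw [norm_mul, e_norm, mul_one, norm_one] at h2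
  linarith

lemma ck_cont {z : ℂ} (hz : ‖z‖ < 1) : Continuous (ck z) :=
  (continuous_const.sub (continuous_const.mul (e_cont _))).inv₀ (den_ne hz _)

lemma qk_cont {z : ℂ} (hz : ‖z‖ < 1) : Continuous (qk z) :=
  (continuous_const.sub (continuous_const.mul (e_cont _))).inv₀ (den_ne hz _)

lemma ck_conj (z : ℂ) (t : T) : conj (ck z t) = qk (conj z) t := by
  simp only [ck, qk, map_inv₀, map_sub, map_one, map_mul]
  rw [e_neg, Complex.conj_conj]

lemma qk_conj (z : ℂ) (t : T) : conj (qk z t) = ck (conj z) t := by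
  simp only [ck, qk, map_inv₀, map_sub, map_one, map_mul]
  rw [e_neg]

/-- Expansion of `∫ f e_n / (1 - a e_{-1})`. -/
lemma int_ck {f : T → ℂ} (hf : Integrable f mu) {a : ℂ} (ha : ‖a‖ < 1) (n : ℤ) :
    HasSum (fun m : ℕ => a ^ m * fourierCoeff f (m - n)) (∫ t, f t * e n t * ck a t ∂mu) := by
  have h := geom (f := fun t => f t * e n t) (ψ := e (-1)) (a := a) ?_ (e_cont _)
    (fun t => (e_norm _ t).le) ha
  · have e1 : (fun m : ℕ => a ^ m * fourierCoeff f (m - n)) =
        fun m : ℕ => a ^ m * ∫ t, f t * e n t * e (-1) t ^ m ∂mu := by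
      funext m
      congr 1
      rw [show ((m : ℤ) - n) = -(n + -(m : ℤ)) by ring, ← int_mul_e]
      congr 1
      funext t
      rw [e_add, e_negnat]; ring
    rw [e1]; exact h
  · exact hf.mul_bdd (c := 1) (e_aesm n) (Eventually.of_forall fun t => (e_norm n t).le)

/-- Expansion of `∫ f e_n / (1 - b e_1)`. -/
lemma int_qk {f : T → ℂ} (hf : Integrable f mu) {b : ℂ} (hb : ‖b‖ < 1) (n : ℤ) :
    HasSum (fun m : ℕ => b ^ m * fourierCoeff f (-(m : ℤ) - n))
      (∫ t, f t * e n t * qk b t ∂mu) := by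
  have h := geom (f := fun t => f t * e n t) (ψ := e 1) (a := b) ?_ (e_cont _)
    (fun t => (e_norm _ t).le) hb
  · have e1 : (fun m : ℕ => b ^ m * fourierCoeff f (-(m : ℤ) - n)) =
        fun m : ℕ => b ^ m * ∫ t, f t * e n t * e 1 t ^ m ∂mu := by
      funext m
      congr 1
      rw [show (-(m : ℤ) - n) = -(n + (m : ℤ)) by ring, ← int_mul_e]
      congr 1
      funext t
      rw [e_add, e_nat]; ring
    rw [e1]; exact h
  · exact hf.mul_bdd (c := 1) (e_aesm n) (Eventually.of_forall fun t => (e_norm n t).le)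

/-- Cauchy formula: `∫ f / (1 - z e_{-1}) = ext f z` -/
lemma int_ck_ext {f : T → ℂ} (hf : Integrable f mu) {a : ℂ} (ha : ‖a‖ < 1) :
    ∫ t, f t * ck a t ∂mu = ext f a := by
  have h := int_ck hf ha 0
  simp only [e_zero, mul_one, sub_zero] at h
  rw [← h.tsum_eq, ext]
  simp_rw [mul_comm]

lemma hasSum_ext {f : T → ℂ} (hf : Integrable f mu) {a : ℂ} (ha : ‖a‖ < 1) :
    HasSum (fun n : ℕ => fourierCoeff f n * a ^ n) (ext f a) := by
  have h := int_ck hf ha 0
  simp only [e_zero, mul_one, sub_zero] at h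
  rw [← int_ck_ext hf ha]
  simp_rw [mul_comm] at h ⊢
  exact h

/-- for `f ∈ HInf` and `n ≥ 1` : `∫ f e_n / (1 - a e_{-1}) = a^n ext f a` -/
lemma int_ck_HInf {f : T → ℂ} (hf : f ∈ HInf) {a : ℂ} (ha : ‖a‖ < 1) (n : ℕ) :
    ∫ t, f t * e n t * ck a t ∂mu = a ^ n * ext f a := by
  have h := int_ck (memLp_integrable hf.1) ha n
  have h2 := (hasSum_nat_add_iff' (f := fun m : ℕ => a ^ m * fourierCoeff f ((m : ℤ) - n)) n).2 h
  have h3 : ∑ i ∈ Finset.range n, a ^ i * fourierCoeff f ((i : ℤ) - n) = 0 := by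
    apply Finset.sum_eq_zero
    intro i hi
    rw [hf.2 _ (by have := Finset.mem_range.1 hi; omega), mul_zero]
  rw [h3, sub_zero] at h2
  have h4 := (hasSum_ext (memLp_integrable hf.1) ha).mul_left (a ^ n)
  refine h2.unique ?_
  have e5 : (fun m : ℕ => a ^ (m + n) * fourierCoeff f (((m + n : ℕ) : ℤ) - n)) =
      fun i : ℕ => a ^ n * (fourierCoeff f i * a ^ i) := by
    funext m
    rw [pow_add, show (((m + n : ℕ) : ℤ) - n) = m by push_cast; ring]
    ring
  rw [e5]; exact h4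

/-- for `f ∈ HInf` and `n ≥ 1` : `∫ f e_n / (1 - b e_1) = 0` -/
lemma int_qk_HInf {f : T → ℂ} (hf : f ∈ HInf) {b : ℂ} (hb : ‖b‖ < 1) (n : ℤ) (hn : 0 < n) :
    ∫ t, f t * e n t * qk b t ∂mu = 0 := by
  have h := int_qk (memLp_integrable hf.1) hb n
  refine h.unique ?_
  convert hasSum_zero with m
  rw [hf.2 _ (by omega), mul_zero]

lemma fc_one (n : ℤ) : fourierCoeff (fun _ : T => (1 : ℂ)) n = if n = 0 then 1 else 0 := by
  rw [fc_def]
  simp only [mul_one]
  rw [int_e]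
  simp

/-- constants are in `HInf` -/
lemma const_HInf (c : ℂ) : (fun _ : T => c) ∈ HInf := by
  refine ⟨bdd_cont continuous_const, fun n hn => ?_⟩
  have : fourierCoeff (fun _ : T => c) n = c * fourierCoeff (fun _ : T => (1 : ℂ)) n := by
    rw [fc_def, fc_def, ← integral_const_mul]
    congr 1; funext t; ring
  rw [this, fc_one, if_neg hn.ne, mul_zero]

lemma congr_HInf {f g : T → ℂ} (hf : f ∈ HInf) (h : f =ᵐ[mu] g) : g ∈ HInf := by
  refine ⟨(memLp_congr_ae h).1 hf.1, fun n hn => ?_⟩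
  rw [← hf.2 n hn]
  rw [fourierCoeff_congr_ae h]

lemma add_HInf {f g : T → ℂ} (hf : f ∈ HInf) (hg : g ∈ HInf) : (fun t => f t + g t) ∈ HInf := by
  refine ⟨hf.1.add hg.1, fun n hn => ?_⟩
  have := fourierCoeff.add (memLp_integrable hf.1) (memLp_integrable hg.1)
  have h2 := congrFun this n
  simp only [Pi.add_apply] at h2
  have h3 : fourierCoeff (fun t => f t + g t) n = fourierCoeff (f + g) n := rfl
  rw [h3, h2, hf.2 n hn, hg.2 n hn, add_zero]

lemma smul_HInf {f : T → ℂ} (hf : f ∈ HInf) (c : ℂ) : (fun t => c * f t) ∈ HInf := by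
  refine ⟨hf.1.const_mul c, fun n hn => ?_⟩
  have h : fourierCoeff (fun t => c * f t) n = c * fourierCoeff f n := by
    rw [fc_def, fc_def, ← integral_const_mul]
    congr 1; funext t; ring
  rw [h, hf.2 n hn, mul_zero]

lemma sub_HInf {f g : T → ℂ} (hf : f ∈ HInf) (hg : g ∈ HInf) : (fun t => f t - g t) ∈ HInf := by
  have := add_HInf hf (smul_HInf hg (-1))
  refine congr_HInf this (Eventually.of_forall fun t => ?_)
  ring

/-- criterion for membership in `HInf` -/
lemma mem_HInf_iff {f : T → ℂ} (hf : MemLp f ∞ mu) :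
    f ∈ HInf ↔ ∀ n : ℕ, 0 < n → ∫ t, f t * e n t ∂mu = 0 := by
  constructor
  · intro h n hn
    rw [int_mul_e]
    exact h.2 _ (by omega)
  · intro h
    refine ⟨hf, fun n hn => ?_⟩
    have := h (-n).toNat (by omega)
    rw [Int.toNat_of_nonneg (by omega), int_mul_e, neg_neg] at this
    exact this

/-- `HInf` times the kernel `1/(1 - b e_1)` -/
lemma mul_qk_HInf {f : T → ℂ} (hf : f ∈ HInf) {b : ℂ} (hb : ‖b‖ < 1) :
    (fun t => f t * qk b t) ∈ HInf := by
  rw [mem_HInf_iff (bdd_mul hf.1 (bdd_cont (qk_cont hb)))]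
  intro n hn
  rw [← int_qk_HInf hf hb n (by exact_mod_cast hn)]
  congr 1; funext t; ring

lemma mul_e_HInf {f : T → ℂ} (hf : f ∈ HInf) : (fun t => f t * e 1 t) ∈ HInf := by
  rw [mem_HInf_iff (bdd_mul hf.1 (bdd_e 1))]
  intro n hn
  have h := (mem_HInf_iff hf.1).1 hf (n + 1) (by omega)
  rw [← h]
  congr 1; funext t
  push_cast
  rw [e_add]; ring

lemma qk_HInf {b : ℂ} (hb : ‖b‖ < 1) : qk b ∈ HInf := by
  have := mul_qk_HInf (const_HInf 1) hb
  simpa using this

lemma fc_qk {b : ℂ} (hb : ‖b‖ < 1) (n : ℕ) : fourierCoeff (qk b) n = b ^ n := by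
  rw [fc_def]
  have h := int_qk (f := fun _ => (1 : ℂ)) (integrable_const _) hb (-(n : ℤ))
  have e1 : ∫ t, e (-(n : ℤ)) t * qk b t ∂mu = ∫ t, (1 : ℂ) * e (-(n : ℤ)) t * qk b t ∂mu := by
    simp
  rw [e1]
  refine h.unique ?_
  convert hasSum_ite_eq n (b ^ n) using 2 with m
  rw [fc_one]
  by_cases hm : m = n
  · subst hm; simp
  · rw [if_neg hm, if_neg (by omega), mul_zero]

lemma ext_qk {b : ℂ} (hb : ‖b‖ < 1) {z : ℂ} (hz : ‖z‖ < 1) : ext (qk b) z = (1 - b * z)⁻¹ := by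
  rw [ext]
  simp_rw [fc_qk hb, ← mul_pow]
  rw [tsum_geometric_of_norm_lt_one]
  rw [norm_mul]
  calc ‖b‖ * ‖z‖ ≤ ‖b‖ * 1 := mul_le_mul_of_nonneg_left hz.le (norm_nonneg _)
    _ < 1 := by simpa using hb

end

section

open MeasureTheory AddCircle Complex Filter Topology
open scoped ENNReal ComplexConjugate

/-- Poisson kernel -/
noncomputable def pk (a : ℂ) (t : T) : ℝ := (1 - ‖a‖ ^ 2) * ‖ck a t‖ ^ 2

lemma pk_cont {a : ℂ} (ha : ‖a‖ < 1) : Continuous (pk a) :=
  continuous_const.mul ((ck_cont ha).norm.pow 2)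

lemma pk_nonneg {a : ℂ} (ha : ‖a‖ < 1) (t : T) : 0 ≤ pk a t := by
  apply mul_nonneg _ (by positivity)
  have := norm_nonneg a
  nlinarith

lemma pk_eq {a : ℂ} (ha : ‖a‖ < 1) (t : T) :
    (pk a t : ℂ) = ck a t + conj a * e 1 t * qk (conj a) t := by
  have h1 := den_ne ha (-1) t
  have h2 : 1 - conj a * e 1 t ≠ 0 := den_ne (by simpa using ha) 1 t
  have h3 : ((‖ck a t‖ ^ 2 : ℝ) : ℂ) = ck a t * conj (ck a t) := by
    rw [Complex.mul_conj, Complex.normSq_eq_norm_sq]
  have h4 : ((‖a‖ ^ 2 : ℝ) : ℂ) = a * conj a := by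
    rw [Complex.mul_conj, Complex.normSq_eq_norm_sq]
  rw [pk, Complex.ofReal_mul, Complex.ofReal_sub, h3, h4, ck_conj]
  simp only [ck, qk, Complex.ofReal_one]
  have h5 := e_mul_neg t
  field_simp
  linear_combination (a * conj a) * h5

lemma re_qk {b : ℂ} (hb : ‖b‖ < 1) (t : T) : (qk b t).re = (1 + pk (conj b) t) / 2 := by
  have h1 := den_ne hb 1 t
  have hb' : ‖conj b‖ < 1 := by simpa using hb
  have h2 : 1 - conj b * e (-1) t ≠ 0 := den_ne hb' (-1) t
  have h3 := pk_eq hb' t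
  rw [Complex.conj_conj] at h3
  have h4 : ck (conj b) t = conj (qk b t) := (qk_conj b t).symm
  have h5 : ((qk b t + conj (qk b t) : ℂ)) = 1 + (pk (conj b) t : ℂ) := by
    rw [h3, h4]
    have : qk b t = 1 + b * e 1 t * qk b t := by
      simp only [qk]; field_simp; ring
    linear_combination this
  rw [Complex.add_conj] at h5
  have h6 := congrArg Complex.re h5
  simp at h6
  linarith

lemma norm_qk_sq {b : ℂ} (hb : ‖b‖ < 1) (t : T) :
    ‖qk b t‖ ^ 2 = pk (conj b) t / (1 - ‖b‖ ^ 2) := by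
  have hb' : ‖conj b‖ = ‖b‖ := by simp
  have : 1 - ‖b‖ ^ 2 ≠ 0 := by
    have := norm_nonneg b
    nlinarith
  rw [pk, hb', ← qk_conj, RCLike.norm_conj]
  field_simp

lemma int_pk_HInf {f : T → ℂ} (hf : f ∈ HInf) {a : ℂ} (ha : ‖a‖ < 1) :
    ∫ t, f t * (pk a t : ℂ) ∂mu = ext f a := by
  have ha' : ‖conj a‖ < 1 := by simpa using ha
  have h1 : ∀ t, f t * (pk a t : ℂ) = f t * ck a t + conj a * (f t * e 1 t * qk (conj a) t) := by
    intro t; rw [pk_eq ha]; ring
  simp_rw [h1]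
  rw [integral_add, int_ck_ext (memLp_integrable hf.1) ha, integral_const_mul,
    int_qk_HInf hf ha' 1 (by norm_num), mul_zero, add_zero]
  · exact memLp_integrable (bdd_mul hf.1 (bdd_cont (ck_cont ha)))
  · exact (memLp_integrable (bdd_mul (bdd_mul hf.1 (bdd_e 1)) (bdd_cont (qk_cont ha')))).const_mul _

lemma ext_one {a : ℂ} : ext (fun _ => 1) a = 1 := by
  rw [ext]
  have : (fun n : ℕ => fourierCoeff (fun _ : T => (1 : ℂ)) n * a ^ n) =
      fun n : ℕ => if n = 0 then 1 else 0 := by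
    funext n
    rw [fc_one]
    by_cases hn : n = 0
    · subst hn; simp
    · rw [if_neg (by exact_mod_cast hn), if_neg hn, zero_mul]
  rw [this, tsum_ite_eq]

lemma int_pk {a : ℂ} (ha : ‖a‖ < 1) : ∫ t, pk a t ∂mu = 1 := by
  have h := int_pk_HInf (const_HInf 1) ha
  rw [ext_one] at h
  simp only [one_mul] at h
  rw [show (∫ t, ((pk a t : ℝ) : ℂ) ∂mu) = ((∫ t, pk a t ∂mu : ℝ) : ℂ) from
    integral_ofReal] at h
  exact_mod_cast h

lemma int_norm_qk_sq {b : ℂ} (hb : ‖b‖ < 1) : ∫ t, ‖qk b t‖ ^ 2 ∂mu = (1 - ‖b‖ ^ 2)⁻¹ := by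
  simp_rw [norm_qk_sq hb, div_eq_mul_inv]
  rw [integral_mul_const, int_pk (by simpa using hb), one_mul]

/-- maximum principle -/
lemma ext_bound {f : T → ℂ} (hf : f ∈ HInf) {M : ℝ} (hM : ∀ᵐ t ∂mu, ‖f t‖ ≤ M) {a : ℂ}
    (ha : ‖a‖ < 1) : ‖ext f a‖ ≤ M := by
  rw [← int_pk_HInf hf ha]
  calc ‖∫ t, f t * (pk a t : ℂ) ∂mu‖ ≤ ∫ t, M * pk a t ∂mu := by
        apply norm_integral_le_of_norm_le
        · exact ((pk_cont ha).integrable_of_hasCompactSupport
            (HasCompactSupport.of_compactSpace _)).const_mul _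
        · filter_upwards [hM] with t ht
          rw [norm_mul, Complex.norm_real, Real.norm_of_nonneg (pk_nonneg ha t)]
          exact mul_le_mul_of_nonneg_right ht (pk_nonneg ha t)
    _ = M := by rw [integral_const_mul, int_pk ha, mul_one]

lemma int_qk_HInf0 {f : T → ℂ} (hf : f ∈ HInf) {b : ℂ} (hb : ‖b‖ < 1) :
    ∫ t, f t * qk b t ∂mu = fourierCoeff f 0 := by
  have h := int_qk (memLp_integrable hf.1) hb 0
  simp only [e_zero, mul_one, sub_zero] at h
  refine h.unique ?_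
  have e5 : (fun m : ℕ => b ^ m * fourierCoeff f (-(m : ℤ))) =
      fun m : ℕ => if m = 0 then fourierCoeff f 0 else 0 := by
    funext m
    by_cases hm : m = 0
    · subst hm; simp
    · rw [if_neg hm, hf.2 _ (by omega), mul_zero]
  rw [e5]
  exact hasSum_ite_eq 0 _

lemma cont_int {f : T → ℂ} (hf : Continuous f) : Integrable f mu :=
  hf.integrable_of_hasCompactSupport (HasCompactSupport.of_compactSpace _)

lemma cont_intR {f : T → ℝ} (hf : Continuous f) : Integrable f mu :=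
  hf.integrable_of_hasCompactSupport (HasCompactSupport.of_compactSpace _)
lemma norm_ck_le {z : ℂ} (hz : ‖z‖ < 1) (t : T) : ‖ck z t‖ ≤ (1 - ‖z‖)⁻¹ := by
  rw [ck, norm_inv]
  apply inv_anti₀ (by linarith)
  have := norm_sub_norm_le (1 : ℂ) (z * e (-1) t)
  rw [norm_mul, e_norm, norm_one, mul_one] at this
  exact this

lemma norm_qk_le {z : ℂ} (hz : ‖z‖ < 1) (t : T) : ‖qk z t‖ ≤ (1 - ‖z‖)⁻¹ := by
  rw [qk, norm_inv]
  apply inv_anti₀ (by linarith)
  have := norm_sub_norm_le (1 : ℂ) (z * e 1 t)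
  rw [norm_mul, e_norm, norm_one, mul_one] at this
  exact this


lemma sum_HInf {ι : Type*} (s : Finset ι) (f : ι → T → ℂ) (h : ∀ i ∈ s, f i ∈ HInf) :
    (fun t => ∑ i ∈ s, f i t) ∈ HInf := by
  classical
  induction s using Finset.induction_on with
  | empty => simpa using const_HInf 0
  | insert a s ha ih =>
    simp_rw [Finset.sum_insert ha]
    exact add_HInf (h a (Finset.mem_insert_self _ _))
      (ih fun i hi => h i (Finset.mem_insert_of_mem hi))

lemma ext_add {f g : T → ℂ} (hf : Integrable f mu) (hg : Integrable g mu) {a : ℂ} (ha : ‖a‖ < 1) :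
    ext (fun t => f t + g t) a = ext f a + ext g a := by
  have hfg : Integrable (fun t => f t + g t) mu := hf.add hg
  rw [← int_ck_ext hfg ha, ← int_ck_ext hf ha, ← int_ck_ext hg ha, ← integral_add]
  · congr 1; funext t; ring
  · exact hf.mul_bdd (c := (1 - ‖a‖)⁻¹) (ck_cont ha).aestronglyMeasurable
      (Eventually.of_forall fun t => norm_ck_le ha t)
  · exact hg.mul_bdd (c := (1 - ‖a‖)⁻¹) (ck_cont ha).aestronglyMeasurable
      (Eventually.of_forall fun t => norm_ck_le ha t)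

lemma ext_smul {f : T → ℂ} (hf : Integrable f mu) (c : ℂ) {a : ℂ} (ha : ‖a‖ < 1) :
    ext (fun t => c * f t) a = c * ext f a := by
  rw [← int_ck_ext (hf.const_mul c) ha, ← int_ck_ext hf ha, ← integral_const_mul]
  congr 1; funext t; ring

lemma memLp2 {f : T → ℂ} (hf : MemLp f ∞ mu) : MemLp f 2 mu := hf.mono_exponent le_top

/-- Parseval for inner products. -/
lemma parseval2 {f g : T → ℂ} (hf : MemLp f 2 mu) (hg : MemLp g 2 mu) :
    HasSum (fun i : ℤ => conj (fourierCoeff f i) * fourierCoeff g i)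
      (∫ t, conj (f t) * g t ∂mu) := by
  set x : Lp ℂ 2 mu := hf.toLp f
  set y : Lp ℂ 2 mu := hg.toLp g
  have h := (fourierBasis (T := (1 : ℝ))).hasSum_inner_mul_inner x y
  have hx : ∀ i, fourierCoeff x i = fourierCoeff f i := fun i => by
    rw [fourierCoeff_congr_ae (MemLp.coeFn_toLp hf)]
  have hy : ∀ i, fourierCoeff y i = fourierCoeff g i := fun i => by
    rw [fourierCoeff_congr_ae (MemLp.coeFn_toLp hg)]
  have e1 : ∀ i : ℤ, inner ℂ x (fourierBasis (T := (1 : ℝ)) i) *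
      inner ℂ (fourierBasis (T := (1 : ℝ)) i) y =
      conj (fourierCoeff f i) * fourierCoeff g i := by
    intro i
    rw [← inner_conj_symm, ← HilbertBasis.repr_apply_apply, ← HilbertBasis.repr_apply_apply,
      fourierBasis_repr, fourierBasis_repr, hx, hy]
  simp_rw [e1] at h
  have e2 : inner ℂ x y = ∫ t, conj (f t) * g t ∂mu := by
    rw [L2.inner_def]
    apply integral_congr_ae
    filter_upwards [MemLp.coeFn_toLp hf, MemLp.coeFn_toLp hg] with t h1 h2
    rw [RCLike.inner_apply, h1, h2]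
    ring
  rw [e2] at h
  exact h

lemma fc_conj (f : T → ℂ) (n : ℤ) : fourierCoeff (fun t => conj (f t)) n =
    conj (fourierCoeff f (-n)) := by
  rw [fc_def, fc_def, ← integral_conj, neg_neg]
  congr 1; funext t
  rw [map_mul, ← e_neg]

lemma fc_mul_e (f : T → ℂ) (m n : ℤ) : fourierCoeff (fun t => f t * e m t) n =
    fourierCoeff f (n - m) := by
  rw [fc_def, fc_def]
  congr 1; funext t
  rw [show -(n - m) = -n + m by ring, e_add]
  ring

/-- `H^∞` is an algebra. -/
lemma mul_HInf {f g : T → ℂ} (hf : f ∈ HInf) (hg : g ∈ HInf) : (fun t => f t * g t) ∈ HInf := by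
  refine (mem_HInf_iff (bdd_mul hf.1 hg.1)).2 fun n hn => ?_
  have h := parseval2 (memLp2 (bdd_conj hf.1)) (memLp2 (bdd_mul hg.1 (bdd_e n)))
  simp only [fc_conj, fc_mul_e, Complex.conj_conj] at h
  have e1 : ∀ t, f t * g t * e n t = f t * (g t * e n t) := fun t => by ring
  simp_rw [e1]
  refine h.unique ?_
  convert hasSum_zero with i
  rcases lt_or_ge (-i) 0 with h1 | h1
  · rw [hf.2 _ h1, zero_mul]
  · rw [hg.2 _ (by omega), mul_zero]

/-- Parseval -/
lemma parseval {f : T → ℂ} (hf : MemLp f 2 mu) :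
    HasSum (fun i : ℤ => ‖fourierCoeff f i‖ ^ 2) (∫ t, ‖f t‖ ^ 2 ∂mu) := by
  have h := parseval2 hf hf
  have e1 : ∀ z : ℂ, conj z * z = ((‖z‖ ^ 2 : ℝ) : ℂ) := fun z => by
    rw [mul_comm, Complex.mul_conj, Complex.normSq_eq_norm_sq]
  simp_rw [e1] at h
  have e2 : (∫ t, ((‖f t‖ ^ 2 : ℝ) : ℂ) ∂mu) = ((∫ t, ‖f t‖ ^ 2 ∂mu : ℝ) : ℂ) := integral_ofReal
  rw [e2] at h
  exact_mod_cast h

/-- functions with vanishing Fourier coefficients vanish -/
lemma ae_zero_of_fc {f : T → ℂ} (hf : MemLp f 2 mu) (h : ∀ n, fourierCoeff f n = 0) :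
    ∀ᵐ t ∂mu, f t = 0 := by
  have h1 := parseval hf
  simp_rw [h, norm_zero] at h1
  have h2 : ∫ t, ‖f t‖ ^ 2 ∂mu = 0 := by
    refine h1.unique ?_
    convert hasSum_zero using 2
    norm_num
  have h3 : Integrable (fun t => ‖f t‖ ^ 2) mu := hf.integrable_norm_pow (by norm_num)
  rw [integral_eq_zero_iff_of_nonneg (fun t => by positivity) h3] at h2
  filter_upwards [h2] with t ht
  simpa using ht

/-- L² Cauchy–Schwarz style bound of L¹ by L² via AM-GM: `∫ ‖f‖ ≤ δ` if `∫ ‖f‖² ≤ δ²`. -/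
lemma L1_le_of_L2 {f : T → ℂ} (hf : MemLp f 2 mu) {δ : ℝ} (hδ : 0 < δ)
    (h : ∫ t, ‖f t‖ ^ 2 ∂mu ≤ δ ^ 2) : ∫ t, ‖f t‖ ∂mu ≤ δ := by
  have hp : ∀ t, ‖f t‖ ≤ δ / 2 + (2 * δ)⁻¹ * ‖f t‖ ^ 2 := by
    intro t
    set x := ‖f t‖ with hx
    have h7 : 0 ≤ (2 * δ)⁻¹ * (x - δ) ^ 2 := by positivity
    have e2 : (2 * δ)⁻¹ * (x - δ) ^ 2 = δ / 2 + (2 * δ)⁻¹ * x ^ 2 - x := by
      field_simp; ring
    linarith
  have h3 : Integrable (fun t => ‖f t‖ ^ 2) mu := hf.integrable_norm_pow (by norm_num)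
  have i2 : Integrable (fun t => (2 * δ)⁻¹ * ‖f t‖ ^ 2) mu := h3.const_mul _
  have i1 : Integrable (fun _ : T => δ / 2) mu := integrable_const _
  have i3 : Integrable (fun t => δ / 2 + (2 * δ)⁻¹ * ‖f t‖ ^ 2) mu := i1.add i2
  have s1 : ∫ t, ‖f t‖ ∂mu ≤ ∫ t, (δ / 2 + (2 * δ)⁻¹ * ‖f t‖ ^ 2) ∂mu :=
    integral_mono (hf.integrable (by norm_num)).norm i3 hp
  have s2 : ∫ t, (δ / 2 + (2 * δ)⁻¹ * ‖f t‖ ^ 2) ∂mu =
      δ / 2 + (2 * δ)⁻¹ * ∫ t, ‖f t‖ ^ 2 ∂mu := by
    rw [integral_add i1 i2, integral_const_mul, integral_const]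
    simp
  have s3 : (2 * δ)⁻¹ * ∫ t, ‖f t‖ ^ 2 ∂mu ≤ (2 * δ)⁻¹ * δ ^ 2 :=
    mul_le_mul_of_nonneg_left h (by positivity)
  have s4 : (2 * δ)⁻¹ * δ ^ 2 = δ / 2 := by field_simp
  linarith

lemma ext_mul {f g : T → ℂ} (hf : f ∈ HInf) (hg : g ∈ HInf) {z : ℂ} (hz : ‖z‖ < 1) :
    ext (fun t => f t * g t) z = ext f z * ext g z := by
  have bc := bdd_cont (ck_cont hz)
  -- the function `k' = (f - ext f z) ck z e_{-1}` is in `HInf`
  have hk : (fun t => (f t - ext f z) * ck z t * e (-1) t) ∈ HInf := by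
    have hb : MemLp (fun t => (f t - ext f z)) ∞ mu := hf.1.sub (memLp_const _)
    refine (mem_HInf_iff (bdd_mul (bdd_mul hb bc) (bdd_e _))).2 fun n hn => ?_
    obtain ⟨m, rfl⟩ : ∃ m, n = m + 1 := ⟨n - 1, by omega⟩
    have e1 : ∀ t, (f t - ext f z) * ck z t * e (-1) t * e ((m + 1 : ℕ) : ℤ) t =
        f t * e m t * ck z t - ext f z * ((1 : ℂ) * e m t * ck z t) := by
      intro t
      have : e ((m + 1 : ℕ) : ℤ) t = e 1 t * e m t := by rw [← e_add]; congr 2; push_cast; ring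
      rw [this]
      linear_combination ((f t - ext f z) * ck z t * e m t) * (e_mul_neg t)
    simp_rw [e1]
    have i1 : Integrable (fun t => f t * e m t * ck z t) mu :=
      memLp_integrable (bdd_mul (bdd_mul hf.1 (bdd_e m)) bc)
    have i2 : Integrable (fun t => ext f z * ((1 : ℂ) * e m t * ck z t)) mu :=
      (cont_int ((continuous_const.mul (e_cont m)).mul (ck_cont hz))).const_mul _
    rw [integral_sub i1 i2, integral_const_mul, int_ck_HInf hf hz,
      int_ck_HInf (const_HInf 1) hz, ext_one]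
    ring
  have h0 := (mem_HInf_iff (mul_HInf hg hk).1).1 (mul_HInf hg hk) 1 one_pos
  have hfg := mul_HInf hf hg
  rw [← int_ck_ext (memLp_integrable hfg.1) hz]
  have e2 : ∀ t, f t * g t * ck z t = ext f z * (g t * ck z t) +
      (g t * ((f t - ext f z) * ck z t * e (-1) t)) * e ((1 : ℕ) : ℤ) t := by
    intro t
    have := e_mul_neg t
    simp only [Nat.cast_one]
    linear_combination (-(g t * (f t - ext f z) * ck z t)) * this
  simp_rw [e2]
  have i1 : Integrable (fun t => ext f z * (g t * ck z t)) mu :=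
    (memLp_integrable (bdd_mul hg.1 bc)).const_mul _
  have i2 : Integrable (fun t => (g t * ((f t - ext f z) * ck z t * e (-1) t)) *
      e ((1 : ℕ) : ℤ) t) mu := memLp_integrable (bdd_mul (mul_HInf hg hk).1 (bdd_e _))
  rw [integral_add i1 i2, h0, add_zero, integral_const_mul,
    int_ck_ext (memLp_integrable hg.1) hz]

lemma ext_congr {f g : T → ℂ} (h : f =ᵐ[mu] g) (z : ℂ) : ext f z = ext g z := by
  simp only [ext, fourierCoeff_congr_ae h]

lemma ext_const (c : ℂ) {z : ℂ} (hz : ‖z‖ < 1) : ext (fun _ => c) z = c := by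
  have h1 : (fun _ : T => c) = fun t => c * (fun _ : T => (1 : ℂ)) t := by funext t; simp
  rw [h1, ext_smul (integrable_const _) c hz, ext_one, mul_one]

lemma ext_sub {f g : T → ℂ} (hf : Integrable f mu) (hg : Integrable g mu) {a : ℂ} (ha : ‖a‖ < 1) :
    ext (fun t => f t - g t) a = ext f a - ext g a := by
  have e1 : (fun t => f t - g t) = fun t => f t + (-1) * g t := by funext t; ring
  rw [e1, ext_add hf (hg.const_mul _) ha, ext_smul hg _ ha]
  ring

lemma e1_HInf : e 1 ∈ HInf := by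
  refine congr_HInf (mul_e_HInf (const_HInf 1)) (Eventually.of_forall fun t => ?_)
  simp only [one_mul]

lemma ext_e1 {z : ℂ} (hz : ‖z‖ < 1) : ext (e 1) z = z := by
  have h := int_ck_HInf (const_HInf 1) hz 1
  rw [ext_one] at h
  simp only [Nat.cast_one, one_mul, pow_one, mul_one] at h
  rw [← int_ck_ext (memLp_integrable e1_HInf.1) hz, h]

lemma int_HInf {f : T → ℂ} (hf : f ∈ HInf) : ∫ t, f t ∂mu = ext f 0 := by
  rw [← int_ck_ext (memLp_integrable hf.1) (by simp)]
  congr 1; funext t; simp [ck]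

lemma norm_toLp_sq {f : T → ℂ} (hf : MemLp f 2 mu) : ‖hf.toLp f‖ ^ 2 = ∫ t, ‖f t‖ ^ 2 ∂mu := by
  have h := @inner_self_eq_norm_sq ℂ _ _ _ _ (hf.toLp f)
  rw [← h, L2.inner_def]
  have e2 : (∫ t, inner ℂ ((hf.toLp f : T → ℂ) t) ((hf.toLp f : T → ℂ) t) ∂mu) =
      ((∫ t, ‖f t‖ ^ 2 ∂mu : ℝ) : ℂ) := by
    rw [show ((∫ t, ‖f t‖ ^ 2 ∂mu : ℝ) : ℂ) = ∫ t, ((‖f t‖ ^ 2 : ℝ) : ℂ) ∂mu from
      integral_ofReal.symm]
    apply integral_congr_ae
    filter_upwards [MemLp.coeFn_toLp hf] with t h1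
    rw [RCLike.inner_apply, h1, Complex.mul_conj, Complex.normSq_eq_norm_sq]
  rw [e2]
  simp

lemma norm_fc_le {f : T → ℂ} {M : ℝ} (hM : ∀ᵐ t ∂mu, ‖f t‖ ≤ M) (n : ℤ) :
    ‖fourierCoeff f n‖ ≤ M := by
  rw [fc_def]
  calc ‖∫ t, e (-n) t * f t ∂mu‖ ≤ ∫ _t, M ∂mu := by
        apply norm_integral_le_of_norm_le (integrable_const _)
        filter_upwards [hM] with t ht
        rw [norm_mul, e_norm, one_mul]; exact ht
    _ = M := by rw [integral_const]; simp

/-- the extension is holomorphic -/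
lemma ext_diff {f : T → ℂ} (hf : MemLp f ∞ mu) :
    DifferentiableOn ℂ (ext f) (Metric.ball 0 1) := by
  obtain ⟨M, hM0, hM⟩ := exists_bound hf
  intro z hz
  have hz' : ‖z‖ < 1 := by simpa using hz
  obtain ⟨r, hr1, hr2⟩ := exists_between hz'
  have hr0 : 0 ≤ r := le_trans (norm_nonneg z) hr1.le
  have h1 : DifferentiableOn ℂ (ext f) (Metric.ball 0 r) := by
    have h2 : Summable fun n : ℕ => M * r ^ n :=
      (summable_geometric_of_lt_one hr0 hr2).mul_left _
    refine differentiableOn_tsum_of_summable_norm (u := fun n : ℕ => M * r ^ n) h2 ?_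
      Metric.isOpen_ball ?_
    · intro n
      exact (differentiableOn_const _).mul (differentiableOn_pow n)
    · intro n w hw
      have hw' : ‖w‖ < r := by simpa using hw
      rw [norm_mul, norm_pow]
      exact mul_le_mul (norm_fc_le hM n) (pow_le_pow_left₀ (norm_nonneg _) hw'.le n)
        (by positivity) hM0
  exact (h1.differentiableAt (Metric.isOpen_ball.mem_nhds (by simpa using hr1))).differentiableWithinAt

lemma exists_coeff {G : ℂ → ℂ} (hG : DifferentiableOn ℂ G (Metric.ball 0 1)) :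
    ∃ a : ℕ → ℂ, ∀ w : ℂ, ‖w‖ < 1 → HasSum (fun n : ℕ => a n * w ^ n) (G w) := by
  refine ⟨fun n => (n.factorial : ℂ)⁻¹ * iteratedDeriv n G 0, fun w hw => ?_⟩
  have h1 := Complex.hasSum_taylorSeries_on_ball hG (z := w) (by simpa using hw)
  have e1 : (fun n : ℕ => (n.factorial : ℂ)⁻¹ * iteratedDeriv n G 0 * w ^ n) =
      fun n : ℕ => (n.factorial : ℂ)⁻¹ • (w - 0) ^ n • iteratedDeriv n G 0 := by
    funext n
    rw [smul_eq_mul, smul_eq_mul, sub_zero]; ring
  rw [e1]; exact h1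

/-- integral of a holomorphic function against `e_m`, `m > 0`, over a circle of radius `r < 1` -/
lemma int_circle {G : ℂ → ℂ} (hG : DifferentiableOn ℂ G (Metric.ball 0 1)) {r : ℝ} (hr0 : 0 ≤ r)
    (hr1 : r < 1) (m : ℕ) (hm : 0 < m) : ∫ t, G (r * e 1 t) * e m t ∂mu = 0 := by
  obtain ⟨a, ha⟩ := exists_coeff hG
  have hrn : ‖(r : ℂ)‖ = r := by rw [Complex.norm_real, Real.norm_of_nonneg hr0]
  have hn1 : ∀ t, ‖(r : ℂ) * e 1 t‖ = r := fun t => by rw [norm_mul, e_norm, hrn, mul_one]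
  have hsum : Summable fun n : ℕ => ‖a n‖ * r ^ n := by
    have h1 := (ha r (by rw [hrn]; exact hr1)).summable.norm
    have e1 : (fun n : ℕ => ‖a n‖ * r ^ n) = fun n : ℕ => ‖a n * (r : ℂ) ^ n‖ := by
      funext n; rw [norm_mul, norm_pow, hrn]
    rw [e1]; exact h1
  have key := hasSum_integral_of_dominated_convergence (μ := mu)
    (F := fun (n : ℕ) t => a n * (r * e 1 t) ^ n * e m t)
    (f := fun t => G (r * e 1 t) * e m t)
    (fun (n : ℕ) _ => ‖a n‖ * r ^ n) ?_ ?_ ?_ ?_ ?_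
  · refine key.unique ?_
    have e1 : (fun n : ℕ => ∫ t, a n * (r * e 1 t) ^ n * e m t ∂mu) = fun _ => 0 := by
      funext n
      have e2 : ∀ t, a n * (r * e 1 t) ^ n * e m t = (a n * (r : ℂ) ^ n) * e (n + m) t := by
        intro t; rw [e_add, e_nat n, mul_pow]; ring
      simp_rw [e2]
      rw [integral_const_mul, int_e, if_neg (by omega), mul_zero]
    rw [e1]; exact hasSum_zero
  · intro n
    exact ((continuous_const.mul ((continuous_const.mul (e_cont 1)).pow n)).mul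
      (e_cont m)).aestronglyMeasurable
  · intro n
    refine Eventually.of_forall fun t => ?_
    rw [norm_mul, norm_mul, norm_pow, hn1, e_norm, mul_one]
  · exact Eventually.of_forall fun t => hsum
  · exact integrable_const _
  · refine Eventually.of_forall fun t => ?_
    exact (ha (r * e 1 t) (by rw [hn1]; exact hr1)).mul_right _

/-- Fourier coefficients of the dilation -/
lemma fc_dilate {f : T → ℂ} (hf : f ∈ HInf) {r : ℝ} (hr0 : 0 ≤ r) (hr1 : r < 1) (n : ℤ) :
    fourierCoeff (fun t => ext f (r * e 1 t)) n =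
      if 0 ≤ n then fourierCoeff f n * (r : ℂ) ^ n.toNat else 0 := by
  obtain ⟨M, hM0, hM⟩ := exists_bound hf.1
  have hint := memLp_integrable hf.1
  have hsum : Summable fun k : ℕ => M * r ^ k := (summable_geometric_of_lt_one hr0 hr1).mul_left _
  have hn1 : ∀ t, ‖(r : ℂ) * e 1 t‖ < 1 := fun t => by
    rw [norm_mul, e_norm, Complex.norm_real, Real.norm_of_nonneg hr0, mul_one]; exact hr1
  have key := hasSum_integral_of_dominated_convergence (μ := mu)
    (F := fun (k : ℕ) t => e (-n) t * (fourierCoeff f k * (r * e 1 t) ^ k))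
    (f := fun t => e (-n) t * ext f (r * e 1 t))
    (fun (k : ℕ) _ => M * r ^ k) ?_ ?_ ?_ ?_ ?_
  · rw [fc_def]
    refine key.unique ?_
    have e1 : ∀ k : ℕ, ∫ t, e (-n) t * (fourierCoeff f k * (r * e 1 t) ^ k) ∂mu =
        if (k : ℤ) = n then fourierCoeff f k * (r : ℂ) ^ k else 0 := by
      intro k
      have e2 : ∀ t, e (-n) t * (fourierCoeff f k * (r * e 1 t) ^ k) =
          (fourierCoeff f k * (r : ℂ) ^ k) * e (k - n) t := by
        intro t
        rw [show (k : ℤ) - n = -n + k by ring, e_add, e_nat, mul_pow]; ring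
      simp_rw [e2]
      rw [integral_const_mul, int_e]
      by_cases h : (k : ℤ) = n
      · rw [if_pos h, if_pos (by omega), mul_one]
      · rw [if_neg h, if_neg (by omega), mul_zero]
    simp_rw [e1]
    by_cases h : 0 ≤ n
    · rw [if_pos h]
      have e3 : (fun k : ℕ => if (k : ℤ) = n then fourierCoeff f k * (r : ℂ) ^ k else 0) =
          fun k : ℕ => if k = n.toNat then fourierCoeff f n * (r : ℂ) ^ n.toNat else 0 := by
        funext k
        by_cases hk : k = n.toNat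
        · rw [if_pos hk, if_pos (by omega), hk, Int.toNat_of_nonneg h]
        · rw [if_neg hk, if_neg (by omega)]
      rw [e3]
      exact hasSum_ite_eq _ _
    · rw [if_neg h]
      convert hasSum_zero with k
      rw [if_neg (by omega)]
  · intro k
    exact ((e_cont (-n)).mul (continuous_const.mul ((continuous_const.mul
      (e_cont 1)).pow k))).aestronglyMeasurable
  · intro k
    refine Eventually.of_forall fun t => ?_
    rw [norm_mul, norm_mul, norm_pow, norm_mul, e_norm, e_norm, Complex.norm_real,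
      Real.norm_of_nonneg hr0, mul_one, one_mul]
    exact mul_le_mul_of_nonneg_right (norm_fc_le hM _) (by positivity)
  · exact Eventually.of_forall fun t => hsum
  · exact integrable_const _
  · refine Eventually.of_forall fun t => ?_
    exact (hasSum_ext hint (hn1 t)).mul_left _

lemma dilate_cont {f : T → ℂ} (hf : f ∈ HInf) {r : ℝ} (hr0 : 0 ≤ r) (hr1 : r < 1) :
    Continuous fun t => ext f (r * e 1 t) := by
  have h1 : ContinuousOn (ext f) (Metric.ball 0 1) := (ext_diff hf.1).continuousOn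
  refine h1.comp_continuous (continuous_const.mul (e_cont 1)) fun t => ?_
  simp only [Metric.mem_ball, dist_zero_right]
  rw [norm_mul, e_norm, Complex.norm_real, Real.norm_of_nonneg hr0, mul_one]; exact hr1

/-- `L²` convergence of dilations -/
lemma dilate_tendsto {f : T → ℂ} (hf : f ∈ HInf) {δ : ℝ} (hδ : 0 < δ) :
    ∃ r : ℝ, 0 ≤ r ∧ r < 1 ∧ ∫ t, ‖f t - ext f (r * e 1 t)‖ ∂mu ≤ δ := by
  have hf2 := memLp2 hf.1
  have hpar := parseval hf2
  -- the tails
  have htend : Tendsto (fun r : ℝ => ∑' n : ℤ, ‖fourierCoeff f n‖ ^ 2 * (1 - r ^ n.toNat) ^ 2)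
      (𝓝[<] 1) (𝓝 (∑' _n : ℤ, (0 : ℝ))) := by
    apply tendsto_tsum_of_dominated_convergence (bound := fun n : ℤ => ‖fourierCoeff f n‖ ^ 2)
    · exact hpar.summable
    · intro n
      have h1 : Tendsto (fun r : ℝ => ‖fourierCoeff f n‖ ^ 2 * (1 - r ^ n.toNat) ^ 2) (𝓝 1)
          (𝓝 (‖fourierCoeff f n‖ ^ 2 * (1 - 1 ^ n.toNat) ^ 2)) :=
        Continuous.tendsto (by fun_prop) 1
      have h2 := h1.mono_left (nhdsWithin_le_nhds (s := Set.Iio 1))
      simpa using h2
    · have h3 : ∀ᶠ r : ℝ in 𝓝[<] 1, 0 < r := by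
        have : ∀ᶠ r : ℝ in 𝓝 1, 0 < r := lt_mem_nhds (by norm_num)
        exact this.filter_mono nhdsWithin_le_nhds
      filter_upwards [h3, self_mem_nhdsWithin] with r hr0 hr1 n
      have hr1' : r < 1 := hr1
      have h4 : r ^ n.toNat ≤ 1 := pow_le_one₀ hr0.le hr1'.le
      have h5 : 0 < r ^ n.toNat := pow_pos hr0 _
      rw [Real.norm_of_nonneg (by positivity)]
      have h6 : (1 - r ^ n.toNat) ^ 2 ≤ 1 := by nlinarith
      have h7 : 0 ≤ ‖fourierCoeff f n‖ ^ 2 := by positivity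
      nlinarith
  rw [tsum_zero] at htend
  have h3 : ∀ᶠ r : ℝ in 𝓝[<] 1, 0 < r := by
    have : ∀ᶠ r : ℝ in 𝓝 1, 0 < r := lt_mem_nhds (by norm_num)
    exact this.filter_mono nhdsWithin_le_nhds
  have h4 := htend.eventually (gt_mem_nhds (show (0 : ℝ) < δ ^ 2 by positivity))
  obtain ⟨r, ⟨hr0, hrs⟩, hr1⟩ := ((h3.and h4).and self_mem_nhdsWithin).exists
  have hr1' : r < 1 := hr1
  refine ⟨r, hr0.le, hr1', ?_⟩
  have hcont := dilate_cont hf hr0.le hr1'
  have hm2 : MemLp (fun t => ext f (r * e 1 t)) 2 mu := memLp2 (bdd_cont hcont)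
  have hsub : MemLp (fun t => f t - ext f (r * e 1 t)) 2 mu := hf2.sub hm2
  refine L1_le_of_L2 hsub hδ ?_
  have hp := parseval hsub
  have e1 : ∀ n : ℤ, ‖fourierCoeff (fun t => f t - ext f (r * e 1 t)) n‖ ^ 2 =
      ‖fourierCoeff f n‖ ^ 2 * (1 - r ^ n.toNat) ^ 2 := by
    intro n
    have e2 : fourierCoeff (fun t => f t - ext f (r * e 1 t)) n =
        fourierCoeff f n - fourierCoeff (fun t => ext f (r * e 1 t)) n := by
      rw [fc_def, fc_def, fc_def, ← integral_sub]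
      · congr 1; funext t; ring
      · exact memLp_integrable (bdd_mul (bdd_e _) hf.1)
      · exact memLp_integrable (bdd_mul (bdd_e _) (bdd_cont hcont))
    rw [e2, fc_dilate hf hr0.le hr1']
    by_cases hn : 0 ≤ n
    · rw [if_pos hn]
      have : fourierCoeff f n - fourierCoeff f n * (r : ℂ) ^ n.toNat =
          fourierCoeff f n * (((1 - r ^ n.toNat : ℝ)) : ℂ) := by push_cast; ring
      rw [this, norm_mul, mul_pow, Complex.norm_real, Real.norm_eq_abs, sq_abs]
    · rw [if_neg hn, hf.2 n (by omega)]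
      simp
  simp_rw [e1] at hp
  rw [← hp.tsum_eq]
  exact hrs.le


end

end Pool.Agent.Helper34.Dg
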