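import Pool.Agent.Helper34.Dg.Defs

set_option autoImplicit false

open MeasureTheory Filter Topology Complex Metric Set
open scoped ComplexConjugate

namespace Pool.Agent.Helper34.Dg

lemma mem_disc {z : ℂ} : z ∈ disc ↔ ‖z‖ < 1 := by simp [disc]

lemma bden_ne {a z : ℂ} (ha : a ∈ disc) (hz : z ∈ disc) : 1 - conj a * z ≠ 0 := by
  rw [mem_disc] at ha hz
  intro h
  have h1 : conj a * z = 1 := by linear_combination -h
  have h2 : ‖conj a * z‖ = 1 := by rw [h1]; simp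
  rw [norm_mul, RCLike.norm_conj] at h2
  nlinarith [norm_nonneg a, norm_nonneg z]

/-- the non-vanishing factor of the Blaschke factor -/
noncomputable def kfac (a z : ℂ) : ℂ :=
  if a = 0 then 1 else -(((‖a‖ : ℝ) : ℂ) / a) / (1 - conj a * z)

lemma bfac_eq {a : ℂ} (z : ℂ) : bfac a z = (z - a) * kfac a z := by
  unfold bfac kfac
  split_ifs with h
  · rw [h]; ring
  · ring

lemma kfac_ne {a z : ℂ} (ha : a ∈ disc) (hz : z ∈ disc) : kfac a z ≠ 0 := by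
  unfold kfac
  split_ifs with h
  · exact one_ne_zero
  · have h1 : ((‖a‖ : ℝ) : ℂ) ≠ 0 := by
      rw [Complex.ofReal_ne_zero]; exact norm_ne_zero_iff.2 h
    exact div_ne_zero (neg_ne_zero.2 (div_ne_zero h1 h)) (bden_ne ha hz)

lemma kfac_diff {a : ℂ} (ha : a ∈ disc) : DifferentiableOn ℂ (kfac a) disc := by
  unfold kfac
  split_ifs with h
  · exact differentiableOn_const _
  · refine DifferentiableOn.div (differentiableOn_const _) (by fun_prop) fun z hz => bden_ne ha hz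

lemma bfac_diff {a : ℂ} (ha : a ∈ disc) : DifferentiableOn ℂ (bfac a) disc := by
  have : DifferentiableOn ℂ (fun z => (z - a) * kfac a z) disc :=
    DifferentiableOn.mul (by fun_prop) (kfac_diff ha)
  exact this.congr fun z _ => bfac_eq z

lemma bfac_eq_zero {a z : ℂ} (ha : a ∈ disc) (hz : z ∈ disc) : bfac a z = 0 ↔ z = a := by
  rw [bfac_eq, mul_eq_zero, sub_eq_zero]
  constructor
  · rintro (h | h)
    · exact h
    · exact absurd h (kfac_ne ha hz)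
  · exact Or.inl

/-- `1 - |b_a(z)|² = (1 - |a|²)(1 - |z|²) / |1 - conj a z|²` -/
lemma one_sub_bfac {a z : ℂ} (ha : a ∈ disc) (hz : z ∈ disc) :
    (1 - ‖bfac a z‖ ^ 2) * ‖1 - conj a * z‖ ^ 2 = (1 - ‖a‖ ^ 2) * (1 - ‖z‖ ^ 2) := by
  have hd := bden_ne ha hz
  have key : ‖1 - conj a * z‖ ^ 2 - ‖a - z‖ ^ 2 = (1 - ‖a‖ ^ 2) * (1 - ‖z‖ ^ 2) := by
    rw [← Complex.normSq_eq_norm_sq, ← Complex.normSq_eq_norm_sq, ← Complex.normSq_eq_norm_sq,
      ← Complex.normSq_eq_norm_sq]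
    simp only [Complex.normSq_apply, Complex.sub_re, Complex.sub_im, Complex.one_re,
      Complex.one_im, Complex.mul_re, Complex.mul_im, Complex.conj_re, Complex.conj_im]
    ring
  unfold bfac
  split_ifs with h
  · subst h; simp
  · rw [norm_mul, norm_div, norm_div]
    have h1 : ‖((‖a‖ : ℝ) : ℂ)‖ = ‖a‖ := by simp
    rw [h1, div_self (norm_ne_zero_iff.2 h), one_mul, div_pow]
    rw [← key]
    have : ‖1 - conj a * z‖ ^ 2 ≠ 0 := by positivity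
    rw [sub_mul, one_mul, div_mul_cancel₀ _ this]

lemma bden_le {a z : ℂ} (ha : a ∈ disc) (hz : z ∈ disc) : ‖1 - conj a * z‖ ≤ 2 := by
  rw [mem_disc] at ha hz
  calc ‖1 - conj a * z‖ ≤ ‖(1 : ℂ)‖ + ‖conj a * z‖ := norm_sub_le _ _
    _ ≤ 1 + 1 := by
        rw [norm_mul, RCLike.norm_conj, norm_one]
        nlinarith [norm_nonneg a, norm_nonneg z]
    _ = 2 := by norm_num

lemma bden_ge {a z : ℂ} (hz : z ∈ disc) : 1 - ‖a‖ ≤ ‖1 - conj a * z‖ := by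
  rw [mem_disc] at hz
  have h1 : ‖(1 : ℂ)‖ - ‖conj a * z‖ ≤ ‖1 - conj a * z‖ := norm_sub_norm_le _ _
  rw [norm_one, norm_mul, RCLike.norm_conj] at h1
  nlinarith [norm_nonneg a, norm_nonneg z]

lemma bden_ge' {a z : ℂ} (ha : a ∈ disc) : 1 - ‖z‖ ≤ ‖1 - conj a * z‖ := by
  rw [mem_disc] at ha
  have h1 : ‖(1 : ℂ)‖ - ‖conj a * z‖ ≤ ‖1 - conj a * z‖ := norm_sub_norm_le _ _
  rw [norm_one, norm_mul, RCLike.norm_conj] at h1
  nlinarith [norm_nonneg a, norm_nonneg z]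

lemma bfac_le {a z : ℂ} (ha : a ∈ disc) (hz : z ∈ disc) : ‖bfac a z‖ ≤ 1 := by
  have h := one_sub_bfac ha hz
  have hd : 0 < ‖1 - conj a * z‖ := norm_pos_iff.2 (bden_ne ha hz)
  rw [mem_disc] at ha hz
  have h1 : 0 ≤ (1 - ‖a‖ ^ 2) * (1 - ‖z‖ ^ 2) := by
    apply mul_nonneg <;> nlinarith [norm_nonneg a, norm_nonneg z]
  rw [← h] at h1
  have h2 : 0 ≤ 1 - ‖bfac a z‖ ^ 2 := by
    by_contra hc
    push Not at hc
    have : (1 - ‖bfac a z‖ ^ 2) * ‖1 - conj a * z‖ ^ 2 < 0 := mul_neg_of_neg_of_pos hc (by positivity)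
    linarith
  nlinarith [norm_nonneg (bfac a z)]

lemma one_sub_le {a z : ℂ} (ha : a ∈ disc) (hz : z ∈ disc) :
    (1 - ‖a‖) * (1 - ‖z‖) ≤ 4 * (1 - ‖bfac a z‖ ^ 2) := by
  have h := one_sub_bfac ha hz
  have hd := bden_le ha hz
  have hd0 := norm_nonneg (1 - conj a * z)
  have hb := bfac_le ha hz
  have hb0 := norm_nonneg (bfac a z)
  rw [mem_disc] at ha hz
  have h1 : (1 - ‖a‖) * (1 - ‖z‖) ≤ (1 - ‖a‖ ^ 2) * (1 - ‖z‖ ^ 2) := by
    have e1 : 1 - ‖a‖ ≤ 1 - ‖a‖ ^ 2 := by nlinarith [norm_nonneg a]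
    have e2 : 1 - ‖z‖ ≤ 1 - ‖z‖ ^ 2 := by nlinarith [norm_nonneg z]
    apply mul_le_mul e1 e2 (by linarith)
    linarith
  have h2 : 0 ≤ 1 - ‖bfac a z‖ ^ 2 := by nlinarith
  have h3 : ‖1 - conj a * z‖ ^ 2 ≤ 4 := by nlinarith
  nlinarith [mul_le_mul_of_nonneg_left h3 h2]

lemma bfac_sub_one {a z : ℂ} (ha : a ∈ disc) (hz : z ∈ disc) :
    ‖bfac a z - 1‖ * (1 - ‖z‖) ≤ (1 - ‖a‖) * 2 := by
  have hd := bden_ne ha hz
  have hdg := bden_ge' (z := z) ha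
  unfold bfac
  split_ifs with h
  · subst h
    rw [mem_disc] at hz
    have : ‖z - 1‖ ≤ 1 + 1 := (norm_sub_le _ _).trans (by rw [norm_one]; linarith)
    rw [norm_zero]
    nlinarith [norm_nonneg z, norm_nonneg (z - 1)]
  · have hn : ((‖a‖ : ℝ) : ℂ) * ((‖a‖ : ℝ) : ℂ) = a * conj a := by
      rw [Complex.mul_conj, Complex.normSq_eq_norm_sq]; push_cast; ring
    have e1 : ((‖a‖ : ℝ) : ℂ) / a * ((a - z) / (1 - conj a * z)) - 1 =
        -((((1 - ‖a‖ : ℝ) : ℂ)) * ((a + (‖a‖ : ℝ) * z) / a) / (1 - conj a * z)) := by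
      obtain ⟨D, hD⟩ : ∃ D, D = 1 - conj a * z := ⟨_, rfl⟩
      rw [← hD] at hd ⊢
      field_simp
      push_cast
      linear_combination (-z) * hn + (-a) * hD
    rw [e1, norm_neg, norm_div, norm_mul, norm_div, Complex.norm_real]
    rw [mem_disc] at ha hz
    rw [Real.norm_of_nonneg (by linarith)]
    have hd' : 0 < ‖1 - conj a * z‖ := norm_pos_iff.2 hd
    have e2 : ‖a + (‖a‖ : ℝ) * z‖ / ‖a‖ ≤ 2 := by
      rw [div_le_iff₀ (norm_pos_iff.2 h)]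
      calc ‖a + (‖a‖ : ℝ) * z‖ ≤ ‖a‖ + ‖((‖a‖ : ℝ) : ℂ) * z‖ := norm_add_le _ _
        _ = ‖a‖ + ‖a‖ * ‖z‖ := by rw [norm_mul, Complex.norm_real, norm_norm]
        _ ≤ 2 * ‖a‖ := by nlinarith [norm_nonneg a]
    have e3 : 0 ≤ ‖a + (‖a‖ : ℝ) * z‖ / ‖a‖ := by positivity
    rw [div_mul_eq_mul_div, div_le_iff₀ hd']
    have e4 : (1 - ‖a‖) * (‖a + (‖a‖ : ℝ) * z‖ / ‖a‖) ≤ (1 - ‖a‖) * 2 :=
      mul_le_mul_of_nonneg_left e2 (by linarith)
    have e5 : 0 ≤ (1 - ‖a‖) * (‖a + (‖a‖ : ℝ) * z‖ / ‖a‖) := mul_nonneg (by linarith) e3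
    exact mul_le_mul e4 hdg (by linarith) (by linarith)

end Pool.Agent.Helper34.Dg
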