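import Pool.Agent.Helper34.Dg.Core2

set_option autoImplicit false

open MeasureTheory Filter Topology Complex Metric Set
open scoped Interval ComplexConjugate

namespace Pool.Agent.Helper34.Dg

section

variable {b S h k : ℂ → ℂ} {c : ℝ}

/-- `F = b^(2m+1) h k` -/
noncomputable def FF (b h k : ℂ → ℂ) (m : ℕ) (z : ℂ) : ℂ := b z ^ (2 * m + 1) * (h z * k z)

lemma FF_diff (hb : DifferentiableOn ℂ b (ball 0 1)) (hh : DifferentiableOn ℂ h (ball 0 1))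
    (hk : DifferentiableOn ℂ k (ball 0 1)) (m : ℕ) : DifferentiableOn ℂ (FF b h k m) (ball 0 1) :=
  (hb.pow _).mul (hh.mul hk)

lemma FF_deriv (hb : DifferentiableOn ℂ b (ball 0 1)) (hh : DifferentiableOn ℂ h (ball 0 1))
    (hk : DifferentiableOn ℂ k (ball 0 1)) (m : ℕ) {z : ℂ} (hz : z ∈ ball (0 : ℂ) 1) :
    deriv (FF b h k m) z = ((2 * m + 1 : ℕ) : ℂ) * b z ^ (2 * m) * deriv b z * (h z * k z) +
      b z ^ (2 * m + 1) * (deriv h z * k z + h z * deriv k z) := by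
  have h1 := ((hasDeriv hb hz).pow (2 * m + 1)).mul ((hasDeriv hh hz).mul (hasDeriv hk hz))
  have h2 : HasDerivAt (FF b h k m) _ z := h1
  rw [h2.deriv]
  simp only [Nat.add_sub_cancel, Pi.mul_apply, Pi.pow_apply]

lemma point_real {c y β s' b' H K H' K' m : ℝ} (hc : 1 ≤ c) (hm : 0 ≤ m)
    (hy0 : 0 ≤ y) (hy1 : y ≤ 1) (hs : 0 ≤ s') (hb : 0 ≤ b') (hH : 0 ≤ H) (hK : 0 ≤ K)
    (hH' : 0 ≤ H') (hK' : 0 ≤ K') (hβ0 : 0 ≤ β) (hβ1 : β ≤ 1)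
    (ha : y * β ≤ 2 / (m + 1)) :
    27 * y * (s' + b') ^ 2 * c ^ 3 * (β ^ 2 * (H * K)) +
      3 * y ^ 2 * (s' + b') * c ^ 2 * ((2 * m + 1) * β ^ 2 * b' * (H * K) +
        β ^ 2 * (H' * K + H * K')) ≤
      42 * c ^ 3 / (m + 1) * ((s' + b') ^ 2 * H ^ 2 + (s' + b') ^ 2 * K ^ 2 + H' ^ 2 + K' ^ 2) := by
  set E := s' + b' with hE
  have hE0 : 0 ≤ E := by positivity
  have hbE : b' ≤ E := by linarith
  set a := y * β with haa
  have ha0 : 0 ≤ a := by positivity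
  have hc2 : c ^ 2 ≤ c ^ 3 := pow_le_pow_right₀ hc (by norm_num)
  have hc0 : 0 ≤ c ^ 3 := by positivity
  have hm1 : 0 < m + 1 := by linarith
  have u1 : y * β ^ 2 ≤ 2 / (m + 1) := by
    calc y * β ^ 2 = a * β := by rw [haa]; ring
      _ ≤ a * 1 := by gcongr
      _ ≤ _ := by linarith
  have u2 : (2 * m + 1) * a ^ 2 ≤ 8 / (m + 1) := by
    calc (2 * m + 1) * a ^ 2 ≤ (2 * m + 1) * (2 / (m + 1)) ^ 2 := by gcongr
      _ ≤ 8 / (m + 1) := by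
          rw [div_pow, mul_div_assoc', div_le_div_iff₀ (by positivity) hm1]
          nlinarith
  have u3 : y ^ 2 * β ^ 2 ≤ 2 / (m + 1) := by
    calc y ^ 2 * β ^ 2 = y * (y * β ^ 2) := by ring
      _ ≤ 1 * (y * β ^ 2) := by gcongr
      _ ≤ _ := by linarith
  have T1 : 27 * y * E ^ 2 * c ^ 3 * (β ^ 2 * (H * K)) ≤
      27 * c ^ 3 * (2 / (m + 1)) * (E ^ 2 * (H * K)) := by
    have e : 27 * y * E ^ 2 * c ^ 3 * (β ^ 2 * (H * K)) =
      27 * c ^ 3 * (y * β ^ 2) * (E ^ 2 * (H * K)) := by ring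
    rw [e]; gcongr
  have T2 : 3 * y ^ 2 * E * c ^ 2 * ((2 * m + 1) * β ^ 2 * b' * (H * K)) ≤
      3 * c ^ 3 * (8 / (m + 1)) * (E ^ 2 * (H * K)) := by
    have e : 3 * y ^ 2 * E * c ^ 2 * ((2 * m + 1) * β ^ 2 * b' * (H * K)) =
      3 * c ^ 2 * ((2 * m + 1) * a ^ 2) * (E * b' * (H * K)) := by rw [haa]; ring
    rw [e]
    have e2 : E ^ 2 * (H * K) = E * E * (H * K) := by ring
    rw [e2]
    gcongr
  have T3 : 3 * y ^ 2 * E * c ^ 2 * (β ^ 2 * (H' * K + H * K')) ≤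
      3 * c ^ 3 * (2 / (m + 1)) * (E * (H' * K + H * K')) := by
    have e : 3 * y ^ 2 * E * c ^ 2 * (β ^ 2 * (H' * K + H * K')) =
      3 * c ^ 2 * (y ^ 2 * β ^ 2) * (E * (H' * K + H * K')) := by ring
    rw [e]; gcongr
  have q1 : E ^ 2 * (H * K) ≤ (E ^ 2 * H ^ 2 + E ^ 2 * K ^ 2) / 2 := by
    have e := sq_nonneg (E * H - E * K)
    have e' : (E * H - E * K) ^ 2 = E ^ 2 * H ^ 2 - 2 * (E ^ 2 * (H * K)) + E ^ 2 * K ^ 2 := by ring
    linarith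
  have q2 : E * (H' * K) ≤ (H' ^ 2 + E ^ 2 * K ^ 2) / 2 := by
    have e := sq_nonneg (H' - E * K)
    have e' : (H' - E * K) ^ 2 = H' ^ 2 - 2 * (E * (H' * K)) + E ^ 2 * K ^ 2 := by ring
    linarith
  have q3 : E * (H * K') ≤ (E ^ 2 * H ^ 2 + K' ^ 2) / 2 := by
    have e := sq_nonneg (K' - E * H)
    have e' : (K' - E * H) ^ 2 = K' ^ 2 - 2 * (E * (H * K')) + E ^ 2 * H ^ 2 := by ring
    linarith
  set w := c ^ 3 / (m + 1) with hw
  have hw0 : 0 ≤ w := by positivity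
  have f1 : 27 * c ^ 3 * (2 / (m + 1)) = 54 * w := by rw [hw]; ring
  have f2 : 3 * c ^ 3 * (8 / (m + 1)) = 24 * w := by rw [hw]; ring
  have f3 : 3 * c ^ 3 * (2 / (m + 1)) = 6 * w := by rw [hw]; ring
  have f4 : 42 * c ^ 3 / (m + 1) = 42 * w := by rw [hw]; ring
  rw [f1] at T1
  rw [f2] at T2
  rw [f3] at T3
  rw [f4]
  have p1 := mul_le_mul_of_nonneg_left q1 hw0
  have p2 := mul_le_mul_of_nonneg_left q2 hw0
  have p3 := mul_le_mul_of_nonneg_left q3 hw0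
  have g1 : 0 ≤ w * H' ^ 2 := by positivity
  have g2 : 0 ≤ w * K' ^ 2 := by positivity
  have e5 : 3 * y ^ 2 * E * c ^ 2 * ((2 * m + 1) * β ^ 2 * b' * (H * K) +
        β ^ 2 * (H' * K + H * K')) = 3 * y ^ 2 * E * c ^ 2 * ((2 * m + 1) * β ^ 2 * b' * (H * K)) +
        3 * y ^ 2 * E * c ^ 2 * (β ^ 2 * (H' * K + H * K')) := by ring
  rw [e5]
  have r1 : w * (E ^ 2 * (H * K)) ≤ (w * (E ^ 2 * H ^ 2) + w * (E ^ 2 * K ^ 2)) / 2 :=
    p1.trans (le_of_eq (by ring))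
  have r2 : w * (E * (H' * K)) ≤ (w * H' ^ 2 + w * (E ^ 2 * K ^ 2)) / 2 :=
    p2.trans (le_of_eq (by ring))
  have r3 : w * (E * (H * K')) ≤ (w * (E ^ 2 * H ^ 2) + w * K' ^ 2) / 2 :=
    p3.trans (le_of_eq (by ring))
  have r4 : 6 * w * (E * (H' * K + H * K')) = 6 * (w * (E * (H' * K))) +
      6 * (w * (E * (H * K'))) := by ring
  have r5 : 54 * w * (E ^ 2 * (H * K)) = 54 * (w * (E ^ 2 * (H * K))) := by ring
  have r6 : 24 * w * (E ^ 2 * (H * K)) = 24 * (w * (E ^ 2 * (H * K))) := by ring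
  have r7 : 42 * w * (E ^ 2 * H ^ 2 + E ^ 2 * K ^ 2 + H' ^ 2 + K' ^ 2) =
      42 * (w * (E ^ 2 * H ^ 2)) + 42 * (w * (E ^ 2 * K ^ 2)) + 42 * (w * H' ^ 2) +
        42 * (w * K' ^ 2) := by ring
  rw [r5] at T1
  rw [r6] at T2
  rw [r4] at T3
  rw [r7]
  linarith

/-- product rule bound: `|S' h|² ≤ 2|(S h)'|² + 2|h'|²` -/
lemma prod_bound (hS : DifferentiableOn ℂ S (ball 0 1)) (hh : DifferentiableOn ℂ h (ball 0 1))
    {z : ℂ} (hz : z ∈ ball (0 : ℂ) 1) (hS1 : ‖S z‖ ≤ 1) :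
    ‖deriv S z‖ ^ 2 * ‖h z‖ ^ 2 ≤ 2 * ‖deriv (fun w => S w * h w) z‖ ^ 2 +
      2 * ‖deriv h z‖ ^ 2 := by
  have h1 : deriv (fun w => S w * h w) z = deriv S z * h z + S z * deriv h z :=
    ((hasDeriv hS hz).mul (hasDeriv hh hz)).deriv
  have h2 : ‖deriv S z * h z‖ ≤ ‖deriv (fun w => S w * h w) z‖ + ‖deriv h z‖ := by
    have e : deriv S z * h z = deriv (fun w => S w * h w) z - S z * deriv h z := by
      rw [h1]; ring
    rw [e]
    refine (norm_sub_le _ _).trans ?_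
    rw [norm_mul]
    have := mul_le_mul_of_nonneg_right hS1 (norm_nonneg (deriv h z))
    linarith
  rw [norm_mul] at h2
  have h3 : 0 ≤ ‖deriv S z‖ * ‖h z‖ := by positivity
  have h4 : (‖deriv S z‖ * ‖h z‖) ^ 2 ≤
      (‖deriv (fun w => S w * h w) z‖ + ‖deriv h z‖) ^ 2 := by gcongr
  nlinarith [sq_nonneg (‖deriv (fun w => S w * h w) z‖ - ‖deriv h z‖)]

lemma E_bound (hb : DifferentiableOn ℂ b (ball 0 1)) (hS : DifferentiableOn ℂ S (ball 0 1))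
    (hh : DifferentiableOn ℂ h (ball 0 1))
    {z : ℂ} (hz : z ∈ ball (0 : ℂ) 1) (hb1 : ‖b z‖ ≤ 1) (hS1 : ‖S z‖ ≤ 1) :
    (‖deriv S z‖ + ‖deriv b z‖) ^ 2 * ‖h z‖ ^ 2 + ‖deriv h z‖ ^ 2 ≤
      4 * ‖deriv (fun w => S w * h w) z‖ ^ 2 + (4 * ‖deriv (fun w => b w * h w) z‖ ^ 2 +
      9 * ‖deriv h z‖ ^ 2) := by
  have h1 := prod_bound hS hh hz hS1
  have h2 := prod_bound hb hh hz hb1
  have h3 : (‖deriv S z‖ + ‖deriv b z‖) ^ 2 ≤ 2 * ‖deriv S z‖ ^ 2 + 2 * ‖deriv b z‖ ^ 2 := by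
    nlinarith [sq_nonneg (‖deriv S z‖ - ‖deriv b z‖)]
  have h4 := mul_le_mul_of_nonneg_right h3 (sq_nonneg ‖h z‖)
  nlinarith

lemma Av_sq_le (hS : DifferentiableOn ℂ S (ball 0 1)) (hh : DifferentiableOn ℂ h (ball 0 1))
    (hS1 : ∀ z ∈ ball (0 : ℂ) 1, ‖S z‖ ≤ 1) {r : ℝ} (h0 : 0 ≤ r) (h1 : r < 1) :
    Av (fun z => ‖S z * h z‖ ^ 2) r ≤ Av (fun z => ‖h z‖ ^ 2) r := by
  refine Av_mono (φ := fun z => ‖S z * h z‖ ^ 2) (ψ := fun z => ‖h z‖ ^ 2)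
    ((hS.continuousOn.mul hh.continuousOn).norm.pow 2) (hh.continuousOn.norm.pow 2)
    ?_ h0 h1
  intro z hz
  show ‖S z * h z‖ ^ 2 ≤ ‖h z‖ ^ 2
  have h2 := hS1 z hz
  have h3 := norm_nonneg (S z)
  rw [norm_mul, mul_pow]
  have h4 : ‖S z‖ ^ 2 ≤ 1 := by nlinarith
  nlinarith [sq_nonneg ‖h z‖]

/-- bound of the Green functional of the quadratic form attached to `h` -/
lemma J_quad (hb : DifferentiableOn ℂ b (ball 0 1)) (hS : DifferentiableOn ℂ S (ball 0 1))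
    (hh : DifferentiableOn ℂ h (ball 0 1)) (hb1 : ∀ z ∈ ball (0 : ℂ) 1, ‖b z‖ ≤ 1)
    (hS1 : ∀ z ∈ ball (0 : ℂ) 1, ‖S z‖ ≤ 1) {r : ℝ} (h0 : 0 < r) (h1 : r < 1) :
    J r (fun z => (‖deriv S z‖ + ‖deriv b z‖) ^ 2 * ‖h z‖ ^ 2 + ‖deriv h z‖ ^ 2) ≤
      17 * Av (fun z => ‖h z‖ ^ 2) r := by
  have cS := hS.continuousOn
  have cb := hb.continuousOn
  have ch := hh.continuousOn
  have cS' := (deriv_diffOn hS).continuousOn
  have cb' := (deriv_diffOn hb).continuousOn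
  have ch' := (deriv_diffOn hh).continuousOn
  have dSh : DifferentiableOn ℂ (fun w => S w * h w) (ball 0 1) := hS.mul hh
  have dbh : DifferentiableOn ℂ (fun w => b w * h w) (ball 0 1) := hb.mul hh
  have c1 : ContinuousOn (fun z => 4 * ‖deriv (fun w => S w * h w) z‖ ^ 2) (ball 0 1) :=
    continuousOn_const.mul ((deriv_diffOn dSh).continuousOn.norm.pow 2)
  have c2 : ContinuousOn (fun z => 4 * ‖deriv (fun w => b w * h w) z‖ ^ 2) (ball 0 1) :=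
    continuousOn_const.mul ((deriv_diffOn dbh).continuousOn.norm.pow 2)
  have c3 : ContinuousOn (fun z => 9 * ‖deriv h z‖ ^ 2) (ball 0 1) :=
    continuousOn_const.mul (ch'.norm.pow 2)
  have s1 := J_mono (φ := fun z => (‖deriv S z‖ + ‖deriv b z‖) ^ 2 * ‖h z‖ ^ 2 + ‖deriv h z‖ ^ 2)
    (ψ := fun z => 4 * ‖deriv (fun w => S w * h w) z‖ ^ 2 +
      (4 * ‖deriv (fun w => b w * h w) z‖ ^ 2 + 9 * ‖deriv h z‖ ^ 2))
    ((((cS'.norm.add cb'.norm).pow 2).mul (ch.norm.pow 2)).add (ch'.norm.pow 2))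
    (c1.add (c2.add c3)) (fun z hz => E_bound hb hS hh hz (hb1 z hz) (hS1 z hz)) h0.le h1
  refine s1.trans ?_
  have s2 : J r (fun z => 4 * ‖deriv (fun w => S w * h w) z‖ ^ 2 +
      (4 * ‖deriv (fun w => b w * h w) z‖ ^ 2 + 9 * ‖deriv h z‖ ^ 2)) =
      4 * J r (fun z => ‖deriv (fun w => S w * h w) z‖ ^ 2) +
      (4 * J r (fun z => ‖deriv (fun w => b w * h w) z‖ ^ 2) +
        9 * J r (fun z => ‖deriv h z‖ ^ 2)) := by
    rw [← J_mul, ← J_mul, ← J_mul, ← J_add c2 c3 h0.le h1]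
    exact J_add c1 (c2.add c3) h0.le h1
  rw [s2]
  have l1 := (lp_le dSh h0 h1).trans (Av_sq_le hS hh hS1 h0.le h1)
  have l2 := (lp_le dbh h0 h1).trans (Av_sq_le hb hh hb1 h0.le h1)
  have l3 := lp_le hh h0 h1
  linarith

theorem main_est (hb : DifferentiableOn ℂ b (ball 0 1)) (hS : DifferentiableOn ℂ S (ball 0 1))
    (hh : DifferentiableOn ℂ h (ball 0 1)) (hk : DifferentiableOn ℂ k (ball 0 1))
    (hb1 : ∀ z ∈ ball (0 : ℂ) 1, ‖b z‖ ≤ 1)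
    (hS1 : ∀ z ∈ ball (0 : ℂ) 1, ‖S z‖ ≤ 1) (hc0 : 0 < c) (hc1 : c ≤ 1)
    (hc : ∀ z ∈ ball (0 : ℂ) 1, c ≤ ‖S z‖ ^ 2 + (1 - ‖b z‖ ^ 2) ^ 3) (m : ℕ)
    {r : ℝ} (h0 : 0 < r) (h1 : r < 1) :
    ‖Av (fun z => GG b S z * FF b h k m z) r - Av (fun z => GG b S z * FF b h k m z) 0‖ ≤
      714 * (c⁻¹) ^ 3 / (m + 1) * (Av (fun z => ‖h z‖ ^ 2) r + Av (fun z => ‖k z‖ ^ 2) r) := by
  have hD : ∀ z ∈ ball (0 : ℂ) 1, DD b S z ≠ 0 := fun z hz => DD_ne hc0 (hc z hz)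
  have hF := FF_diff hb hh hk m
  have cF := hF.continuousOn
  have cF' := (deriv_diffOn hF).continuousOn
  have hci : 1 ≤ c⁻¹ := (one_le_inv₀ hc0).2 hc1
  have hU : ∀ z ∈ ball (0 : ℂ) 1, HasW (fun z => GG b S z * FF b h k m z)
      (G1 b S z * FF b h k m z + GG b S z * deriv (FF b h k m) z) (G2 b S z * FF b h k m z) z := by
    intro z hz
    exact ((hasW_GG hb hS hD hz).mul (HasW.of_deriv (hasDeriv hF hz))).congr rfl (by simp)
  have hU2 : ∀ z ∈ ball (0 : ℂ) 1, HasW (fun z => G2 b S z * FF b h k m z)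
      (G21 b S z * FF b h k m z + G2 b S z * deriv (FF b h k m) z) (G22 b S z * FF b h k m z) z := by
    intro z hz
    exact ((hasW_G2 hb hS hD hz).mul (HasW.of_deriv (hasDeriv hF hz))).congr rfl (by simp)
  have cG : ContinuousOn (GG b S) (ball 0 1) := fun z hz =>
    (HasFDerivAt.continuousAt (hasW_GG hb hS hD hz)).continuousWithinAt
  have cG2 := cont_G2 hb hS hD
  have cU21 : ContinuousOn (fun z => G21 b S z * FF b h k m z +
      G2 b S z * deriv (FF b h k m) z) (ball 0 1) :=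
    ((cont_G21 hb hS hD).mul cF).add (cG2.mul cF')
  refine (green_le hU hU2 (((cont_G1 hb hS hD).mul cF).add (cG.mul cF')) cU21
    ((cont_G22 hb hS hD).mul cF) h0 h1).trans ?_
  have cS := hS.continuousOn
  have cb := hb.continuousOn
  have ch := hh.continuousOn
  have ck := hk.continuousOn
  have cS' := (deriv_diffOn hS).continuousOn
  have cb' := (deriv_diffOn hb).continuousOn
  have ch' := (deriv_diffOn hh).continuousOn
  have ck' := (deriv_diffOn hk).continuousOn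
  set Qh : ℂ → ℝ := fun z => (‖deriv S z‖ + ‖deriv b z‖) ^ 2 * ‖h z‖ ^ 2 + ‖deriv h z‖ ^ 2 with hQh
  set Qk : ℂ → ℝ := fun z => (‖deriv S z‖ + ‖deriv b z‖) ^ 2 * ‖k z‖ ^ 2 + ‖deriv k z‖ ^ 2 with hQk
  have cQh : ContinuousOn Qh (ball 0 1) :=
    (((cS'.norm.add cb'.norm).pow 2).mul (ch.norm.pow 2)).add (ch'.norm.pow 2)
  have cQk : ContinuousOn Qk (ball 0 1) :=
    (((cS'.norm.add cb'.norm).pow 2).mul (ck.norm.pow 2)).add (ck'.norm.pow 2)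
  have hpt : ∀ z ∈ ball (0 : ℂ) 1, ‖G21 b S z * FF b h k m z + G2 b S z * deriv (FF b h k m) z‖ ≤
      42 * (c⁻¹) ^ 3 / (m + 1) * (Qh z + Qk z) := by
    intro z hz
    have e1 := norm_G2_le (hb1 z hz) (hS1 z hz) hc0 (hc z hz)
    have e2 := norm_G21_le (hb1 z hz) (hS1 z hz) hc0 hc1 (hc z hz)
    have hbz := hb1 z hz
    have hb0 := norm_nonneg (b z)
    have hy0 : 0 ≤ 1 - ‖b z‖ ^ 2 := by nlinarith
    have hy1 : 1 - ‖b z‖ ^ 2 ≤ 1 := by nlinarith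
    have e3 : ‖FF b h k m z‖ ≤ (‖b z‖ ^ m) ^ 2 * (‖h z‖ * ‖k z‖) := by
      rw [FF, norm_mul, norm_mul, norm_pow]
      apply mul_le_mul_of_nonneg_right _ (by positivity)
      rw [← pow_mul]
      exact pow_le_pow_of_le_one hb0 hbz (by omega)
    have e4 : ‖deriv (FF b h k m) z‖ ≤ (2 * m + 1) * (‖b z‖ ^ m) ^ 2 * ‖deriv b z‖ *
        (‖h z‖ * ‖k z‖) + (‖b z‖ ^ m) ^ 2 * (‖deriv h z‖ * ‖k z‖ + ‖h z‖ * ‖deriv k z‖) := by
      rw [FF_deriv hb hh hk m hz]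
      refine (norm_add_le _ _).trans (add_le_add ?_ ?_)
      · rw [norm_mul, norm_mul, norm_mul, norm_mul, norm_pow, Complex.norm_natCast, ← pow_mul,
          mul_comm m 2]
        push_cast
        exact le_rfl
      · rw [norm_mul, norm_pow]
        refine mul_le_mul ?_ ?_ (norm_nonneg _) (by positivity)
        · rw [← pow_mul]
          exact pow_le_pow_of_le_one hb0 hbz (by omega)
        · refine (norm_add_le _ _).trans ?_
          rw [norm_mul, norm_mul]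
    have e5 : (1 - ‖b z‖ ^ 2) * ‖b z‖ ^ m ≤ 2 / (m + 1) := pow_one_sub_le hb0 hbz m
    have key := point_real (c := c⁻¹) (y := 1 - ‖b z‖ ^ 2) (β := ‖b z‖ ^ m) (s' := ‖deriv S z‖)
      (b' := ‖deriv b z‖) (H := ‖h z‖) (K := ‖k z‖) (H' := ‖deriv h z‖) (K' := ‖deriv k z‖)
      (m := m) hci (by positivity) hy0 hy1 (norm_nonneg _) (norm_nonneg _) (norm_nonneg _)
      (norm_nonneg _) (norm_nonneg _) (norm_nonneg _) (by positivity) (pow_le_one₀ hb0 hbz) e5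
    have e6 : ‖G21 b S z * FF b h k m z + G2 b S z * deriv (FF b h k m) z‖ ≤
        27 * (1 - ‖b z‖ ^ 2) * (‖deriv S z‖ + ‖deriv b z‖) ^ 2 * (c⁻¹) ^ 3 *
          ((‖b z‖ ^ m) ^ 2 * (‖h z‖ * ‖k z‖)) +
        3 * (1 - ‖b z‖ ^ 2) ^ 2 * (‖deriv S z‖ + ‖deriv b z‖) * (c⁻¹) ^ 2 *
          ((2 * m + 1) * (‖b z‖ ^ m) ^ 2 * ‖deriv b z‖ * (‖h z‖ * ‖k z‖) +
            (‖b z‖ ^ m) ^ 2 * (‖deriv h z‖ * ‖k z‖ + ‖h z‖ * ‖deriv k z‖)) := by
      refine (norm_add_le _ _).trans (add_le_add ?_ ?_)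
      · rw [norm_mul]
        exact mul_le_mul e2 e3 (norm_nonneg _) ((norm_nonneg _).trans e2)
      · rw [norm_mul]
        exact mul_le_mul e1 e4 (norm_nonneg _) ((norm_nonneg _).trans e1)
    refine e6.trans (key.trans (le_of_eq ?_))
    simp only [hQh, hQk]
    ring
  have s1 := J_mono (ψ := fun z => 42 * (c⁻¹) ^ 3 / (m + 1) * (Qh z + Qk z)) cU21.norm
    (continuousOn_const.mul (cQh.add cQk)) hpt h0.le h1
  refine s1.trans ?_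
  have s2 : J r (fun z => 42 * (c⁻¹) ^ 3 / (m + 1) * (Qh z + Qk z)) =
      42 * (c⁻¹) ^ 3 / (m + 1) * (J r Qh + J r Qk) := by
    rw [J_mul, ← J_add cQh cQk h0.le h1]
  have l1 := J_quad hb hS hh hb1 hS1 h0 h1
  have l2 := J_quad hb hS hk hb1 hS1 h0 h1
  rw [s2]
  have hw : 0 ≤ 42 * (c⁻¹) ^ 3 / ((m : ℝ) + 1) := by positivity
  calc 42 * (c⁻¹) ^ 3 / ((m : ℝ) + 1) * (J r Qh + J r Qk)
      ≤ 42 * (c⁻¹) ^ 3 / ((m : ℝ) + 1) * (17 * Av (fun z => ‖h z‖ ^ 2) r +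
        17 * Av (fun z => ‖k z‖ ^ 2) r) := mul_le_mul_of_nonneg_left (add_le_add l1 l2) hw
    _ = _ := by ring

end

end Pool.Agent.Helper34.Dg
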