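import Pool.Agent.Helper34.Dg.P648
import Pool.Agent.Helper34.Dg.P641
import Pool.Agent.Helper34.Dg.Core3

set_option autoImplicit false

open MeasureTheory Filter Topology Complex Metric Set AddCircle
open scoped Interval ComplexConjugate

namespace Pool.Agent.Helper34.Dg

lemma ae_T {P : T → Prop} (h : ∀ᵐ x : ℝ, P (x : T)) : ∀ᵐ t ∂mu, P t := by
  have h1 : ∀ᵐ x ∂(Measure.comap (Subtype.val : Ioc (0 : ℝ) (0 + 1) → ℝ) volume),
      P (((x : Ioc (0 : ℝ) (0 + 1)) : ℝ) : T) := by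
    rw [ae_iff] at h ⊢
    rw [(MeasurableEmbedding.subtype_coe measurableSet_Ioc).comap_apply]
    refine measure_mono_null ?_ h
    rintro _ ⟨y, hy, rfl⟩
    exact hy
  have h2 := (AddCircle.measurePreserving_equivIoc (1 : ℝ) (a := 0)).quasiMeasurePreserving.ae h1
  rw [P648.mu_eq_vol] at h2
  filter_upwards [h2] with t ht
  rwa [AddCircle.coe_equivIoc] at ht

lemma e1_coe (x : ℝ) : e 1 (x : T) = Complex.exp ((2 * Real.pi * x : ℝ) * I) := by
  rw [e, fourier_coe_apply]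
  congr 1
  push_cast
  ring

lemma int_T {E : Type*} [NormedAddCommGroup E] [NormedSpace ℝ E] (V : ℂ → E) (r : ℝ) :
    ∫ t, V (r * e 1 t) ∂mu = (2 * Real.pi)⁻¹ • Av V r := by
  rw [← P648.mu_eq_vol, ← AddCircle.intervalIntegral_preimage 1 0]
  have h1 : ∀ x : ℝ, V (r * e 1 (x : T)) = V (circleMap 0 r ((2 * Real.pi) * x)) := by
    intro x
    rw [e1_coe]
    simp [circleMap]
  simp_rw [h1]
  rw [intervalIntegral.integral_comp_mul_left (fun x => V (circleMap 0 r x)) (by positivity)]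
  unfold Av
  simp

lemma radial {f : T → ℂ} (hf : f ∈ HInf) :
    ∀ᵐ t ∂mu, Tendsto (fun r : ℝ => ext f ((r : ℂ) * e 1 t)) (𝓝[<] 1) (𝓝 (f t)) := by
  apply ae_T
  have h := P648.fatou hf
  have h2 := Real.volume_preimage_mul_left (a := 2 * Real.pi) (by positivity)
    {θ : ℝ | ¬ Tendsto (fun r : ℝ => ext f ((r : ℂ) * Complex.exp ((θ : ℂ) * Complex.I)))
      (𝓝[<] 1) (𝓝 (f ((θ / (2 * Real.pi) : ℝ) : T)))}
  rw [ae_iff] at h ⊢
  rw [h, mul_zero] at h2
  refine measure_mono_null ?_ h2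
  intro x hx
  simp only [mem_preimage, mem_ofPred_eq] at hx ⊢
  intro hc
  apply hx
  have e1 : 2 * Real.pi * x / (2 * Real.pi) = x := by field_simp
  rw [e1] at hc
  rw [e1_coe]
  exact hc

end Pool.Agent.Helper34.Dg
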