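import Pool.Agent.Helper34.Dg.Lp

set_option autoImplicit false

open MeasureTheory Filter Topology Complex Metric Set
open scoped Interval ComplexConjugate

namespace Pool.Agent.Helper34.Dg

lemma pow_one_sub_le {β : ℝ} (h0 : 0 ≤ β) (h1 : β ≤ 1) (m : ℕ) :
    (1 - β ^ 2) * β ^ m ≤ 2 / (m + 1) := by
  have h2 : ((m : ℝ) + 1) * β ^ m ≤ ∑ j ∈ Finset.range (m + 1), β ^ j := by
    have : ∑ j ∈ Finset.range (m + 1), β ^ m ≤ ∑ j ∈ Finset.range (m + 1), β ^ j := by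
      apply Finset.sum_le_sum
      intro j hj
      exact pow_le_pow_of_le_one h0 h1 (by have := Finset.mem_range.1 hj; omega)
    simpa using this
  have h3 : (∑ j ∈ Finset.range (m + 1), β ^ j) * (1 - β) ≤ 1 := by
    have := geom_sum_mul β (m + 1)
    have h4 : 0 ≤ β ^ (m + 1) := by positivity
    nlinarith
  have h5 : (((m : ℝ) + 1) * β ^ m) * (1 - β) ≤ 1 :=
    (mul_le_mul_of_nonneg_right h2 (by linarith)).trans h3
  rw [le_div_iff₀ (by positivity)]
  have h6 : 0 ≤ (((m : ℝ) + 1) * β ^ m) * (1 - β) := by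
    have : 0 ≤ 1 - β := by linarith
    positivity
  nlinarith

section

variable (b S : ℂ → ℂ)

noncomputable def xx (z : ℂ) : ℂ := 1 - b z * conj (b z)

noncomputable def DD (z : ℂ) : ℂ := S z * conj (S z) + xx b z ^ 3

noncomputable def D1 (z : ℂ) : ℂ :=
  deriv S z * conj (S z) - 3 * xx b z ^ 2 * (deriv b z * conj (b z))

noncomputable def D2 (z : ℂ) : ℂ :=
  S z * conj (deriv S z) - 3 * xx b z ^ 2 * (b z * conj (deriv b z))

noncomputable def NN (z : ℂ) : ℂ :=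
  conj (deriv S z) * xx b z ^ 3 + 3 * conj (S z) * xx b z ^ 2 * (b z * conj (deriv b z))

noncomputable def N1 (z : ℂ) : ℂ :=
  conj (deriv S z) * (3 * xx b z ^ 2 * (-(deriv b z * conj (b z)))) +
    3 * conj (S z) * (2 * xx b z * (-(deriv b z * conj (b z))) * (b z * conj (deriv b z)) +
      xx b z ^ 2 * (deriv b z * conj (deriv b z)))

noncomputable def N2 (z : ℂ) : ℂ :=
  conj (deriv (deriv S) z) * xx b z ^ 3 +
    conj (deriv S z) * (3 * xx b z ^ 2 * (-(b z * conj (deriv b z)))) +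
    3 * conj (deriv S z) * xx b z ^ 2 * (b z * conj (deriv b z)) +
    3 * conj (S z) * (2 * xx b z * (-(b z * conj (deriv b z))) * (b z * conj (deriv b z)) +
      xx b z ^ 2 * (b z * conj (deriv (deriv b) z)))

noncomputable def GG (z : ℂ) : ℂ := conj (S z) * (DD b S z)⁻¹

noncomputable def G1 (z : ℂ) : ℂ := -(conj (S z) * D1 b S z * (DD b S z)⁻¹ ^ 2)

noncomputable def G2 (z : ℂ) : ℂ := NN b S z * (DD b S z)⁻¹ ^ 2

noncomputable def G21 (z : ℂ) : ℂ :=
  N1 b S z * (DD b S z)⁻¹ ^ 2 - 2 * NN b S z * D1 b S z * (DD b S z)⁻¹ ^ 3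

noncomputable def G22 (z : ℂ) : ℂ :=
  N2 b S z * (DD b S z)⁻¹ ^ 2 - 2 * NN b S z * D2 b S z * (DD b S z)⁻¹ ^ 3

end

section

variable {b S : ℂ → ℂ} (hb : DifferentiableOn ℂ b (ball 0 1)) (hS : DifferentiableOn ℂ S (ball 0 1))
  (hD : ∀ z ∈ ball (0 : ℂ) 1, DD b S z ≠ 0)
include hb

lemma hasW_xx {z : ℂ} (hz : z ∈ ball (0 : ℂ) 1) :
    HasW (xx b) (-(deriv b z * conj (b z))) (-(b z * conj (deriv b z))) z := by
  have e1 := HasW.of_deriv (hasDeriv hb hz)
  refine ((HasW.const 1 z).sub (e1.mul e1.conj)).congr (by simp) (by simp)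

lemma hasW_xx2 {z : ℂ} (hz : z ∈ ball (0 : ℂ) 1) :
    HasW (fun w => xx b w ^ 2) (2 * xx b z * (-(deriv b z * conj (b z))))
      (2 * xx b z * (-(b z * conj (deriv b z)))) z := by
  have e1 := (hasW_xx hb hz).mul (hasW_xx hb hz)
  have e2 : (fun w => xx b w ^ 2) = fun w => xx b w * xx b w := by funext w; ring
  rw [e2]
  exact e1.congr (by ring) (by ring)

lemma hasW_xx3 {z : ℂ} (hz : z ∈ ball (0 : ℂ) 1) :
    HasW (fun w => xx b w ^ 3) (3 * xx b z ^ 2 * (-(deriv b z * conj (b z))))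
      (3 * xx b z ^ 2 * (-(b z * conj (deriv b z)))) z := by
  have e1 := (hasW_xx2 hb hz).mul (hasW_xx hb hz)
  have e2 : (fun w => xx b w ^ 3) = fun w => xx b w ^ 2 * xx b w := by funext w; ring
  rw [e2]
  exact e1.congr (by ring) (by ring)

include hS

lemma hasW_DD {z : ℂ} (hz : z ∈ ball (0 : ℂ) 1) :
    HasW (DD b S) (D1 b S z) (D2 b S z) z := by
  have e1 := HasW.of_deriv (hasDeriv hS hz)
  refine ((e1.mul e1.conj).add (hasW_xx3 hb hz)).congr ?_ ?_
  · simp only [D1, map_zero]; ring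
  · simp only [D2]; ring

lemma hasW_NN {z : ℂ} (hz : z ∈ ball (0 : ℂ) 1) :
    HasW (NN b S) (N1 b S z) (N2 b S z) z := by
  have eb := HasW.of_deriv (hasDeriv hb hz)
  have eb' := HasW.of_deriv (hasDeriv (deriv_diffOn hb) hz)
  have eS := HasW.of_deriv (hasDeriv hS hz)
  have eS' := HasW.of_deriv (hasDeriv (deriv_diffOn hS) hz)
  have t1 := eS'.conj.mul (hasW_xx3 hb hz)
  have t2 := (((HasW.const 3 z).mul eS.conj).mul (hasW_xx2 hb hz)).mul (eb.mul eb'.conj)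
  refine (t1.add t2).congr ?_ ?_
  · simp only [N1, map_zero]; ring
  · simp only [N2]; ring

include hD

lemma hasW_inv {z : ℂ} (hz : z ∈ ball (0 : ℂ) 1) :
    HasW (fun w => (DD b S w)⁻¹) (-(D1 b S z * (DD b S z)⁻¹ ^ 2))
      (-(D2 b S z * (DD b S z)⁻¹ ^ 2)) z := by
  refine ((hasW_DD hb hS hz).inv (hD z hz)).congr ?_ ?_
  · rw [neg_div, div_eq_mul_inv, inv_pow]
  · rw [neg_div, div_eq_mul_inv, inv_pow]

lemma hasW_GG {z : ℂ} (hz : z ∈ ball (0 : ℂ) 1) :
    HasW (GG b S) (G1 b S z) (G2 b S z) z := by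
  have eS := HasW.of_deriv (hasDeriv hS hz)
  have h0 := hD z hz
  refine (eS.conj.mul (hasW_inv hb hS hD hz)).congr ?_ ?_
  · simp only [G1, map_zero]; ring
  · have e1 : (DD b S z)⁻¹ = DD b S z * (DD b S z)⁻¹ ^ 2 := by field_simp
    have e2 : conj (deriv S z) * (DD b S z)⁻¹ =
        conj (deriv S z) * (DD b S z * (DD b S z)⁻¹ ^ 2) := by rw [← e1]
    rw [e2]
    simp only [G2, NN, D2, DD]
    ring

lemma hasW_G2 {z : ℂ} (hz : z ∈ ball (0 : ℂ) 1) :
    HasW (G2 b S) (G21 b S z) (G22 b S z) z := by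
  have hi := hasW_inv hb hS hD hz
  have h2 := hi.mul hi
  have e2 : G2 b S = fun w => NN b S w * ((DD b S w)⁻¹ * (DD b S w)⁻¹) := by
    funext w; simp only [G2]; ring
  rw [e2]
  refine ((hasW_NN hb hS hz).mul h2).congr ?_ ?_
  · simp only [G21]; ring
  · simp only [G22]; ring

end

end Pool.Agent.Helper34.Dg
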