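import Pool.Agent.Helper34.Dg.Core

set_option autoImplicit false

open MeasureTheory Filter Topology Complex Metric Set
open scoped Interval ComplexConjugate

namespace Pool.Agent.Helper34.Dg

section cont

variable {b S : ℂ → ℂ} (hb : DifferentiableOn ℂ b (ball 0 1)) (hS : DifferentiableOn ℂ S (ball 0 1))
  (hD : ∀ z ∈ ball (0 : ℂ) 1, DD b S z ≠ 0)
include hb

lemma cont_xx : ContinuousOn (xx b) (ball 0 1) := fun _ hz =>
  (HasFDerivAt.continuousAt (hasW_xx hb hz)).continuousWithinAt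

include hS

lemma cont_NN : ContinuousOn (NN b S) (ball 0 1) := fun _ hz =>
  (HasFDerivAt.continuousAt (hasW_NN hb hS hz)).continuousWithinAt

lemma cont_D1 : ContinuousOn (D1 b S) (ball 0 1) := by
  have c1 := hb.continuousOn
  have c2 := (deriv_diffOn hb).continuousOn
  have c3 := hS.continuousOn
  have c4 := (deriv_diffOn hS).continuousOn
  have c5 := cont_xx hb
  have k1 := Complex.continuous_conj.comp_continuousOn c1
  have k3 := Complex.continuous_conj.comp_continuousOn c3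
  exact (c4.mul k3).sub ((continuousOn_const.mul (c5.pow 2)).mul (c2.mul k1))

lemma cont_D2 : ContinuousOn (D2 b S) (ball 0 1) := by
  have c1 := hb.continuousOn
  have c2 := (deriv_diffOn hb).continuousOn
  have c3 := hS.continuousOn
  have c4 := (deriv_diffOn hS).continuousOn
  have c5 := cont_xx hb
  have k2 := Complex.continuous_conj.comp_continuousOn c2
  have k4 := Complex.continuous_conj.comp_continuousOn c4
  exact (c3.mul k4).sub ((continuousOn_const.mul (c5.pow 2)).mul (c1.mul k2))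

lemma cont_N1 : ContinuousOn (N1 b S) (ball 0 1) := by
  have c1 := hb.continuousOn
  have c2 := (deriv_diffOn hb).continuousOn
  have c3 := hS.continuousOn
  have c4 := (deriv_diffOn hS).continuousOn
  have c5 := cont_xx hb
  have k1 := Complex.continuous_conj.comp_continuousOn c1
  have k2 := Complex.continuous_conj.comp_continuousOn c2
  have k3 := Complex.continuous_conj.comp_continuousOn c3
  have k4 := Complex.continuous_conj.comp_continuousOn c4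
  exact (k4.mul ((continuousOn_const.mul (c5.pow 2)).mul (c2.mul k1).neg)).add
    ((continuousOn_const.mul k3).mul ((((continuousOn_const.mul c5).mul (c2.mul k1).neg).mul
      (c1.mul k2)).add ((c5.pow 2).mul (c2.mul k2))))

lemma cont_N2 : ContinuousOn (N2 b S) (ball 0 1) := by
  have c1 := hb.continuousOn
  have c2 := (deriv_diffOn hb).continuousOn
  have c2' := (deriv_diffOn (deriv_diffOn hb)).continuousOn
  have c3 := hS.continuousOn
  have c4 := (deriv_diffOn hS).continuousOn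
  have c4' := (deriv_diffOn (deriv_diffOn hS)).continuousOn
  have c5 := cont_xx hb
  have k1 := Complex.continuous_conj.comp_continuousOn c1
  have k2 := Complex.continuous_conj.comp_continuousOn c2
  have k2' := Complex.continuous_conj.comp_continuousOn c2'
  have k3 := Complex.continuous_conj.comp_continuousOn c3
  have k4 := Complex.continuous_conj.comp_continuousOn c4
  have k4' := Complex.continuous_conj.comp_continuousOn c4'
  exact (((k4'.mul (c5.pow 3)).add (k4.mul ((continuousOn_const.mul (c5.pow 2)).mul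
    (c1.mul k2).neg))).add (((continuousOn_const.mul k4).mul (c5.pow 2)).mul (c1.mul k2))).add
    ((continuousOn_const.mul k3).mul ((((continuousOn_const.mul c5).mul (c1.mul k2).neg).mul
      (c1.mul k2)).add ((c5.pow 2).mul (c1.mul k2'))))

include hD

lemma cont_inv : ContinuousOn (fun w => (DD b S w)⁻¹) (ball 0 1) := fun _ hz =>
  (HasFDerivAt.continuousAt (hasW_inv hb hS hD hz)).continuousWithinAt

lemma cont_G1 : ContinuousOn (G1 b S) (ball 0 1) :=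
  (((Complex.continuous_conj.comp_continuousOn hS.continuousOn).mul (cont_D1 hb hS)).mul
    ((cont_inv hb hS hD).pow 2)).neg

lemma cont_G2 : ContinuousOn (G2 b S) (ball 0 1) :=
  (cont_NN hb hS).mul ((cont_inv hb hS hD).pow 2)

lemma cont_G21 : ContinuousOn (G21 b S) (ball 0 1) :=
  ((cont_N1 hb hS).mul ((cont_inv hb hS hD).pow 2)).sub
    (((continuousOn_const.mul (cont_NN hb hS)).mul (cont_D1 hb hS)).mul
      ((cont_inv hb hS hD).pow 3))

lemma cont_G22 : ContinuousOn (G22 b S) (ball 0 1) :=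
  ((cont_N2 hb hS).mul ((cont_inv hb hS hD).pow 2)).sub
    (((continuousOn_const.mul (cont_NN hb hS)).mul (cont_D2 hb hS)).mul
      ((cont_inv hb hS hD).pow 3))

end cont

section bounds

variable {b S : ℂ → ℂ} {c : ℝ}

lemma norm_xx {z : ℂ} (hb1 : ‖b z‖ ≤ 1) : ‖xx b z‖ = 1 - ‖b z‖ ^ 2 := by
  have e : xx b z = ((1 - ‖b z‖ ^ 2 : ℝ) : ℂ) := by
    rw [xx, Complex.mul_conj, Complex.normSq_eq_norm_sq]
    push_cast; ring
  rw [e, Complex.norm_real, Real.norm_of_nonneg]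
  have := norm_nonneg (b z)
  nlinarith

lemma DD_real (z : ℂ) : DD b S z = ((‖S z‖ ^ 2 + (1 - ‖b z‖ ^ 2) ^ 3 : ℝ) : ℂ) := by
  rw [DD, xx, Complex.mul_conj, Complex.normSq_eq_norm_sq, Complex.mul_conj,
    Complex.normSq_eq_norm_sq]
  push_cast; ring

lemma norm_inv_le {z : ℂ} (hc0 : 0 < c) (hc : c ≤ ‖S z‖ ^ 2 + (1 - ‖b z‖ ^ 2) ^ 3) :
    ‖(DD b S z)⁻¹‖ ≤ c⁻¹ := by
  rw [DD_real, norm_inv, Complex.norm_real, Real.norm_of_nonneg (by linarith)]
  exact inv_anti₀ hc0 hc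

lemma DD_ne {z : ℂ} (hc0 : 0 < c) (hc : c ≤ ‖S z‖ ^ 2 + (1 - ‖b z‖ ^ 2) ^ 3) :
    DD b S z ≠ 0 := by
  rw [DD_real]
  have : ‖S z‖ ^ 2 + (1 - ‖b z‖ ^ 2) ^ 3 ≠ 0 := by linarith
  exact_mod_cast this

lemma norm_G2_le {z : ℂ} (hb1 : ‖b z‖ ≤ 1) (hS1 : ‖S z‖ ≤ 1) (hc0 : 0 < c)
    (hc : c ≤ ‖S z‖ ^ 2 + (1 - ‖b z‖ ^ 2) ^ 3) :
    ‖G2 b S z‖ ≤ 3 * (1 - ‖b z‖ ^ 2) ^ 2 * (‖deriv S z‖ + ‖deriv b z‖) * (c⁻¹) ^ 2 := by
  have hi := norm_inv_le hc0 hc
  have hx := norm_xx (b := b) hb1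
  have hy0 : 0 ≤ 1 - ‖b z‖ ^ 2 := by rw [← hx]; exact norm_nonneg _
  have hy1 : 1 - ‖b z‖ ^ 2 ≤ 1 := by nlinarith [norm_nonneg (b z)]
  rw [G2, norm_mul, norm_pow]
  have hN : ‖NN b S z‖ ≤ 3 * (1 - ‖b z‖ ^ 2) ^ 2 * (‖deriv S z‖ + ‖deriv b z‖) := by
    rw [NN]
    refine (norm_add_le _ _).trans ?_
    simp only [norm_mul, norm_pow, RCLike.norm_conj, hx]
    have h3 : ‖(3 : ℂ)‖ = 3 := by simp
    rw [h3]
    set y := 1 - ‖b z‖ ^ 2
    set β := ‖b z‖
    set s := ‖S z‖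
    set p := ‖deriv S z‖
    set q := ‖deriv b z‖
    have hp : 0 ≤ p := norm_nonneg _
    have hq : 0 ≤ q := norm_nonneg _
    have hs : 0 ≤ s := norm_nonneg _
    have hβ : 0 ≤ β := norm_nonneg _
    have t1 : p * y ^ 3 ≤ 3 * y ^ 2 * p := by
      have : y ^ 3 ≤ 3 * y ^ 2 := by nlinarith [mul_nonneg hy0 hy0, sq_nonneg y]
      nlinarith
    have t2 : 3 * s * y ^ 2 * (β * q) ≤ 3 * y ^ 2 * q := by
      have e1 : s * (β * q) ≤ 1 * (1 * q) := by gcongr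
      have e2 : 3 * s * y ^ 2 * (β * q) = 3 * y ^ 2 * (s * (β * q)) := by ring
      rw [e2]
      have : 0 ≤ 3 * y ^ 2 := by positivity
      nlinarith
    linarith
  gcongr

lemma norm_G21_le {z : ℂ} (hb1 : ‖b z‖ ≤ 1) (hS1 : ‖S z‖ ≤ 1) (hc0 : 0 < c) (hc1 : c ≤ 1)
    (hc : c ≤ ‖S z‖ ^ 2 + (1 - ‖b z‖ ^ 2) ^ 3) :
    ‖G21 b S z‖ ≤ 27 * (1 - ‖b z‖ ^ 2) * (‖deriv S z‖ + ‖deriv b z‖) ^ 2 * (c⁻¹) ^ 3 := by
  have hi := norm_inv_le hc0 hc
  have hx := norm_xx (b := b) hb1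
  have hy0 : 0 ≤ 1 - ‖b z‖ ^ 2 := by rw [← hx]; exact norm_nonneg _
  have hy1 : 1 - ‖b z‖ ^ 2 ≤ 1 := by nlinarith [norm_nonneg (b z)]
  have hN : ‖NN b S z‖ ≤ 3 * (1 - ‖b z‖ ^ 2) * (‖deriv S z‖ + ‖deriv b z‖) := by
    rw [NN]
    refine (norm_add_le _ _).trans ?_
    simp only [norm_mul, norm_pow, RCLike.norm_conj, hx]
    have h3 : ‖(3 : ℂ)‖ = 3 := by simp
    rw [h3]
    set y := 1 - ‖b z‖ ^ 2
    set β := ‖b z‖
    set s := ‖S z‖
    set p := ‖deriv S z‖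
    set q := ‖deriv b z‖
    have hp : 0 ≤ p := norm_nonneg _
    have hq : 0 ≤ q := norm_nonneg _
    have hs : 0 ≤ s := norm_nonneg _
    have hβ : 0 ≤ β := norm_nonneg _
    have hy2 : y ^ 2 ≤ y := by nlinarith
    have hy3 : y ^ 3 ≤ y := by nlinarith [mul_nonneg hy0 hy0]
    have t1 : p * y ^ 3 ≤ 3 * y * p := by nlinarith
    have t2 : 3 * s * y ^ 2 * (β * q) ≤ 3 * y * q := by
      have e1 : s * (β * q) ≤ 1 * (1 * q) := by gcongr
      have e2 : 3 * s * y ^ 2 * (β * q) = 3 * y ^ 2 * (s * (β * q)) := by ring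
      rw [e2]
      have : 3 * y ^ 2 * (s * (β * q)) ≤ 3 * y ^ 2 * (1 * (1 * q)) := by gcongr
      nlinarith
    linarith
  have hD1 : ‖D1 b S z‖ ≤ 3 * (‖deriv S z‖ + ‖deriv b z‖) := by
    rw [D1]
    refine (norm_sub_le _ _).trans ?_
    simp only [norm_mul, norm_pow, RCLike.norm_conj, hx]
    have h3 : ‖(3 : ℂ)‖ = 3 := by simp
    rw [h3]
    set y := 1 - ‖b z‖ ^ 2
    set β := ‖b z‖
    set s := ‖S z‖
    set p := ‖deriv S z‖
    set q := ‖deriv b z‖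
    have hp : 0 ≤ p := norm_nonneg _
    have hq : 0 ≤ q := norm_nonneg _
    have hs : 0 ≤ s := norm_nonneg _
    have hβ : 0 ≤ β := norm_nonneg _
    have hy2 : y ^ 2 ≤ 1 := by nlinarith
    have t1 : p * s ≤ p := by nlinarith
    have t2 : 3 * y ^ 2 * (q * β) ≤ 3 * q := by
      have e1 : y ^ 2 * (q * β) ≤ 1 * (q * 1) := by gcongr
      linarith
    linarith
  have hN1 : ‖N1 b S z‖ ≤ 9 * (1 - ‖b z‖ ^ 2) * (‖deriv S z‖ + ‖deriv b z‖) ^ 2 := by
    rw [N1]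
    refine (norm_add_le _ _).trans ?_
    have h3 : ‖(3 : ℂ)‖ = 3 := by simp
    have h2 : ‖(2 : ℂ)‖ = 2 := by simp
    have e3 : ‖3 * conj (S z) * (2 * xx b z * (-(deriv b z * conj (b z))) *
        (b z * conj (deriv b z)) + xx b z ^ 2 * (deriv b z * conj (deriv b z)))‖ ≤
        3 * ‖S z‖ * (2 * (1 - ‖b z‖ ^ 2) * (‖deriv b z‖ * ‖b z‖) * (‖b z‖ * ‖deriv b z‖) +
          (1 - ‖b z‖ ^ 2) ^ 2 * (‖deriv b z‖ * ‖deriv b z‖)) := by
      rw [norm_mul, norm_mul, RCLike.norm_conj, h3]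
      apply mul_le_mul_of_nonneg_left _ (by positivity)
      refine (norm_add_le _ _).trans ?_
      simp only [norm_mul, norm_pow, norm_neg, RCLike.norm_conj, hx, h2]
      exact le_rfl
    have e4 : ‖conj (deriv S z) * (3 * xx b z ^ 2 * (-(deriv b z * conj (b z))))‖ =
        ‖deriv S z‖ * (3 * (1 - ‖b z‖ ^ 2) ^ 2 * (‖deriv b z‖ * ‖b z‖)) := by
      simp only [norm_mul, norm_pow, norm_neg, RCLike.norm_conj, hx, h3]
    rw [e4]
    refine (add_le_add le_rfl e3).trans ?_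
    set y := 1 - ‖b z‖ ^ 2
    set β := ‖b z‖
    set s := ‖S z‖
    set p := ‖deriv S z‖
    set q := ‖deriv b z‖
    have hp : 0 ≤ p := norm_nonneg _
    have hq : 0 ≤ q := norm_nonneg _
    have hs : 0 ≤ s := norm_nonneg _
    have hβ : 0 ≤ β := norm_nonneg _
    have hy2 : y ^ 2 ≤ y := by nlinarith
    have t1 : p * (3 * y ^ 2 * (q * β)) ≤ p * (3 * y * (q * 1)) := by gcongr
    have t2 : 3 * s * (2 * y * (q * β) * (β * q) + y ^ 2 * (q * q)) ≤
        3 * 1 * (2 * y * (q * 1) * (1 * q) + y * (q * q)) := by gcongr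
    have t3 : 0 ≤ y * (p * q) := by positivity
    have t4 : 0 ≤ y * (p * p) := by positivity
    nlinarith
  rw [G21]
  refine (norm_sub_le _ _).trans ?_
  simp only [norm_mul, norm_pow]
  have h2 : ‖(2 : ℂ)‖ = 2 := by simp
  rw [h2]
  set y := 1 - ‖b z‖ ^ 2
  set E := ‖deriv S z‖ + ‖deriv b z‖ with hE
  have hE0 : 0 ≤ E := by positivity
  have hci : 1 ≤ c⁻¹ := (one_le_inv₀ hc0).2 hc1
  have hci0 : 0 ≤ c⁻¹ := by positivity
  have t1 : ‖N1 b S z‖ * ‖(DD b S z)⁻¹‖ ^ 2 ≤ 9 * y * E ^ 2 * (c⁻¹) ^ 3 := by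
    calc ‖N1 b S z‖ * ‖(DD b S z)⁻¹‖ ^ 2 ≤ (9 * y * E ^ 2) * (c⁻¹) ^ 2 := by gcongr
      _ ≤ (9 * y * E ^ 2) * (c⁻¹) ^ 3 := by
          apply mul_le_mul_of_nonneg_left _ (by positivity)
          exact pow_le_pow_right₀ hci (by norm_num)
  have t2 : 2 * ‖NN b S z‖ * ‖D1 b S z‖ * ‖(DD b S z)⁻¹‖ ^ 3 ≤
      2 * (3 * y * E) * (3 * E) * (c⁻¹) ^ 3 := by gcongr
  have t3 : 2 * (3 * y * E) * (3 * E) * (c⁻¹) ^ 3 = 18 * y * E ^ 2 * (c⁻¹) ^ 3 := by ring
  linarith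

end bounds

end Pool.Agent.Helper34.Dg
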