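import Pool.Agent.Helper34.Dg.Alg

set_option autoImplicit false

open MeasureTheory Filter Topology Complex Metric Set AddCircle
open scoped Interval ComplexConjugate ENNReal

namespace Pool.Agent.Helper34.Dg

lemma pker_eq (z : ℂ) (t : T) : pker z t = pk z t := by
  have h1 : e 1 t * e (-1) t = 1 := e_mul_neg t
  have h2 : ‖1 - z * e (-1) t‖ = ‖pt t - z‖ := by
    have : 1 - z * e (-1) t = (pt t - z) * e (-1) t := by
      rw [pt_eq, sub_mul, h1]
    rw [this, norm_mul, e_norm, mul_one]
  rw [pker, pk, ck, norm_inv, h2, div_eq_mul_inv, inv_pow]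

lemma pker_cont {z : ℂ} (hz : z ∈ disc) : Continuous (pker z) := by
  have : pker z = pk z := by funext t; exact pker_eq z t
  rw [this]
  exact pk_cont (by simpa using hz)

lemma pker_zero (t : T) : pker 0 t = 1 := by
  rw [pker, pt_eq, sub_zero, e_norm]; norm_num

/-- Poisson's formula for a function holomorphic on the disc, on smaller circles -/
lemma poisson {F : ℂ → ℂ} (hF : DifferentiableOn ℂ F (ball 0 1)) {r : ℝ} (hr0 : 0 < r)
    (hr1 : r < 1) {z : ℂ} (hz : z ∈ disc) :
    (F (r * z)).re = ∫ t, (F (r * e 1 t)).re * pker z t ∂mu := by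
  have hz1 : ‖z‖ < 1 := by simpa using hz
  have hmaps : ∀ w : ℂ, ‖w‖ ≤ 1 → (r : ℂ) * w ∈ closedBall (0 : ℂ) r := by
    intro w hw
    rw [mem_closedBall_zero_iff, norm_mul, Complex.norm_real, Real.norm_of_nonneg hr0.le]
    nlinarith
  have hG : BddHol (fun w => F (r * w)) := by
    constructor
    · refine hF.comp (by fun_prop) fun w hw => ?_
      have hw1 : ‖w‖ ≤ 1 := by
        have : ‖w‖ < 1 := by simpa using hw
        exact this.le
      exact closedBall_subset_ball hr1 (hmaps w hw1)
    · obtain ⟨C, hC⟩ := (isCompact_closedBall (0 : ℂ) r).exists_bound_of_continuousOn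
        (hF.continuousOn.mono (closedBall_subset_ball hr1))
      exact ⟨C, fun w hw => hC _ (hmaps w (by have : ‖w‖ < 1 := by simpa using hw
                                              exact this.le))⟩
  obtain ⟨g, hg, hge, hgb⟩ := bh_rep hG
  have hgt : ∀ᵐ t ∂mu, g t = F (r * e 1 t) := by
    filter_upwards [hgb] with t t1
    have hc : ContinuousAt F (r * e 1 t) :=
      (hF.differentiableAt (isOpen_ball.mem_nhds (re1_mem hr0.le hr1 t))).continuousAt
    have h2 : Tendsto (fun ρ : ℝ => F (r * ((ρ : ℂ) * pt t))) (𝓝[<] 1) (𝓝 (F (r * e 1 t))) := by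
      have h3 : Tendsto (fun ρ : ℝ => (r : ℂ) * ((ρ : ℂ) * pt t)) (𝓝[<] 1) (𝓝 (r * e 1 t)) := by
        have := (ofReal_tendsto.mul_const (pt t)).const_mul (r : ℂ)
        rw [one_mul] at this
        exact this
      exact hc.tendsto.comp h3
    exact tendsto_nhds_unique t1 h2
  have h1 := int_pk_HInf hg hz1
  rw [hge z hz] at h1
  rw [← h1]
  have hint : Integrable (fun t => g t * (pk z t : ℂ)) mu :=
    memLp_integrable (bdd_mul hg.1 (bdd_cont (Complex.continuous_ofReal.comp (pk_cont hz1))))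
  have h3 : (∫ t, g t * (pk z t : ℂ) ∂mu).re = ∫ t, (g t * (pk z t : ℂ)).re ∂mu :=
    (integral_re hint).symm
  rw [h3]
  apply integral_congr_ae
  filter_upwards [hgt] with t t1
  rw [Complex.re_mul_ofReal, t1, pker_eq]

/-- positive harmonic functions are controlled by covers -/
theorem cover_bound {F : ℂ → ℂ} (hF : DifferentiableOn ℂ F (ball 0 1))
    (hF0 : ∀ z ∈ disc, 0 ≤ (F z).re) {E : Set ℂ} (hE : E ⊆ disc) {M κ : ℝ} (hκ0 : 0 ≤ κ)
    (hκ : ∀ z ∈ E, (F z).re ≤ κ) (hcov : Covers E M) : (F 0).re ≤ M * κ := by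
  obtain ⟨s, w, hzw, hwM, hcv⟩ := hcov
  have hzd : ∀ z ∈ s, z ∈ disc := fun z hz => hE (hzw z hz).1
  have h0d : (0 : ℂ) ∈ disc := by simp
  have hr : ∀ r ∈ Ioo (0 : ℝ) 1, (F 0).re ≤ ∑ z ∈ s, w z * (F (r * z)).re := by
    intro r hr
    have e0 : (F 0).re = ∫ t, (F (r * e 1 t)).re ∂mu := by
      have := poisson hF hr.1 hr.2 h0d
      rw [mul_zero] at this
      rw [this]
      congr 1
      funext t
      rw [pker_zero, mul_one]
    have hcF : Continuous fun t : T => (F (r * e 1 t)).re :=
      Complex.continuous_re.comp (hF.continuousOn.comp_continuous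
        (continuous_const.mul (e_cont 1)) (re1_mem hr.1.le hr.2))
    have e1 : ∑ z ∈ s, w z * (F (r * z)).re =
        ∫ t, (F (r * e 1 t)).re * ∑ z ∈ s, w z * pker z t ∂mu := by
      have e2 : ∀ z ∈ s, w z * (F (r * z)).re =
          ∫ t, (F (r * e 1 t)).re * (w z * pker z t) ∂mu := by
        intro z hz
        rw [poisson hF hr.1 hr.2 (hzd z hz), ← integral_const_mul]
        congr 1
        funext t
        ring
      rw [Finset.sum_congr rfl e2]
      simp_rw [Finset.mul_sum]
      rw [integral_finsetSum]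
      intro z hz
      exact cont_intR (hcF.mul (continuous_const.mul (pker_cont (hzd z hz))))
    rw [e0, e1]
    apply integral_mono (cont_intR hcF)
    · exact cont_intR (hcF.mul (continuous_finsetSum _ fun z hz =>
        continuous_const.mul (pker_cont (hzd z hz))))
    · intro t
      have h1 := hF0 _ (re1_mem hr.1.le hr.2 t)
      have h2 := hcv t
      simp only
      nlinarith
  have hlim : Tendsto (fun r : ℝ => ∑ z ∈ s, w z * (F (r * z)).re) (𝓝[<] 1)
      (𝓝 (∑ z ∈ s, w z * (F z).re)) := by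
    apply tendsto_finsetSum
    intro z hz
    have hc : ContinuousAt F z :=
      (hF.differentiableAt (isOpen_ball.mem_nhds (hzd z hz))).continuousAt
    have h3 : Tendsto (fun ρ : ℝ => (ρ : ℂ) * z) (𝓝[<] 1) (𝓝 z) := by
      have := ofReal_tendsto.mul_const z
      rw [one_mul] at this
      exact this
    exact ((Complex.continuous_re.tendsto _).comp (hc.tendsto.comp h3)).const_mul (w z)
  have h4 : (F 0).re ≤ ∑ z ∈ s, w z * (F z).re :=
    ge_of_tendsto hlim (by filter_upwards [Ioo_mem_left] with r h; exact hr r h)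
  calc (F 0).re ≤ ∑ z ∈ s, w z * (F z).re := h4
    _ ≤ ∑ z ∈ s, w z * κ := Finset.sum_le_sum fun z hz =>
        mul_le_mul_of_nonneg_left (hκ _ (hzw z hz).1) (hzw z hz).2
    _ = (∑ z ∈ s, w z) * κ := by rw [Finset.sum_mul]
    _ ≤ M * κ := mul_le_mul_of_nonneg_right hwM hκ0

end Pool.Agent.Helper34.Dg
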