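import Pool.Agent.Helper34.Dg.Cover

set_option autoImplicit false

open MeasureTheory Filter Topology Complex Metric Set AddCircle
open scoped Interval ComplexConjugate ENNReal

namespace Pool.Agent.Helper34.Dg

/-- real part of a continuous function -/
noncomputable def reM (f : C(T, ℂ)) : C(T, ℝ) := ⟨fun t => (f t).re, by fun_prop⟩
noncomputable def imM (f : C(T, ℂ)) : C(T, ℝ) := ⟨fun t => (f t).im, by fun_prop⟩

section

variable (g : C(T, ℝ) →ₗ[ℝ] ℝ) (hg : ∀ f : C(T, ℝ), (∀ t, f t ≤ 0) → g f ≤ 0)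

include hg in
lemma g_bound (f : C(T, ℝ)) : |g f| ≤ g 1 * ‖f‖ := by
  have h1 : ∀ f : C(T, ℝ), g f ≤ g 1 * ‖f‖ := by
    intro f
    have h2 := hg (f - ‖f‖ • (1 : C(T, ℝ))) (fun t => by
      have := (le_abs_self _).trans (f.norm_coe_le_norm t)
      simp only [ContinuousMap.sub_apply, ContinuousMap.smul_apply, ContinuousMap.one_apply,
        smul_eq_mul, mul_one]
      linarith)
    rw [map_sub, map_smul, smul_eq_mul] at h2
    linarith
  have h3 := h1 (-f)
  rw [map_neg, norm_neg] at h3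
  exact abs_le.2 ⟨by linarith, h1 f⟩

/-- complexification -/
noncomputable def gC : C(T, ℂ) →ₗ[ℂ] ℂ where
  toFun f := (g (reM f) : ℂ) + I * (g (imM f) : ℂ)
  map_add' f k := by
    have e1 : reM (f + k) = reM f + reM k := by ext t; simp [reM]
    have e2 : imM (f + k) = imM f + imM k := by ext t; simp [imM]
    rw [e1, e2, map_add, map_add]
    push_cast; ring
  map_smul' c f := by
    have e1 : reM (c • f) = c.re • reM f - c.im • imM f := by ext t; simp [reM, imM]
    have e2 : imM (c • f) = c.re • imM f + c.im • reM f := by ext t; simp [reM, imM]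
    rw [e1, e2, map_sub, map_add, map_smul, map_smul, map_smul, map_smul]
    simp only [smul_eq_mul, RingHom.id_apply]
    apply Complex.ext <;> simp

lemma reM_norm (f : C(T, ℂ)) : ‖reM f‖ ≤ ‖f‖ := by
  rw [ContinuousMap.norm_le _ (norm_nonneg _)]
  intro t
  exact (Complex.abs_re_le_norm _).trans (f.norm_coe_le_norm t)

lemma imM_norm (f : C(T, ℂ)) : ‖imM f‖ ≤ ‖f‖ := by
  rw [ContinuousMap.norm_le _ (norm_nonneg _)]
  intro t
  exact (Complex.abs_im_le_norm _).trans (f.norm_coe_le_norm t)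

include hg in
lemma gC_bound (f : C(T, ℂ)) : ‖gC g f‖ ≤ (2 * g 1) * ‖f‖ := by
  show ‖(g (reM f) : ℂ) + I * (g (imM f) : ℂ)‖ ≤ _
  refine (norm_add_le _ _).trans ?_
  rw [norm_mul, norm_I, one_mul, Complex.norm_real, Complex.norm_real, Real.norm_eq_abs,
    Real.norm_eq_abs]
  have h1 := g_bound g hg (reM f)
  have h2 := g_bound g hg (imM f)
  have h3 : 0 ≤ g 1 := by
    have := hg (-1) (fun t => by simp)
    rw [map_neg] at this
    linarith
  have h4 := mul_le_mul_of_nonneg_left (reM_norm f) h3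
  have h5 := mul_le_mul_of_nonneg_left (imM_norm f) h3
  linarith

end

/-- the character `e_{-1}` -/
noncomputable def E1 : C(T, ℂ) := ⟨fun t => e (-1) t, e_cont (-1)⟩

lemma E1_norm : ‖E1‖ ≤ 1 := by
  rw [ContinuousMap.norm_le _ zero_le_one]
  intro t
  exact (e_norm (-1) t).le

noncomputable def Phi (z : ℂ) : C(T, ℂ) := (2 : ℂ) • Ring.inverse (1 - z • E1) - 1

lemma unit_z {z : ℂ} (hz : z ∈ disc) : IsUnit (1 - z • E1) := by
  have h1 : ‖z • E1‖ < 1 := by
    rw [norm_smul]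
    have hz1 : ‖z‖ < 1 := by simpa using hz
    calc ‖z‖ * ‖E1‖ ≤ ‖z‖ * 1 := by gcongr; exact E1_norm
      _ < 1 := by linarith
  exact (Units.oneSub (z • E1) h1).isUnit

lemma Phi_diff {z : ℂ} (hz : z ∈ disc) : DifferentiableAt ℂ Phi z := by
  have h1 : DifferentiableAt ℂ (fun z : ℂ => (1 : C(T, ℂ)) - z • E1) z := by fun_prop
  have h2 := (differentiableAt_inverse (𝕜 := ℂ) (unit_z hz)).comp z h1
  exact (h2.const_smul (2 : ℂ)).sub_const 1

lemma Phi_apply {z : ℂ} (hz : z ∈ disc) (t : T) : Phi z t = 2 * ck z t - 1 := by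
  have h1 := Ring.mul_inverse_cancel _ (unit_z hz)
  have h2 : ((1 - z • E1) * Ring.inverse (1 - z • E1)) t = (1 : C(T, ℂ)) t := by rw [h1]
  rw [ContinuousMap.mul_apply, ContinuousMap.one_apply] at h2
  have h3 : ((1 : C(T, ℂ)) - z • E1) t = 1 - z * e (-1) t := rfl
  rw [h3] at h2
  have hz1 : ‖z‖ < 1 := by simpa using hz
  have h4 : Ring.inverse (1 - z • E1) t = ck z t := by
    rw [ck]
    exact eq_inv_of_mul_eq_one_right h2
  rw [Phi, ContinuousMap.sub_apply, ContinuousMap.smul_apply, h4, ContinuousMap.one_apply,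
    smul_eq_mul]

lemma Phi_re {z : ℂ} (hz : z ∈ disc) (t : T) : (Phi z t).re = pker z t := by
  have hz1 : ‖z‖ < 1 := by simpa using hz
  have hz2 : ‖conj z‖ < 1 := by simpa using hz1
  have h1 := re_qk hz2 t
  rw [Complex.conj_conj] at h1
  have h2 : (ck z t).re = (qk (conj z) t).re := by
    rw [← ck_conj, Complex.conj_re]
  rw [Phi_apply hz, pker_eq]
  have h3 : (2 * ck z t - 1).re = 2 * (ck z t).re - 1 := by simp
  rw [h3, h2, h1]
  ring

open Classical in
/-- the Poisson kernel as a continuous function -/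
noncomputable def PK (z : ℂ) : C(T, ℝ) := if h : z ∈ disc then ⟨pker z, pker_cont h⟩ else 0

lemma PK_apply {z : ℂ} (hz : z ∈ disc) (t : T) : PK z t = pker z t := by
  rw [PK, dif_pos hz]; rfl

lemma pker_nonneg {z : ℂ} (hz : z ∈ disc) (t : T) : 0 ≤ pker z t := by
  rw [pker_eq]; exact pk_nonneg (by simpa using hz) t

/-- the harmonic function defined by a positive functional -/
lemma harm_of (g : C(T, ℝ) →ₗ[ℝ] ℝ) (hg : ∀ f : C(T, ℝ), (∀ t, f t ≤ 0) → g f ≤ 0) :
    InnerProductSpace.HarmonicOnNhd (fun z => g (PK z)) disc := by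
  set G : C(T, ℂ) →L[ℂ] ℂ := (gC g).mkContinuous (2 * g 1) (gC_bound g hg) with hG
  have hd : DifferentiableOn ℂ (fun z => G (Phi z)) disc := fun z hz =>
    (G.differentiableAt.comp z (Phi_diff hz)).differentiableWithinAt
  intro x hx
  have ha : AnalyticAt ℂ (fun z => G (Phi z)) x := hd.analyticAt (isOpen_ball.mem_nhds hx)
  have h2 := ha.harmonicAt_re
  refine (InnerProductSpace.harmonicAt_congr_nhds ?_).1 h2
  filter_upwards [isOpen_ball.mem_nhds hx] with z hz
  have e1 : reM (Phi z) = PK z := by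
    ext t
    rw [PK_apply hz]
    exact Phi_re hz t
  show ((g (reM (Phi z)) : ℂ) + I * (g (imM (Phi z)) : ℂ)).re = g (PK z)
  rw [e1]
  simp

/-! ### the sublinear functional -/

noncomputable def tot : (ℂ →₀ ℝ) →ₗ[ℝ] ℝ := Finsupp.linearCombination ℝ (fun _ => (1 : ℝ))
noncomputable def pot : (ℂ →₀ ℝ) →ₗ[ℝ] C(T, ℝ) := Finsupp.linearCombination ℝ PK

def Good (E : Set ℂ) (c : ℂ →₀ ℝ) : Prop := ∀ z, 0 ≤ c z ∧ (c z ≠ 0 → z ∈ E)

lemma Good.add {E : Set ℂ} {c d : ℂ →₀ ℝ} (hc : Good E c) (hd : Good E d) : Good E (c + d) := by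
  intro z
  rw [Finsupp.add_apply]
  refine ⟨add_nonneg (hc z).1 (hd z).1, fun h => ?_⟩
  by_cases h1 : c z = 0
  · exact (hd z).2 (by intro h2; apply h; rw [h1, h2, add_zero])
  · exact (hc z).2 h1

lemma Good.smul {E : Set ℂ} {c : ℂ →₀ ℝ} (hc : Good E c) {r : ℝ} (hr : 0 ≤ r) :
    Good E (r • c) := by
  intro z
  rw [Finsupp.smul_apply, smul_eq_mul]
  exact ⟨mul_nonneg hr (hc z).1, fun h => (hc z).2 (right_ne_zero_of_mul h)⟩

lemma tot_nonneg {E : Set ℂ} {c : ℂ →₀ ℝ} (hc : Good E c) : 0 ≤ tot c := by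
  rw [tot, Finsupp.linearCombination_apply]
  exact Finsupp.sum_nonneg fun z _ => by
    rw [smul_eq_mul, mul_one]; exact (hc z).1

lemma Good.zero (E : Set ℂ) : Good E 0 := fun z => by simp

def AA (E : Set ℂ) (f : C(T, ℝ)) : Set ℝ := {s | ∃ c, Good E c ∧ s = tot c ∧ ∀ t, f t ≤ pot c t}

noncomputable def Nf (E : Set ℂ) (f : C(T, ℝ)) : ℝ := sInf (AA E f)

lemma AA_bdd (E : Set ℂ) (f : C(T, ℝ)) : BddBelow (AA E f) :=
  ⟨0, by rintro s ⟨c, hc, rfl, -⟩; exact tot_nonneg hc⟩

lemma pot_single (z : ℂ) (r : ℝ) : pot (Finsupp.single z r) = r • PK z := by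
  rw [pot, Finsupp.linearCombination_single]

lemma tot_single (z : ℂ) (r : ℝ) : tot (Finsupp.single z r) = r := by
  rw [tot, Finsupp.linearCombination_single]; simp

lemma good_single {E : Set ℂ} {z : ℂ} (hz : z ∈ E) {r : ℝ} (hr : 0 ≤ r) :
    Good E (Finsupp.single z r) := by
  intro w
  by_cases h : z = w
  · subst h
    rw [Finsupp.single_eq_same]
    exact ⟨hr, fun _ => hz⟩
  · rw [Finsupp.single_eq_of_ne (Ne.symm h)]
    exact ⟨le_rfl, fun h => absurd rfl h⟩

lemma AA_nonempty {E : Set ℂ} (hE : E ⊆ disc) (hne : E.Nonempty) (f : C(T, ℝ)) :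
    (AA E f).Nonempty := by
  obtain ⟨z, hz⟩ := hne
  have hzd := hE hz
  have hz1 : ‖z‖ < 1 := by simpa using hzd
  have hk0 : 0 < (1 - ‖z‖ ^ 2) / 4 := by
    have := norm_nonneg z
    have : ‖z‖ ^ 2 < 1 := by nlinarith
    linarith
  have hpos : ∀ t : T, (1 - ‖z‖ ^ 2) / 4 ≤ pker z t := by
    intro t
    rw [pker]
    have h1 : ‖pt t - z‖ ≤ 2 := by
      refine (norm_sub_le _ _).trans ?_
      rw [pt_eq, e_norm]; linarith
    have h2 : 0 < ‖pt t - z‖ := by
      have := norm_sub_norm_le (pt t) z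
      rw [pt_eq, e_norm] at this
      rw [pt_eq]
      linarith
    have h3 : ‖pt t - z‖ ^ 2 ≤ 4 := by nlinarith
    exact div_le_div_of_nonneg_left (by linarith) (by positivity) h3
  refine ⟨_, Finsupp.single z (‖f‖ / ((1 - ‖z‖ ^ 2) / 4)), good_single hz (by positivity), rfl,
    fun t => ?_⟩
  rw [pot_single, ContinuousMap.smul_apply, PK_apply hzd, smul_eq_mul]
  have h1 := (le_abs_self _).trans (f.norm_coe_le_norm t)
  calc f t ≤ ‖f‖ := h1
    _ = ‖f‖ / ((1 - ‖z‖ ^ 2) / 4) * ((1 - ‖z‖ ^ 2) / 4) := by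
        rw [div_mul_cancel₀ _ hk0.ne']
    _ ≤ _ := mul_le_mul_of_nonneg_left (hpos t) (by positivity)

section

variable {E : Set ℂ} (hE : E ⊆ disc) (hne : E.Nonempty)

lemma Nf_le {f : C(T, ℝ)} {c : ℂ →₀ ℝ} (hc : Good E c) (h : ∀ t, f t ≤ pot c t) :
    Nf E f ≤ tot c := csInf_le (AA_bdd E f) ⟨c, hc, rfl, h⟩

include hE hne

lemma Nf_nonneg (f : C(T, ℝ)) : 0 ≤ Nf E f :=
  le_csInf (AA_nonempty hE hne f) (by rintro s ⟨c, hc, rfl, -⟩; exact tot_nonneg hc)

lemma Nf_add (f k : C(T, ℝ)) : Nf E (f + k) ≤ Nf E f + Nf E k := by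
  have h1 : ∀ s ∈ AA E f, Nf E (f + k) - s ≤ Nf E k := by
    rintro s ⟨c, hc, rfl, hcf⟩
    refine le_csInf (AA_nonempty hE hne k) ?_
    rintro s' ⟨d, hd, rfl, hdk⟩
    have := Nf_le (f := f + k) (hc.add hd) (fun t => by
      rw [map_add, ContinuousMap.add_apply, ContinuousMap.add_apply]
      exact add_le_add (hcf t) (hdk t))
    rw [map_add] at this
    linarith
  have h2 : Nf E (f + k) - Nf E k ≤ Nf E f :=
    le_csInf (AA_nonempty hE hne f) fun s hs => by linarith [h1 s hs]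
  linarith

lemma Nf_smul_le {r : ℝ} (hr : 0 < r) (f : C(T, ℝ)) : Nf E (r • f) ≤ r * Nf E f := by
  have h1 : Nf E (r • f) / r ≤ Nf E f := by
    refine le_csInf (AA_nonempty hE hne f) ?_
    rintro s ⟨c, hc, rfl, hcf⟩
    rw [div_le_iff₀ hr, mul_comm]
    have := Nf_le (f := r • f) (hc.smul hr.le) (fun t => by
      rw [map_smul, ContinuousMap.smul_apply, ContinuousMap.smul_apply, smul_eq_mul, smul_eq_mul]
      exact mul_le_mul_of_nonneg_left (hcf t) hr.le)
    rwa [map_smul, smul_eq_mul] at this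
  rwa [div_le_iff₀ hr, mul_comm] at h1

lemma Nf_smul {r : ℝ} (hr : 0 < r) (f : C(T, ℝ)) : Nf E (r • f) = r * Nf E f := by
  apply le_antisymm (Nf_smul_le hE hne hr f)
  have h1 := Nf_smul_le hE hne (inv_pos.2 hr) (r • f)
  rw [smul_smul, inv_mul_cancel₀ hr.ne', one_smul] at h1
  have h2 := mul_le_mul_of_nonneg_left h1 hr.le
  rw [← mul_assoc, mul_inv_cancel₀ hr.ne', one_mul] at h2
  exact h2

/-- duality: a dominating set admits covers of total mass arbitrarily close to one -/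
theorem covers_of_dominates (hdom : Dominates E) {η : ℝ} (hη : 0 < η) : Covers E (1 + η) := by
  by_contra hcon
  have hN1 : 1 + η ≤ Nf E 1 := by
    refine le_csInf (AA_nonempty hE hne 1) ?_
    rintro s ⟨c, hc, rfl, hcf⟩
    by_contra hlt
    push Not at hlt
    apply hcon
    refine ⟨c.support, c, fun z hz => ⟨(hc z).2 (Finsupp.mem_support_iff.1 hz), (hc z).1⟩, ?_, ?_⟩
    · have : tot c = ∑ z ∈ c.support, c z := by
        rw [tot, Finsupp.linearCombination_apply, Finsupp.sum]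
        simp
      linarith
    · intro t
      have h1 := hcf t
      rw [ContinuousMap.one_apply] at h1
      refine h1.trans (le_of_eq ?_)
      rw [pot, Finsupp.linearCombination_apply, Finsupp.sum, ContinuousMap.sum_apply]
      refine Finset.sum_congr rfl fun z hz => ?_
      rw [ContinuousMap.smul_apply, smul_eq_mul,
        PK_apply (hE ((hc z).2 (Finsupp.mem_support_iff.1 hz)))]
  have h10 : (1 : C(T, ℝ)) ≠ 0 := by
    intro h
    have := DFunLike.congr_fun h (0 : T)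
    simp at this
  obtain ⟨g, hg1, hg2⟩ := exists_extension_of_le_sublinear
    (LinearPMap.mkSpanSingleton (1 : C(T, ℝ)) (Nf E 1) h10) (Nf E)
    (fun c hc x => Nf_smul hE hne hc x) (Nf_add hE hne) (by
      rintro ⟨x, hx⟩
      obtain ⟨c, rfl⟩ := Submodule.mem_span_singleton.1 hx
      have hval : (LinearPMap.mkSpanSingleton (1 : C(T, ℝ)) (Nf E 1) h10) ⟨c • (1 : C(T, ℝ)), hx⟩ =
          c • Nf E 1 := LinearPMap.mkSpanSingleton'_apply _ _ _ _ _
      rw [hval]
      show c • Nf E 1 ≤ Nf E (c • (1 : C(T, ℝ)))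
      rw [smul_eq_mul]
      rcases lt_trichotomy c 0 with h | h | h
      · have h1 := Nf_nonneg hE hne (c • (1 : C(T, ℝ)))
        have h2 := Nf_nonneg hE hne (1 : C(T, ℝ))
        nlinarith
      · subst h
        rw [zero_mul]
        exact Nf_nonneg hE hne _
      · rw [Nf_smul hE hne h])
  have hgneg : ∀ f : C(T, ℝ), (∀ t, f t ≤ 0) → g f ≤ 0 := by
    intro f hf
    have h1 := Nf_le (f := f) (Good.zero E) (fun t => by
      rw [map_zero, ContinuousMap.zero_apply]; exact hf t)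
    rw [map_zero] at h1
    exact (hg2 f).trans h1
  have hg11 : g 1 = Nf E 1 := by
    have h1 := hg1 ⟨1, Submodule.mem_span_singleton_self 1⟩
    have hval : (LinearPMap.mkSpanSingleton (1 : C(T, ℝ)) (Nf E 1) h10)
        ⟨1, Submodule.mem_span_singleton_self 1⟩ = Nf E 1 :=
      LinearPMap.mkSpanSingleton_apply (σ := RingHom.id ℝ) ℝ ℝ h10 (Nf E 1)
    rw [hval] at h1
    exact h1
  have hz0 : (0 : ℂ) ∈ disc := by simp
  have hPK0 : PK 0 = 1 := by
    ext t
    rw [PK_apply hz0, pker_zero, ContinuousMap.one_apply]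
  have h3 := hdom (fun z => g (PK z)) (harm_of g hgneg) (fun z hz => by
    have := hgneg (-(PK z)) (fun t => by
      rw [ContinuousMap.neg_apply, PK_apply hz]
      linarith [pker_nonneg hz t])
    rw [map_neg] at this
    linarith) 1 (fun z hz => by
    have h4 := Nf_le (f := PK z) (good_single hz zero_le_one) (fun t => by
      rw [pot_single, one_smul])
    rw [tot_single] at h4
    exact (hg2 _).trans h4) 0 hz0
  simp only [hPK0, hg11] at h3
  linarith

end

end Pool.Agent.Helper34.Dg
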