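import Pool.Agent.Helper34.Dg.Alg

set_option autoImplicit false

open MeasureTheory Filter Topology Complex Metric Set AddCircle
open scoped Interval ComplexConjugate ENNReal

namespace Pool.Agent.Helper34.Dg

/-- `g` is approximable by `f / b` -/
def Appr (B : Set (ℂ → ℂ)) (g : T → ℂ) : Prop :=
  ∀ ε : ℝ, 0 < ε → ∃ b ∈ B, ∃ bT f : T → ℂ, Rep b bT ∧ f ∈ HInf ∧
    ∀ᵐ t ∂mu, ‖g t * bT t - f t‖ ≤ ε

lemma rep_mul {b c : ℂ → ℂ} {bT cT : T → ℂ} (hb : Rep b bT) (hc : Rep c cT) :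
    Rep (fun z => b z * c z) (fun t => bT t * cT t) := by
  refine Rep.of (mul_HInf hb.mem hc.mem) ?_ ?_
  · filter_upwards [hb.one, hc.one] with t t1 t2
    rw [norm_mul, t1, t2, one_mul]
  · intro z hz
    rw [ext_mul hb.mem hc.mem (by simpa using hz), hb.ext z hz, hc.ext z hz]

variable {B : Set (ℂ → ℂ)}

/-- the algebra of approximable bounded functions -/
noncomputable def apAlg (B : Set (ℂ → ℂ)) (hB : ∀ b ∈ B, IsInner b)
    (hmul : ∀ b ∈ B, ∀ c ∈ B, (fun z => b z * c z) ∈ B) (hne : B.Nonempty) :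
    Submodule ℂ (T →ₘ[mu] ℂ) where
  carrier := {g | (∃ M : ℝ, ∀ᵐ t ∂mu, ‖g t‖ ≤ M) ∧ Appr B g}
  add_mem' := by
    rintro g g' ⟨⟨M, hM⟩, h1⟩ ⟨⟨M', hM'⟩, h2⟩
    refine ⟨⟨M + M', ?_⟩, fun ε hε => ?_⟩
    · filter_upwards [hM, hM', AEEqFun.coeFn_add g g'] with t t1 t2 t3
      rw [t3]
      exact (norm_add_le _ _).trans (add_le_add t1 t2)
    · obtain ⟨b, hb, bT, f, rb, hf, e1⟩ := h1 (ε / 2) (by positivity)
      obtain ⟨c, hc, cT, f', rc, hf', e2⟩ := h2 (ε / 2) (by positivity)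
      refine ⟨_, hmul b hb c hc, _, fun t => f t * cT t + f' t * bT t, rep_mul rb rc,
        add_HInf (mul_HInf hf rc.mem) (mul_HInf hf' rb.mem), ?_⟩
      filter_upwards [e1, e2, rb.one, rc.one, AEEqFun.coeFn_add g g'] with t t1 t2 t3 t4 t5
      rw [t5, Pi.add_apply]
      have : (g t + g' t) * (bT t * cT t) - (f t * cT t + f' t * bT t) =
          (g t * bT t - f t) * cT t + (g' t * cT t - f' t) * bT t := by ring
      rw [this]
      refine (norm_add_le _ _).trans ?_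
      rw [norm_mul, norm_mul, t3, t4]
      linarith
  zero_mem' := by
    obtain ⟨b, hb⟩ := hne
    obtain ⟨bT, rb⟩ := inner_rep (hB b hb)
    refine ⟨⟨0, ?_⟩, fun ε hε => ⟨b, hb, bT, _, rb, const_HInf 0, ?_⟩⟩
    · filter_upwards [AEEqFun.coeFn_zero (α := T) (β := ℂ) (μ := mu)] with t t1
      rw [t1]; simp
    · filter_upwards [AEEqFun.coeFn_zero (α := T) (β := ℂ) (μ := mu)] with t t1
      rw [t1]; simp [hε.le]
  smul_mem' := by
    rintro c g ⟨⟨M, hM⟩, h1⟩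
    refine ⟨⟨‖c‖ * M, ?_⟩, fun ε hε => ?_⟩
    · filter_upwards [hM, AEEqFun.coeFn_smul c g] with t t1 t3
      rw [t3, Pi.smul_apply, norm_smul]
      gcongr
    · obtain ⟨b, hb, bT, f, rb, hf, e1⟩ := h1 (ε / (‖c‖ + 1)) (by positivity)
      refine ⟨b, hb, bT, fun t => c * f t, rb, smul_HInf hf c, ?_⟩
      filter_upwards [e1, AEEqFun.coeFn_smul c g] with t t1 t3
      rw [t3, Pi.smul_apply, smul_eq_mul]
      have : c * g t * bT t - c * f t = c * (g t * bT t - f t) := by ring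
      rw [this, norm_mul]
      calc ‖c‖ * ‖g t * bT t - f t‖ ≤ (‖c‖ + 1) * (ε / (‖c‖ + 1)) := by
            gcongr
            linarith
        _ = ε := by field_simp

lemma apAlg_mem {hB : ∀ b ∈ B, IsInner b}
    {hmul : ∀ b ∈ B, ∀ c ∈ B, (fun z => b z * c z) ∈ B} {hne : B.Nonempty} {g : T →ₘ[mu] ℂ} :
    g ∈ apAlg B hB hmul hne ↔ (∃ M : ℝ, ∀ᵐ t ∂mu, ‖g t‖ ≤ M) ∧ Appr B g := Iff.rfl

lemma apAlg_douglas (hB : ∀ b ∈ B, IsInner b)
    (hmul : ∀ b ∈ B, ∀ c ∈ B, (fun z => b z * c z) ∈ B) (hne : B.Nonempty) :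
    IsDouglas (apAlg B hB hmul hne) where
  bdd := fun g hg => hg.1
  mul := by
    rintro g ⟨⟨M, hM⟩, h1⟩ g' ⟨⟨M', hM'⟩, h2⟩
    have hM0 : 0 ≤ M := by
      obtain ⟨t, ht⟩ := hM.exists
      exact (norm_nonneg _).trans ht
    have hM0' : 0 ≤ M' := by
      obtain ⟨t, ht⟩ := hM'.exists
      exact (norm_nonneg _).trans ht
    refine ⟨⟨M * M', ?_⟩, fun ε hε => ?_⟩
    · filter_upwards [hM, hM', AEEqFun.coeFn_mul g g'] with t t1 t2 t3
      rw [t3, Pi.mul_apply, norm_mul]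
      gcongr
    · set δ := min 1 (ε / (M + M' + 1)) with hδ
      have hδ0 : 0 < δ := lt_min one_pos (by positivity)
      have hδ1 : δ ≤ 1 := min_le_left _ _
      have hδ2 : δ * (M + M' + 1) ≤ ε := by
        have : δ ≤ ε / (M + M' + 1) := min_le_right _ _
        rwa [le_div_iff₀ (by positivity)] at this
      obtain ⟨b, hb, bT, f, rb, hf, e1⟩ := h1 δ hδ0
      obtain ⟨c, hc, cT, f', rc, hf', e2⟩ := h2 δ hδ0
      refine ⟨_, hmul b hb c hc, _, fun t => f t * f' t, rep_mul rb rc, mul_HInf hf hf', ?_⟩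
      filter_upwards [e1, e2, rb.one, rc.one, AEEqFun.coeFn_mul g g', hM, hM'] with
        t t1 t2 t3 t4 t5 t6 t7
      rw [t5, Pi.mul_apply]
      have e3 : (g t * g' t) * (bT t * cT t) - f t * f' t =
          (g t * bT t - f t) * (g' t * cT t) + f t * (g' t * cT t - f' t) := by ring
      have e4 : ‖f t‖ ≤ M + 1 := by
        have : f t = g t * bT t - (g t * bT t - f t) := by ring
        rw [this]
        refine (norm_sub_le _ _).trans ?_
        rw [norm_mul, t3]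
        linarith
      rw [e3]
      refine (norm_add_le _ _).trans ?_
      rw [norm_mul, norm_mul, norm_mul, t4, mul_one]
      calc ‖g t * bT t - f t‖ * ‖g' t‖ + ‖f t‖ * ‖g' t * cT t - f' t‖
          ≤ δ * M' + (M + 1) * δ := by gcongr
        _ = δ * (M + M' + 1) := by ring
        _ ≤ ε := hδ2
  closed := by
    intro g hg
    constructor
    · obtain ⟨f, ⟨⟨M, hM⟩, -⟩, hf⟩ := hg 1 one_pos
      refine ⟨M + 1, ?_⟩
      filter_upwards [hM, hf] with t t1 t2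
      have : g t = f t + (g t - f t) := by ring
      rw [this]
      exact (norm_add_le _ _).trans (add_le_add t1 t2)
    · intro ε hε
      obtain ⟨g', ⟨-, h1⟩, h2⟩ := hg (ε / 2) (by positivity)
      obtain ⟨b, hb, bT, f, rb, hf, e1⟩ := h1 (ε / 2) (by positivity)
      refine ⟨b, hb, bT, f, rb, hf, ?_⟩
      filter_upwards [h2, e1, rb.one] with t t1 t2 t3
      have : g t * bT t - f t = (g t - g' t) * bT t + (g' t * bT t - f t) := by ring
      rw [this]
      refine (norm_add_le _ _).trans ?_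
      rw [norm_mul, t3]
      linarith
  hinf := by
    intro G hG g hg
    obtain ⟨f, hf, hfe, hfb⟩ := bh_rep hG
    have hgf : g =ᵐ[mu] f := by
      filter_upwards [hg, hfb] with t t1 t2
      exact tendsto_nhds_unique t1 t2
    obtain ⟨C, -, hC⟩ := exists_bound hf.1
    refine ⟨⟨C, ?_⟩, fun ε hε => ?_⟩
    · filter_upwards [hgf, hC] with t t1 t2
      rw [t1]; exact t2
    · obtain ⟨b, hb⟩ := hne
      obtain ⟨bT, rb⟩ := inner_rep (hB b hb)
      refine ⟨b, hb, bT, fun t => f t * bT t, rb, mul_HInf hf rb.mem, ?_⟩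
      filter_upwards [hgf] with t t1
      rw [t1, sub_self, norm_zero]
      exact hε.le

lemma apAlg_inv (hB : ∀ b ∈ B, IsInner b)
    (hmul : ∀ b ∈ B, ∀ c ∈ B, (fun z => b z * c z) ∈ B) (hne : B.Nonempty) {b : ℂ → ℂ}
    (hb : b ∈ B) : InvIn (apAlg B hB hmul hne) b := by
  obtain ⟨bT, rb⟩ := inner_rep (hB b hb)
  rw [invIn_iff rb]
  have hm : AEStronglyMeasurable (fun t => conj (bT t)) mu := (bdd_conj rb.mem.1).1
  refine ⟨AEEqFun.mk _ hm, ⟨⟨1, ?_⟩, fun ε hε => ?_⟩, AEEqFun.coeFn_mk _ hm⟩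
  · filter_upwards [AEEqFun.coeFn_mk _ hm, rb.one] with t t1 t2
    rw [t1, RCLike.norm_conj, t2]
  · refine ⟨b, hb, bT, fun _ => 1, rb, const_HInf 1, ?_⟩
    filter_upwards [AEEqFun.coeFn_mk _ hm, rb.one] with t t1 t2
    rw [t1, mul_comm, Complex.mul_conj, Complex.normSq_eq_norm_sq, t2]
    simp [hε.le]

/-- elements of a generated Douglas algebra are approximable -/
theorem gen_appr {D : Submodule ℂ (T →ₘ[mu] ℂ)} (hB : ∀ b ∈ B, IsInner b)
    (hmul : ∀ b ∈ B, ∀ c ∈ B, (fun z => b z * c z) ∈ B) (hne : B.Nonempty)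
    (hgen : GeneratedBy D B) {f : T → ℂ} (hf : Mem D f) : Appr B f := by
  obtain ⟨g, hg, hgf⟩ := hf
  have h1 := hgen.2 _ (apAlg_douglas hB hmul hne) (fun b hb => apAlg_inv hB hmul hne hb) hg
  intro ε hε
  obtain ⟨b, hb, bT, k, rb, hk, e1⟩ := h1.2 ε hε
  refine ⟨b, hb, bT, k, rb, hk, ?_⟩
  filter_upwards [e1, hgf] with t t1 t2
  rw [← t2]; exact t1

/-- if `u` is an invertible inner function of a generated algebra then `|u|` is close to one where
`|b|` is close to one -/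
theorem gen_lev {D : Submodule ℂ (T →ₘ[mu] ℂ)} (hB : ∀ b ∈ B, IsInner b)
    (hmul : ∀ b ∈ B, ∀ c ∈ B, (fun z => b z * c z) ∈ B) (hne : B.Nonempty)
    (hgen : GeneratedBy D B) {u : ℂ → ℂ} (hu : IsInner u) (huD : InvIn D u) {ε : ℝ}
    (hε : 0 < ε) : ∃ b ∈ B, ∀ z ∈ lev b ε, 1 - 2 * ε ≤ ‖u z‖ * (1 + ε) := by
  obtain ⟨uT, ru⟩ := inner_rep hu
  rw [invIn_iff ru] at huD
  obtain ⟨b, hb, bT, f, rb, hf, e1⟩ := gen_appr hB hmul hne hgen huD ε hε
  refine ⟨b, hb, fun z hz => ?_⟩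
  have hz1 : ‖z‖ < 1 := by simpa using hz.1
  have hfb : ∀ᵐ t ∂mu, ‖f t‖ ≤ 1 + ε := by
    filter_upwards [e1, rb.one, ru.one] with t t1 t2 t3
    have : f t = conj (uT t) * bT t - (conj (uT t) * bT t - f t) := by ring
    rw [this]
    refine (norm_sub_le _ _).trans ?_
    rw [norm_mul, RCLike.norm_conj, t2, t3]
    linarith
  have h1 : (fun t => bT t - uT t * f t) ∈ HInf := sub_HInf rb.mem (mul_HInf ru.mem hf)
  have h2 : ∀ᵐ t ∂mu, ‖bT t - uT t * f t‖ ≤ ε := by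
    filter_upwards [e1, ru.one] with t t1 t3
    have e2 : uT t * conj (uT t) = 1 := by
      rw [Complex.mul_conj, Complex.normSq_eq_norm_sq, t3]; norm_num
    have : bT t - uT t * f t = uT t * (conj (uT t) * bT t - f t) := by
      linear_combination (-bT t) * e2
    rw [this, norm_mul, t3, one_mul]
    exact t1
  have h3 := ext_bound h1 h2 hz1
  rw [ext_sub (memLp_integrable rb.mem.1) (memLp_integrable (mul_HInf ru.mem hf).1) hz1,
    ext_mul ru.mem hf hz1, rb.ext z hz.1, ru.ext z hz.1] at h3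
  have h4 := ext_bound hf hfb hz1
  have h5 : ‖b z‖ ≤ ε + ‖u z‖ * (1 + ε) := by
    have : b z = (b z - u z * ext f z) + u z * ext f z := by ring
    rw [this]
    refine (norm_add_le _ _).trans (add_le_add h3 ?_)
    rw [norm_mul]
    gcongr
  have h6 := hz.2
  linarith

end Pool.Agent.Helper34.Dg
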