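import Pool.Agent.Helper34.Dg.Herg
import Pool.Agent.Helper34.Dg.Gen

set_option autoImplicit false

open MeasureTheory Filter Topology Complex Metric Set AddCircle
open scoped Interval ComplexConjugate ENNReal

namespace Pool.Agent.Helper34.Dg

lemma bfac_self (a : ℂ) : bfac a a = 0 := by
  unfold bfac
  split_ifs with h
  · exact h
  · simp

lemma hasProd_zero_of {ι : Type} {f : ι → ℂ} {p : ℂ} (h : HasProd f p) {i : ι} (hi : f i = 0) :
    p = 0 := by
  have h2 : Tendsto (fun s : Finset ι => ∏ j ∈ s, f j) atTop (𝓝 0) := by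
    refine tendsto_const_nhds.congr' ?_
    filter_upwards [eventually_ge_atTop ({i} : Finset ι)] with s hs
    exact (Finset.prod_eq_zero (hs (Finset.mem_singleton_self i)) hi).symm
  exact tendsto_nhds_unique h h2

lemma blaschke_zero_free {u : ℂ → ℂ} (h : IsBlaschke u) (hz : ∀ z ∈ disc, u z ≠ 0) :
    ∃ c : ℂ, ‖c‖ = 1 ∧ ∀ z ∈ disc, u z = c := by
  obtain ⟨c, ι, a, hc, ha, -, hp⟩ := h
  have hemp : IsEmpty ι := by
    by_contra hne
    rw [not_isEmpty_iff] at hne
    obtain ⟨i⟩ := hne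
    obtain ⟨p, hp1, hp2⟩ := hp (a i) (ha i)
    have : p = 0 := hasProd_zero_of hp1 (i := i) (bfac_self _)
    exact hz (a i) (ha i) (by rw [hp2, this, mul_zero])
  refine ⟨c, hc, fun z hz' => ?_⟩
  obtain ⟨p, hp1, hp2⟩ := hp z hz'
  have : p = 1 := by
    refine HasProd.unique hp1 ?_
    exact hasProd_empty
  rw [hp2, this, mul_one]

/-- positive harmonic functions are real parts -/
lemma exists_re {h : ℂ → ℝ} (hh : InnerProductSpace.HarmonicOnNhd h disc) :
    ∃ F : ℂ → ℂ, DifferentiableOn ℂ F (ball 0 1) ∧ ∀ z ∈ disc, (F z).re = h z := by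
  obtain ⟨F, hF, hFe⟩ := hh.exists_analyticOnNhd_ball_re_eq
  exact ⟨F, hF.differentiableOn, fun z hz => hFe hz⟩

theorem sing_part {D : Submodule ℂ (T →ₘ[mu] ℂ)} (hD : IsDouglas D) {b : ℂ → ℂ}
    (hb : IsInner b) (hbD : InvIn D b) (h1 : ∀ u, IsInner u → InvIn D u → IsBlaschke u) {δ : ℝ}
    (hδ : 0 < δ) {F : ℂ → ℂ} (hF : DifferentiableOn ℂ F (ball 0 1))
    (hF0 : ∀ z ∈ disc, 0 ≤ (F z).re) {M : ℝ} (hM0 : 0 < M)
    (hM : ∀ z ∈ lev b δ, (F z).re ≤ M) : ∀ z ∈ disc, (F z).re ≤ M := by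
  obtain ⟨bT, rb⟩ := inner_rep hb
  -- f = exp(-F)
  have hf : BddHol (fun z => Complex.exp (-F z)) := by
    refine ⟨hF.neg.cexp, 1, fun z hz => ?_⟩
    rw [Complex.norm_exp, Complex.neg_re, Real.exp_le_one_iff]
    linarith [hF0 z hz]
  obtain ⟨fT, hfT, hfe, hfb⟩ := bh_rep hf
  have hlow : ∀ᵐ t ∂mu, Real.exp (-M) ≤ ‖fT t‖ ∧ ‖fT t‖ ≤ 1 := by
    filter_upwards [hfb, rb.bdry, rb.one] with t t1 t2 t3
    have hev : ∀ᶠ r : ℝ in 𝓝[<] 1, Real.exp (-M) ≤ ‖Complex.exp (-F ((r : ℂ) * pt t))‖ ∧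
        ‖Complex.exp (-F ((r : ℂ) * pt t))‖ ≤ 1 := by
      have h2 : ∀ᶠ r : ℝ in 𝓝[<] 1, 1 - δ < ‖b ((r : ℂ) * pt t)‖ := by
        have h3 := t2.norm
        rw [t3] at h3
        exact h3.eventually (lt_mem_nhds (by linarith))
      filter_upwards [h2, Ioo_mem_left] with r hr1 hr2
      have hz : (r : ℂ) * pt t ∈ disc := re1_mem hr2.1.le hr2.2 t
      rw [Complex.norm_exp, Complex.neg_re]
      refine ⟨Real.exp_le_exp.2 ?_, ?_⟩
      · linarith [hM _ ⟨hz, hr1⟩]
      · rw [Real.exp_le_one_iff]; linarith [hF0 _ hz]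
    exact ⟨ge_of_tendsto t1.norm (hev.mono fun r hr => hr.1),
      le_of_tendsto t1.norm (hev.mono fun r hr => hr.2)⟩
  -- w
  set w : T → ℝ := fun t => -Real.log ‖fT t‖ / M with hw
  have hwb : ∀ᵐ t ∂mu, 0 ≤ w t ∧ w t ≤ 1 := by
    filter_upwards [hlow] with t ht
    have hpos : 0 < ‖fT t‖ := lt_of_lt_of_le (Real.exp_pos _) ht.1
    constructor
    · apply div_nonneg _ hM0.le
      have := Real.log_nonpos hpos.le ht.2
      linarith
    · rw [div_le_one hM0]
      have := Real.log_le_log (Real.exp_pos _) ht.1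
      rw [Real.log_exp] at this
      linarith
  have hwm : MemLp (fun t => (w t : ℂ)) ∞ mu := by
    refine memLp_top_of_bound ?_ 1 ?_
    · have h2 : AEMeasurable fT mu := hfT.1.1.aemeasurable
      have h3 : AEMeasurable w mu := ((Real.measurable_log.comp_aemeasurable h2.norm).neg).div_const M
      exact (Complex.measurable_ofReal.comp_aemeasurable h3).aestronglyMeasurable
    · filter_upwards [hwb] with t ht
      rw [Complex.norm_real, Real.norm_of_nonneg ht.1]
      exact ht.2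
  obtain ⟨k, hk2, hkre, hkz⟩ := Herg.exists_herglotz hwm hwb
  have hkb : ∀ᵐ t ∂mu, 0 ≤ (k t).re ∧ (k t).re ≤ 1 := by
    filter_upwards [hwb, hkre] with t t1 t2
    rw [t2]; exact t1
  obtain ⟨hψ1, hψ2⟩ := P643.comp_strip
    (fun G hG M hM => P641.exists_boundary hG hM) hk2 hkb hkz
    (ψ := fun ζ => Complex.exp (M * ζ)) (M := Real.exp M)
    (by fun_prop) (by
      intro ζ h0 h1
      rw [Complex.norm_exp, Real.exp_le_exp]
      have : ((M : ℂ) * ζ).re = M * ζ.re := by simp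
      rw [this]
      nlinarith)
  -- S
  set S : ℂ → ℂ := fun z => Complex.exp (-F z + M * ext k z) with hS
  have rS : Rep S (fun t => fT t * Complex.exp (M * k t)) := by
    refine Rep.of (mul_HInf hfT hψ1) ?_ ?_
    · filter_upwards [hlow, hkre] with t t1 t2
      have hpos : 0 < ‖fT t‖ := lt_of_lt_of_le (Real.exp_pos _) t1.1
      rw [norm_mul, Complex.norm_exp]
      have : ((M : ℂ) * k t).re = M * (k t).re := by simp
      rw [this, t2]
      have e1 : M * w t = -Real.log ‖fT t‖ := by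
        simp only [hw]; field_simp
      rw [e1, Real.exp_neg, Real.exp_log hpos]
      field_simp
    · intro z hz
      have hz1 : ‖z‖ < 1 := by simpa using hz
      rw [ext_mul hfT hψ1 hz1, hfe z hz, hψ2 z hz1, ← Complex.exp_add]
  have hSn : ∀ z ∈ disc, Real.exp (-(F z).re) ≤ ‖S z‖ := by
    intro z hz
    have hz1 : ‖z‖ < 1 := by simpa using hz
    rw [hS, Complex.norm_exp, Real.exp_le_exp]
    have : (-F z + (M : ℂ) * ext k z).re = -(F z).re + M * (ext k z).re := by simp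
    rw [this]
    have := mul_nonneg hM0.le (hkz z hz1).1
    linarith
  have hc : ∀ z ∈ disc, min (Real.exp (-M) ^ 2) (δ ^ 3) ≤ ‖S z‖ ^ 2 + (1 - ‖b z‖ ^ 2) ^ 3 := by
    intro z hz
    have hb1 := rb.le_one hz
    have hb0 := norm_nonneg (b z)
    by_cases hzl : 1 - δ < ‖b z‖
    · refine (min_le_left _ _).trans ?_
      have h2 : Real.exp (-M) ≤ ‖S z‖ := by
        refine (Real.exp_le_exp.2 ?_).trans (hSn z hz)
        linarith [hM z ⟨hz, hzl⟩]
      have h3 : Real.exp (-M) ^ 2 ≤ ‖S z‖ ^ 2 := by gcongr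
      have h4 : 0 ≤ (1 - ‖b z‖ ^ 2) ^ 3 := by
        have : 0 ≤ 1 - ‖b z‖ ^ 2 := by nlinarith
        positivity
      linarith
    · refine (min_le_right _ _).trans ?_
      push Not at hzl
      have h2 : δ ≤ 1 - ‖b z‖ ^ 2 := by nlinarith
      have h3 : δ ^ 3 ≤ (1 - ‖b z‖ ^ 2) ^ 3 := by gcongr
      have h4 : 0 ≤ ‖S z‖ ^ 2 := by positivity
      linarith
  have hSD := key hD rb rS hbD (lt_min (by positivity) (by positivity)) hc
  obtain ⟨c, hc1, hcz⟩ := blaschke_zero_free (h1 S rS.isInner hSD)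
    (fun z _ => Complex.exp_ne_zero _)
  intro z hz
  have hz1 : ‖z‖ < 1 := by simpa using hz
  have h5 : ‖S z‖ = 1 := by rw [hcz z hz, hc1]
  rw [hS, Complex.norm_exp, Real.exp_eq_one_iff] at h5
  have : (-F z + (M : ℂ) * ext k z).re = -(F z).re + M * (ext k z).re := by simp
  rw [this] at h5
  have := mul_le_mul_of_nonneg_left (hkz z hz1).2 hM0.le
  linarith

theorem one_two {D : Submodule ℂ (T →ₘ[mu] ℂ)} (hD : IsDouglas D) {b : ℂ → ℂ}
    (hb : IsInner b) (hbD : InvIn D b) (h1 : ∀ u, IsInner u → InvIn D u → IsBlaschke u) {δ : ℝ}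
    (hδ : 0 < δ) : Dominates (lev b δ) := by
  intro h hh h0 M hM z hz
  obtain ⟨F, hF, hFe⟩ := exists_re hh
  rcases le_or_gt δ 1 with hδ1 | hδ1
  · have key2 : ∀ M' : ℝ, 0 < M' → M ≤ M' → h z ≤ M' := by
      intro M' hM'0 hMM'
      rw [← hFe z hz]
      refine sing_part hD hb hbD h1 hδ hF (fun z hz => by rw [hFe z hz]; exact h0 z hz) hM'0
        (fun z hz => ?_) z hz
      rw [hFe z hz.1]
      exact (hM z hz).trans hMM'
    rcases lt_or_ge 0 M with hM0 | hM0
    · exact key2 M hM0 le_rfl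
    · -- then h vanishes
      have hz0 : h z ≤ 0 := le_of_forall_pos_le_add fun ε hε => by
        have := key2 ε hε (by linarith)
        linarith
      -- the level set is nonempty
      obtain ⟨bT, rb⟩ := inner_rep hb
      obtain ⟨t, t1, t2⟩ := (rb.bdry.and rb.one).exists
      have h3 := t1.norm
      rw [t2] at h3
      have h4 : ∀ᶠ r : ℝ in 𝓝[<] 1, 1 - δ < ‖b ((r : ℂ) * pt t)‖ :=
        h3.eventually (lt_mem_nhds (by linarith))
      obtain ⟨r, hr1, hr2⟩ := (h4.and Ioo_mem_left).exists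
      have hzz : (r : ℂ) * pt t ∈ disc := re1_mem hr2.1.le hr2.2 t
      have h5 := hM _ ⟨hzz, hr1⟩
      have h6 := h0 _ hzz
      linarith
  · exact hM z ⟨hz, by have := norm_nonneg (b z); linarith⟩

end Pool.Agent.Helper34.Dg
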