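import Pool.Agent.Helper34.Dg.FinalDefs
import Pool.Agent.Helper34.Dg.Fact2
import Pool.Agent.Helper34.Dg.Dual
import Pool.Agent.Helper34.Dg.SingPart
import Pool.Agent.Helper34.Dg.Cover

set_option autoImplicit false

open MeasureTheory Filter Topology Complex Metric Set AddCircle
open scoped Interval ComplexConjugate ENNReal

namespace Pool.Agent.Helper34.Dg

lemma one_rep : Rep (1 : ℂ → ℂ) (fun _ => 1) := by
  refine Rep.of (const_HInf 1) (Eventually.of_forall fun t => by simp) ?_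
  intro z _
  rw [ext_one]; rfl

lemma one_inner : IsInner (1 : ℂ → ℂ) := one_rep.isInner

lemma mul_inner {b c : ℂ → ℂ} (hb : IsInner b) (hc : IsInner c) : IsInner (b * c) := by
  obtain ⟨bT, rb⟩ := inner_rep hb
  obtain ⟨cT, rc⟩ := inner_rep hc
  exact (rep_mul rb rc).isInner

lemma one_inv {D : Submodule ℂ (T →ₘ[mu] ℂ)} (hD : IsDouglas D) : InvIn D (1 : ℂ → ℂ) := by
  rw [invIn_iff one_rep]
  refine (Mem.hinf hD (const_HInf 1)).congr (Eventually.of_forall fun t => ?_)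
  simp

lemma mul_inv' {D : Submodule ℂ (T →ₘ[mu] ℂ)} (hD : IsDouglas D) {b c : ℂ → ℂ} (hb : IsInner b)
    (hc : IsInner c) (hbD : InvIn D b) (hcD : InvIn D c) : InvIn D (b * c) := by
  obtain ⟨bT, rb⟩ := inner_rep hb
  obtain ⟨cT, rc⟩ := inner_rep hc
  have h := rep_mul rb rc
  rw [invIn_iff rb] at hbD
  rw [invIn_iff rc] at hcD
  show InvIn D (fun z => b z * c z)
  rw [invIn_iff h]
  refine (Mem.mul hD hbD hcD).congr (Eventually.of_forall fun t => ?_)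
  simp only [map_mul]

lemma prod_inner {F : Finset (ℂ → ℂ)} (hF : ∀ b ∈ F, IsInner b) : IsInner (∏ b ∈ F, b) :=
  Finset.prod_induction _ IsInner (fun _ _ => mul_inner) one_inner hF

lemma prod_inv {D : Submodule ℂ (T →ₘ[mu] ℂ)} (hD : IsDouglas D) {F : Finset (ℂ → ℂ)}
    (hF : ∀ b ∈ F, IsInner b) (hFD : ∀ b ∈ F, InvIn D b) : InvIn D (∏ b ∈ F, b) := by
  have := Finset.prod_induction (fun b : ℂ → ℂ => b) (fun b => IsInner b ∧ InvIn D b) (s := F)
    (fun b c hb hc => ⟨mul_inner hb.1 hc.1, mul_inv' hD hb.1 hc.1 hb.2 hc.2⟩)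
    ⟨one_inner, one_inv hD⟩ (fun b hb => ⟨hF b hb, hFD b hb⟩)
  exact this.2

lemma inner_le {b : ℂ → ℂ} (hb : IsInner b) {z : ℂ} (hz : z ∈ disc) : ‖b z‖ ≤ 1 := by
  obtain ⟨bT, rb⟩ := inner_rep hb
  exact rb.le_one hz

lemma lev_prod {F : Finset (ℂ → ℂ)} (hF : ∀ b ∈ F, IsInner b) (δ : ℝ) :
    lev (∏ b ∈ F, b) δ ⊆ levs F δ := by
  classical
  rintro z ⟨hz, hz2⟩
  refine ⟨hz, fun b hb => hz2.trans_le ?_⟩
  rw [Finset.prod_apply, norm_prod, ← Finset.mul_prod_erase F _ hb]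
  refine mul_le_of_le_one_right (norm_nonneg _) ?_
  exact Finset.prod_le_one (fun _ _ => norm_nonneg _)
    fun c hc => inner_le (hF c (Finset.mem_of_mem_erase hc)) hz

lemma lev_nonempty {b : ℂ → ℂ} (hb : IsInner b) {δ : ℝ} (hδ : 0 < δ) : (lev b δ).Nonempty := by
  obtain ⟨bT, rb⟩ := inner_rep hb
  obtain ⟨t, t1, t2⟩ := (rb.bdry.and rb.one).exists
  have h3 := t1.norm
  rw [t2] at h3
  have h4 : ∀ᶠ r : ℝ in 𝓝[<] 1, 1 - δ < ‖b ((r : ℂ) * pt t)‖ :=
    h3.eventually (lt_mem_nhds (by linarith))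
  obtain ⟨r, hr1, hr2⟩ := (h4.and Ioo_mem_left).exists
  exact ⟨_, re1_mem hr2.1.le hr2.2 t, hr1⟩

lemma Dominates.mono {E E' : Set ℂ} (h : Dominates E) (hEE : E ⊆ E') : Dominates E' :=
  fun u hu h0 M hM => h u hu h0 M fun z hz => hM z (hEE hz)

lemma BddDominates.mono {E E' : Set ℂ} (h : BddDominates E) (hEE : E ⊆ E') : BddDominates E' :=
  fun u hu h0 ⟨M, hM⟩ => h u hu h0 ⟨M, fun z hz => hM z (hEE hz)⟩

/-- products of members of `B` -/
abbrev cl (B : Set (ℂ → ℂ)) : Set (ℂ → ℂ) := (Submonoid.closure B : Set (ℂ → ℂ))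

lemma cl_inner {B : Set (ℂ → ℂ)} (hB : ∀ b ∈ B, IsInner b) : ∀ b ∈ cl B, IsInner b := by
  intro b hb
  induction hb using Submonoid.closure_induction with
  | mem x hx => exact hB x hx
  | one => exact one_inner
  | mul x y _ _ hx hy => exact mul_inner hx hy

lemma cl_inv {B : Set (ℂ → ℂ)} {D : Submodule ℂ (T →ₘ[mu] ℂ)} (hD : IsDouglas D)
    (hB : ∀ b ∈ B, IsInner b) (hBD : ∀ b ∈ B, InvIn D b) : ∀ b ∈ cl B, InvIn D b := by
  intro b hb
  have : IsInner b ∧ InvIn D b := by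
    induction hb using Submonoid.closure_induction with
    | mem x hx => exact ⟨hB x hx, hBD x hx⟩
    | one => exact ⟨one_inner, one_inv hD⟩
    | mul x y _ _ hx hy => exact ⟨mul_inner hx.1 hy.1, mul_inv' hD hx.1 hy.1 hx.2 hy.2⟩
  exact this.2

lemma cl_gen {B : Set (ℂ → ℂ)} {D : Submodule ℂ (T →ₘ[mu] ℂ)} (hD : IsDouglas D)
    (hB : ∀ b ∈ B, IsInner b) (hgen : GeneratedBy D B) : GeneratedBy D (cl B) :=
  ⟨cl_inv hD hB hgen.1, fun D' hD' h => hgen.2 D' hD' fun b hb => h b (Submonoid.subset_closure hb)⟩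

lemma cl_levs {B : Set (ℂ → ℂ)} (hB : ∀ b ∈ B, IsInner b) : ∀ c ∈ cl B,
    ∃ F : Finset (ℂ → ℂ), (F : Set (ℂ → ℂ)) ⊆ B ∧ ∀ δ : ℝ, 0 < δ →
      ∃ δ' : ℝ, 0 < δ' ∧ levs F δ' ⊆ lev c δ := by
  classical
  intro c hc
  induction hc using Submonoid.closure_induction with
  | mem x hx =>
    refine ⟨{x}, by simpa using hx, fun δ hδ => ⟨δ, hδ, ?_⟩⟩
    rintro z ⟨hz, h⟩
    exact ⟨hz, h x (Finset.mem_singleton_self x)⟩
  | one =>
    refine ⟨∅, by simp, fun δ hδ => ⟨1, one_pos, ?_⟩⟩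
    rintro z ⟨hz, -⟩
    refine ⟨hz, ?_⟩
    simp [hδ]
  | mul x y hx hy ihx ihy =>
    obtain ⟨F, hF, h1⟩ := ihx
    obtain ⟨G, hG, h2⟩ := ihy
    refine ⟨F ∪ G, by simp [hF, hG], fun δ hδ => ?_⟩
    obtain ⟨δ₁, hδ₁, h1⟩ := h1 (δ / 2) (by positivity)
    obtain ⟨δ₂, hδ₂, h2⟩ := h2 (δ / 2) (by positivity)
    refine ⟨min δ₁ δ₂, lt_min hδ₁ hδ₂, ?_⟩
    rintro z ⟨hz, h⟩
    have hx1 := (h1 ⟨hz, fun b hb => by
      have := h b (Finset.mem_union_left _ hb)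
      have h3 := min_le_left δ₁ δ₂
      linarith⟩).2
    have hy1 := (h2 ⟨hz, fun b hb => by
      have := h b (Finset.mem_union_right _ hb)
      have h3 := min_le_right δ₁ δ₂
      linarith⟩).2
    refine ⟨hz, ?_⟩
    rw [Pi.mul_apply, norm_mul]
    have hx2 := inner_le (cl_inner hB x hx) hz
    have hy2 := inner_le (cl_inner hB y hy) hz
    nlinarith [norm_nonneg (x z), norm_nonneg (y z)]

/-- the contradiction behind `(4) → (1)` -/
lemma blaschke_of_covers {u : ℂ → ℂ} (hu : IsInner u) {M : ℝ}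
    (h : ∀ ε : ℝ, 0 < ε → ∃ E : Set ℂ, E ⊆ disc ∧ Covers E M ∧
      ∀ z ∈ E, 1 - 2 * ε ≤ ‖u z‖ * (1 + ε)) : IsBlaschke u := by
  obtain ⟨z0, hz0⟩ := lev_nonempty hu one_pos
  have hne : u z0 ≠ 0 := by
    intro h0
    have := hz0.2
    rw [h0, norm_zero] at this
    norm_num at this
  obtain ⟨S, hS1, hS2, hS3, hS4, hS5⟩ := factor hu.1.1 (fun z hz => inner_le hu hz) hz0.1 hne
  apply hS5
  obtain ⟨L, hL, hLe⟩ := exists_log hS1 hS2
  have hLn : ∀ z ∈ disc, ‖S z‖ = Real.exp (L z).re := fun z hz => by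
    rw [← hLe z hz, Complex.norm_exp]
  have hF0 : ∀ z ∈ disc, 0 ≤ (-L z).re := by
    intro z hz
    have h1 := hS3 z hz
    rw [hLn z hz, Real.exp_le_one_iff] at h1
    rw [Complex.neg_re]; linarith
  have h0d : (0 : ℂ) ∈ disc := mem_ball_self one_pos
  have key : ∀ ε : ℝ, 0 < ε → ε < 1 / 4 →
      (-L 0).re ≤ |M| * (Real.log (1 + ε) - Real.log (1 - 2 * ε)) := by
    intro ε hε hε1
    obtain ⟨E, hE, hcov, hlow⟩ := h ε hε
    have hκ0 : 0 ≤ Real.log (1 + ε) - Real.log (1 - 2 * ε) := by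
      have := Real.log_le_log (show (0 : ℝ) < 1 - 2 * ε by linarith)
        (show 1 - 2 * ε ≤ 1 + ε by linarith)
      linarith
    have h1 := cover_bound (F := fun z => -L z) hL.neg hF0 hE hκ0 (fun z hz => by
      have h2 := hlow z hz
      have h3 := hS4 z (hE hz)
      have h4 : (1 - 2 * ε) ≤ ‖S z‖ * (1 + ε) := h2.trans (by gcongr)
      rw [hLn z (hE hz)] at h4
      have h5 := Real.log_le_log (show (0 : ℝ) < 1 - 2 * ε by linarith) h4
      rw [Real.log_mul (Real.exp_ne_zero _) (by linarith), Real.log_exp] at h5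
      simp only [Complex.neg_re]
      linarith) hcov
    refine h1.trans (mul_le_mul_of_nonneg_right (le_abs_self M) hκ0)
  have hlim : Tendsto (fun ε : ℝ => |M| * (Real.log (1 + ε) - Real.log (1 - 2 * ε))) (𝓝[>] 0)
      (𝓝 (|M| * (Real.log (1 + 0) - Real.log (1 - 2 * 0)))) := by
    apply Tendsto.mono_left _ nhdsWithin_le_nhds
    apply ContinuousAt.tendsto
    have h1 : ContinuousAt (fun ε : ℝ => Real.log (1 + ε)) 0 :=
      ContinuousAt.log (by fun_prop) (by norm_num)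
    have h2 : ContinuousAt (fun ε : ℝ => Real.log (1 - 2 * ε)) 0 :=
      ContinuousAt.log (by fun_prop) (by norm_num)
    exact continuousAt_const.mul (h1.sub h2)
  have hle : (-L 0).re ≤ |M| * (Real.log (1 + 0) - Real.log (1 - 2 * 0)) := by
    refine ge_of_tendsto hlim ?_
    filter_upwards [Ioo_mem_nhdsGT (show (0 : ℝ) < 1 / 4 by norm_num)] with ε hε
    exact key ε hε.1 hε.2
  simp only [add_zero, mul_zero, sub_zero, Real.log_one, sub_self, Complex.neg_re] at hle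
  have h2 := hF0 0 h0d
  rw [Complex.neg_re] at h2
  rw [hLn 0 h0d]
  have h3 : (L 0).re = 0 := by linarith
  rw [h3, Real.exp_zero]

end Pool.Agent.Helper34.Dg
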