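import Pool.Agent.Helper34.Dg.Final

set_option autoImplicit false

open MeasureTheory Filter Topology Complex Metric Set AddCircle
open scoped Interval ComplexConjugate ENNReal

namespace Pool.Agent.Helper34.Dg

lemma dom_of_blaschke {D : Submodule ℂ (T →ₘ[mu] ℂ)} (hD : IsDouglas D)
    (h1 : ∀ u, IsInner u → InvIn D u → IsBlaschke u) {E : Set ℂ} {c : ℂ → ℂ} (hc : IsInner c)
    (hcD : InvIn D c) {δ : ℝ} (hδ : 0 < δ) (hE : lev c δ ⊆ E) : Dominates E :=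
  (one_two hD hc hcD h1 hδ).mono hE

lemma bdd_of_dom {E : Set ℂ} (h : Dominates E) : BddDominates E :=
  fun u hu h0 ⟨M, hM⟩ => ⟨M, h u hu h0 M hM⟩

lemma nosing_of_bdd {E : Set ℂ} (h : BddDominates E) : NoSingular E := by
  rintro S hS hS0 ⟨c, hc, hcE⟩
  have hSd : DifferentiableOn ℂ S disc := hS.1.1
  obtain ⟨M, hM⟩ := h (fun z => -Real.log ‖S z‖) (by
      intro x hx
      have h1 := (ana hSd hx).harmonicAt_log_norm (hS0 x hx)
      have h2 := h1.const_smul (c := (-1 : ℝ))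
      refine (InnerProductSpace.harmonicAt_congr_nhds (Eventually.of_forall fun z => ?_)).1 h2
      simp) (fun z hz => by
      have := Real.log_nonpos (norm_nonneg _) (inner_le hS hz)
      linarith) ⟨-Real.log c, fun z hz => by
        have := Real.log_le_log hc (hcE z hz)
        linarith⟩
  have hlow : ∀ z ∈ disc, Real.exp (-M) ≤ ‖S z‖ := by
    intro z hz
    have h1 := hM z hz
    have h2 : 0 < ‖S z‖ := norm_pos_iff.2 (hS0 z hz)
    rw [← Real.exp_log h2, Real.exp_le_exp]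
    linarith
  have hinv : IsInner (fun z => (S z)⁻¹) := by
    refine ⟨⟨hSd.inv hS0, (Real.exp (-M))⁻¹, fun z hz => ?_⟩, ?_⟩
    · rw [norm_inv]
      exact inv_anti₀ (Real.exp_pos _) (hlow z hz)
    · filter_upwards [hS.2] with t ht
      obtain ⟨w, hw, hwt⟩ := ht
      have hw0 : w ≠ 0 := by
        intro h0; rw [h0, norm_zero] at hw; norm_num at hw
      exact ⟨w⁻¹, by rw [norm_inv, hw, inv_one], hwt.inv₀ hw0⟩
  have hone : ∀ z ∈ disc, ‖S z‖ = 1 := by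
    intro z hz
    have h1 := inner_le hinv hz
    have h2 := inner_le hS hz
    have h3 : 0 < ‖S z‖ := norm_pos_iff.2 (hS0 z hz)
    rw [norm_inv] at h1
    have h4 : 1 ≤ ‖S z‖ := by
      by_contra hc'
      push Not at hc'
      have := (one_lt_inv₀ h3).2 hc'
      linarith
    exact le_antisymm h2 h4
  have hcon := Complex.eqOn_of_isPreconnected_of_isMaxOn_norm (f := S) (U := disc) (c := 0)
      (convex_ball _ _).isPreconnected isOpen_ball hSd (mem_ball_self one_pos) (by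
        intro z hz
        simp only [Function.comp_apply, Set.mem_ofPred_eq]
        rw [hone z hz, hone 0 (mem_ball_self one_pos)])
  exact ⟨S 0, fun z hz => hcon hz⟩

lemma blaschke_of_nosing {u : ℂ → ℂ} (hu : IsInner u) {E : Set ℂ} (hEd : E ⊆ disc)
    (hE : NoSingular E) {c : ℝ} (hc : 0 < c) (hcE : ∀ z ∈ E, c ≤ ‖u z‖) : IsBlaschke u := by
  obtain ⟨z0, hz0⟩ := lev_nonempty hu one_pos
  have hne : u z0 ≠ 0 := by
    intro h0
    have := hz0.2
    rw [h0, norm_zero] at this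
    norm_num at this
  obtain ⟨S, hS1, hS2, hS3, hS4, hS5⟩ := factor hu.1.1 (fun z hz => inner_le hu hz) hz0.1 hne
  have hSB : BddHol S := ⟨hS1, 1, hS3⟩
  obtain ⟨sT, hsT, hse, hsb⟩ := bh_rep hSB
  have hS1' : ∀ᵐ t ∂mu, ‖sT t‖ = 1 := by
    filter_upwards [hu.2, hsb] with t ht1 ht2
    obtain ⟨w, hw, hwt⟩ := ht1
    refine le_antisymm ?_ ?_
    · refine le_of_tendsto ht2.norm ?_
      filter_upwards [Ioo_mem_left] with r hr
      exact hS3 _ (re1_mem hr.1.le hr.2 t)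
    · rw [← hw]
      refine le_of_tendsto_of_tendsto hwt.norm ht2.norm ?_
      filter_upwards [Ioo_mem_left] with r hr
      exact hS4 _ (re1_mem hr.1.le hr.2 t)
  have hSI : IsInner S := (Rep.of hsT hS1' hse).isInner
  obtain ⟨k, hk⟩ := hE S hSI hS2 ⟨c, hc, fun z hz => (hcE z hz).trans (hS4 z (hEd hz))⟩
  apply hS5
  rw [hk 0 (mem_ball_self one_pos)]
  obtain ⟨t, w, hw, hwt⟩ := hSI.2.exists
  have h1 : Tendsto (fun r : ℝ => S ((r : ℂ) * pt t)) (𝓝[<] 1) (𝓝 k) := by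
    refine tendsto_const_nhds.congr' ?_
    filter_upwards [Ioo_mem_left] with r hr
    exact (hk _ (re1_mem hr.1.le hr.2 t)).symm
  rw [tendsto_nhds_unique h1 hwt, hw]

lemma lev_sub (b : ℂ → ℂ) (δ : ℝ) : lev b δ ⊆ disc := fun _ h => h.1

lemma levs_sub (F : Finset (ℂ → ℂ)) (δ : ℝ) : levs F δ ⊆ disc := fun _ h => h.1

/-- the characterisation in terms of all invertible inner functions -/
theorem char_all {D : Submodule ℂ (T →ₘ[mu] ℂ)} (hD : IsDouglas D) :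
    List.TFAE [
      ∀ u, IsInner u → InvIn D u → IsBlaschke u,
      ∀ b, IsInner b → InvIn D b → ∀ δ : ℝ, 0 < δ → NoSingular (lev b δ),
      ∀ b, IsInner b → InvIn D b → ∀ δ : ℝ, 0 < δ → BddDominates (lev b δ),
      ∀ b, IsInner b → InvIn D b → ∀ δ : ℝ, 0 < δ → Dominates (lev b δ),
      ∀ b, IsInner b → InvIn D b → ∀ δ η : ℝ, 0 < δ → 0 < η → Covers (lev b δ) (1 + η),
      ∃ M : ℝ, ∀ b, IsInner b → InvIn D b → ∀ δ : ℝ, 0 < δ → Covers (lev b δ) M] := by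
  tfae_have 1 → 4 := fun h1 b hb hbD δ hδ => dom_of_blaschke hD h1 hb hbD hδ subset_rfl
  tfae_have 4 → 5 := fun h b hb hbD δ η hδ hη =>
    covers_of_dominates (lev_sub b δ) (lev_nonempty hb hδ) (h b hb hbD δ hδ) hη
  tfae_have 5 → 6 := fun h => ⟨1 + 1, fun b hb hbD δ hδ => h b hb hbD δ 1 hδ one_pos⟩
  tfae_have 6 → 1 := by
    rintro ⟨M, hM⟩ u hu huD
    refine blaschke_of_covers hu (M := M) fun ε hε => ⟨lev u ε, lev_sub u ε, hM u hu huD ε hε,
      fun z hz => ?_⟩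
    have h1 := hz.2
    have h2 := norm_nonneg (u z)
    nlinarith
  tfae_have 4 → 3 := fun h b hb hbD δ hδ => bdd_of_dom (h b hb hbD δ hδ)
  tfae_have 3 → 2 := fun h b hb hbD δ hδ => nosing_of_bdd (h b hb hbD δ hδ)
  tfae_have 2 → 1 := fun h u hu huD => blaschke_of_nosing hu (lev_sub u (1 / 2))
    (h u hu huD (1 / 2) (by norm_num)) (c := 1 / 2) (by norm_num) fun z hz => by
      have := hz.2
      linarith
  tfae_finish

lemma gen_sat {D : Submodule ℂ (T →ₘ[mu] ℂ)} (hD : IsDouglas D) {B : Set (ℂ → ℂ)}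
    (hB : ∀ b ∈ B, IsInner b) (hgen : GeneratedBy D B) :
    ∀ u, IsInner u → InvIn D u → ∀ ε : ℝ, 0 < ε → ∃ F : Finset (ℂ → ℂ),
      (F : Set (ℂ → ℂ)) ⊆ B ∧ ∃ δ : ℝ, 0 < δ ∧ ∀ z ∈ levs F δ, 1 - 2 * ε ≤ ‖u z‖ * (1 + ε) := by
  intro u hu huD ε hε
  obtain ⟨c, hc, h1⟩ := gen_lev (B := cl B) (cl_inner hB)
    (fun b hb c hc => mul_mem (S := Submonoid (ℂ → ℂ)) hb hc) ⟨1, one_mem _⟩
    (cl_gen hD hB hgen) hu huD hε
  obtain ⟨F, hF, h2⟩ := cl_levs hB c hc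
  obtain ⟨δ, hδ, h3⟩ := h2 ε hε
  exact ⟨F, hF, δ, hδ, fun z hz => h1 z (h3 hz)⟩

/-- the characterisation in terms of a generating family -/
theorem char_gen {D : Submodule ℂ (T →ₘ[mu] ℂ)} (hD : IsDouglas D) {B : Set (ℂ → ℂ)}
    (hB : ∀ b ∈ B, IsInner b) (hgen : GeneratedBy D B) :
    List.TFAE [
      ∀ u, IsInner u → InvIn D u → IsBlaschke u,
      ∀ F : Finset (ℂ → ℂ), (F : Set (ℂ → ℂ)) ⊆ B → ∀ δ : ℝ, 0 < δ → NoSingular (levs F δ),
      ∀ F : Finset (ℂ → ℂ), (F : Set (ℂ → ℂ)) ⊆ B → ∀ δ : ℝ, 0 < δ → BddDominates (levs F δ),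
      ∀ F : Finset (ℂ → ℂ), (F : Set (ℂ → ℂ)) ⊆ B → ∀ δ : ℝ, 0 < δ → Dominates (levs F δ),
      ∀ F : Finset (ℂ → ℂ), (F : Set (ℂ → ℂ)) ⊆ B → ∀ δ η : ℝ, 0 < δ → 0 < η →
        Covers (levs F δ) (1 + η),
      ∃ M : ℝ, ∀ F : Finset (ℂ → ℂ), (F : Set (ℂ → ℂ)) ⊆ B → ∀ δ : ℝ, 0 < δ →
        Covers (levs F δ) M] := by
  have hsat := gen_sat hD hB hgen
  tfae_have 1 → 4 := fun h1 F hF δ hδ => dom_of_blaschke hD h1
    (prod_inner fun b hb => hB b (hF hb))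
    (prod_inv hD (fun b hb => hB b (hF hb)) fun b hb => hgen.1 b (hF hb)) hδ
    (lev_prod (fun b hb => hB b (hF hb)) δ)
  tfae_have 4 → 5 := fun h F hF δ η hδ hη =>
    covers_of_dominates (levs_sub F δ)
      ((lev_nonempty (prod_inner fun b hb => hB b (hF hb)) hδ).mono
        (lev_prod (fun b hb => hB b (hF hb)) δ)) (h F hF δ hδ) hη
  tfae_have 5 → 6 := fun h => ⟨1 + 1, fun F hF δ hδ => h F hF δ 1 hδ one_pos⟩
  tfae_have 6 → 1 := by
    rintro ⟨M, hM⟩ u hu huD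
    refine blaschke_of_covers hu (M := M) fun ε hε => ?_
    obtain ⟨F, hF, δ, hδ, h1⟩ := hsat u hu huD ε hε
    exact ⟨levs F δ, levs_sub F δ, hM F hF δ hδ, h1⟩
  tfae_have 4 → 3 := fun h F hF δ hδ => bdd_of_dom (h F hF δ hδ)
  tfae_have 3 → 2 := fun h F hF δ hδ => nosing_of_bdd (h F hF δ hδ)
  tfae_have 2 → 1 := by
    intro h u hu huD
    obtain ⟨F, hF, δ, hδ, h1⟩ := hsat u hu huD (1 / 4) (by norm_num)
    refine blaschke_of_nosing hu (levs_sub F δ) (h F hF δ hδ) (c := 2 / 5) (by norm_num)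
      fun z hz => ?_
    have := h1 z hz
    linarith
  tfae_finish

/-- the characterisation in terms of a single generator -/
theorem char_one {D : Submodule ℂ (T →ₘ[mu] ℂ)} (hD : IsDouglas D) {b : ℂ → ℂ}
    (hb : IsInner b) (hgen : GeneratedBy D {b}) :
    List.TFAE [
      ∀ u, IsInner u → InvIn D u → IsBlaschke u,
      ∀ δ : ℝ, 0 < δ → NoSingular (lev b δ),
      ∀ δ : ℝ, 0 < δ → BddDominates (lev b δ),
      ∀ δ : ℝ, 0 < δ → Dominates (lev b δ),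
      ∀ δ η : ℝ, 0 < δ → 0 < η → Covers (lev b δ) (1 + η),
      ∃ M : ℝ, ∀ δ : ℝ, 0 < δ → Covers (lev b δ) M] := by
  have hsat : ∀ u, IsInner u → InvIn D u → ∀ ε : ℝ, 0 < ε →
      ∃ δ : ℝ, 0 < δ ∧ ∀ z ∈ lev b δ, 1 - 2 * ε ≤ ‖u z‖ * (1 + ε) := by
    intro u hu huD ε hε
    obtain ⟨F, hF, δ, hδ, h⟩ := gen_sat hD (B := {b}) (by
      intro c hc
      rw [Set.mem_singleton_iff.1 hc]
      exact hb) hgen u hu huD ε hε
    refine ⟨δ, hδ, fun z hz => h z ⟨hz.1, fun c hc => ?_⟩⟩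
    rw [Set.mem_singleton_iff.1 (hF hc)]
    exact hz.2
  have hbD : InvIn D b := hgen.1 b rfl
  tfae_have 1 → 4 := fun h1 δ hδ => dom_of_blaschke hD h1 hb hbD hδ subset_rfl
  tfae_have 4 → 5 := fun h δ η hδ hη =>
    covers_of_dominates (lev_sub b δ) (lev_nonempty hb hδ) (h δ hδ) hη
  tfae_have 5 → 6 := fun h => ⟨1 + 1, fun δ hδ => h δ 1 hδ one_pos⟩
  tfae_have 6 → 1 := by
    rintro ⟨M, hM⟩ u hu huD
    refine blaschke_of_covers hu (M := M) fun ε hε => ?_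
    obtain ⟨δ, hδ, h1⟩ := hsat u hu huD ε hε
    exact ⟨lev b δ, lev_sub b δ, hM δ hδ, h1⟩
  tfae_have 4 → 3 := fun h δ hδ => bdd_of_dom (h δ hδ)
  tfae_have 3 → 2 := fun h δ hδ => nosing_of_bdd (h δ hδ)
  tfae_have 2 → 1 := by
    intro h u hu huD
    obtain ⟨δ, hδ, h1⟩ := hsat u hu huD (1 / 4) (by norm_num)
    refine blaschke_of_nosing hu (lev_sub b δ) (h δ hδ) (c := 2 / 5) (by norm_num)
      fun z hz => ?_
    have := h1 z hz
    linarith
  tfae_finish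

end Pool.Agent.Helper34.Dg
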