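import Pool.Agent.Helper34.Dg.Fros

set_option autoImplicit false

open MeasureTheory Filter Topology Complex Metric Set
open scoped ComplexConjugate ENNReal

namespace Pool.Agent.Helper34.Dg

/-- Frostman's theorem: some shift of an inner function is a Blaschke product -/
theorem frostman {u : ℂ → ℂ} (hu : IsInner u) : ∃ a : ℂ, ‖a‖ = 1 / 2 ∧ IsBlaschke (shift u a) := by
  set A : T → ℂ := fun θ => ((1 / 2 : ℝ) : ℂ) * e 1 θ with hAdef
  have hA : ∀ θ, ‖A θ‖ = 1 / 2 := by
    intro θ
    rw [hAdef]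
    simp only
    rw [norm_mul, Complex.norm_real, e_norm]
    norm_num
  have hA1 : ∀ θ, ‖A θ‖ < 1 := fun θ => by rw [hA]; norm_num
  have hAc : Continuous A := continuous_const.mul (e_cont 1)
  set r : ℕ → ℝ := fun n => 1 - 1 / ((n : ℝ) + 2) with hrdef
  have hr : ∀ n, 0 < r n ∧ r n < 1 := by
    intro n
    have h1 : (0 : ℝ) < (n : ℝ) + 2 := by positivity
    have h2 : 1 / ((n : ℝ) + 2) < 1 := by
      rw [div_lt_one h1]; linarith [(Nat.cast_nonneg n : (0 : ℝ) ≤ n)]
    have h3 : 0 < 1 / ((n : ℝ) + 2) := by positivity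
    rw [hrdef]
    constructor <;> simp only <;> linarith
  have hrt : Tendsto r atTop (𝓝[<] 1) := by
    refine tendsto_nhdsWithin_iff.2 ⟨?_, Eventually.of_forall fun n => (hr n).2⟩
    have h1 : Tendsto (fun n : ℕ => 1 / ((n : ℝ) + 2)) atTop (𝓝 0) := by
      have h2 := tendsto_natCast_atTop_atTop (R := ℝ)
      have h3 : Tendsto (fun n : ℕ => (n : ℝ) + 2) atTop atTop :=
        tendsto_atTop_add_const_right _ _ h2
      have h4 := h3.inv_tendsto_atTop
      refine h4.congr fun n => ?_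
      rw [Pi.inv_apply, one_div]
    have h5 := h1.const_sub 1
    rw [sub_zero] at h5
    exact h5
  have hz : ∀ n t, ((r n : ℝ) : ℂ) * pt t ∈ disc := fun n t => re1_mem (hr n).1.le (hr n).2 t
  have hptc : Continuous pt := e_cont 1
  have huc : ∀ n, Continuous fun t : T => u (((r n : ℝ) : ℂ) * pt t) := fun n =>
    hu.1.1.continuousOn.comp_continuous (continuous_const.mul hptc) (hz n)
  have hule : ∀ n t, ‖u (((r n : ℝ) : ℂ) * pt t)‖ ≤ 1 := fun n t => inner_le hu (hz n t)
  set Φ : ℕ → T → T → ℝ≥0∞ := fun n θ t => Gf (shift u (A θ) (((r n : ℝ) : ℂ) * pt t)) with hΦdef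
  have hΦ : ∀ n, Measurable (Function.uncurry (Φ n)) := by
    intro n
    have hc : Continuous fun p : T × T => shift u (A p.1) (((r n : ℝ) : ℂ) * pt p.2) := by
      unfold shift
      refine Continuous.div ?_ ?_ fun p => sden_ne (hA1 p.1) (hule n p.2)
      · exact ((huc n).comp continuous_snd).sub (hAc.comp continuous_fst)
      · exact continuous_const.sub ((Complex.continuous_conj.comp (hAc.comp continuous_fst)).mul
          ((huc n).comp continuous_snd))
    exact Gf_meas.comp hc.measurable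
  have hΦi : ∀ n, Measurable fun θ => ∫⁻ t, Φ n θ t ∂mu := fun n => (hΦ n).lintegral_prod_right'
  set d : T → ℝ≥0∞ := fun θ => liminf (fun n => ∫⁻ t, Φ n θ t ∂mu) atTop with hd
  have hdm : Measurable d := Measurable.liminf hΦi
  have h1 : ∫⁻ θ, d θ ∂mu = 0 := by
    have h2 : ∫⁻ θ, d θ ∂mu ≤ liminf (fun n => ∫⁻ θ, ∫⁻ t, Φ n θ t ∂mu ∂mu) atTop :=
      lintegral_liminf_le hΦi
    have h3 : ∀ n, ∫⁻ θ, ∫⁻ t, Φ n θ t ∂mu ∂mu =
        ∫⁻ t, ENNReal.ofReal (Real.log 2 - Real.posLog (2 * ‖u (((r n : ℝ) : ℂ) * pt t)‖)) ∂mu := by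
      intro n
      rw [lintegral_lintegral_swap (hΦ n).aemeasurable]
      congr 1
      funext t
      exact avg (hule n t)
    have h4 : Tendsto (fun n => ∫⁻ t, ENNReal.ofReal (Real.log 2 -
        Real.posLog (2 * ‖u (((r n : ℝ) : ℂ) * pt t)‖)) ∂mu) atTop (𝓝 (∫⁻ t : T, 0 ∂mu)) := by
      refine tendsto_lintegral_of_dominated_convergence (fun _ => ENNReal.ofReal (Real.log 2))
        (fun n => ?_) (fun n => ?_) ?_ ?_
      · refine ENNReal.measurable_ofReal.comp (measurable_const.sub ?_)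
        have h5 : Continuous fun t : T => 2 * ‖u (((r n : ℝ) : ℂ) * pt t)‖ :=
          continuous_const.mul (huc n).norm
        exact (Real.continuous_posLog.comp h5).measurable
      · refine Eventually.of_forall fun t => ENNReal.ofReal_le_ofReal ?_
        have := Real.posLog_nonneg (x := 2 * ‖u (((r n : ℝ) : ℂ) * pt t)‖)
        linarith
      · simp
      · filter_upwards [hu.2] with t ht
        obtain ⟨w, hw, hwt⟩ := ht
        have h5 : Tendsto (fun n => ‖u (((r n : ℝ) : ℂ) * pt t)‖) atTop (𝓝 1) := by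
          have := (hwt.comp hrt).norm
          rw [hw] at this
          exact this
        have h6 : Tendsto (fun n => Real.log 2 - Real.posLog (2 * ‖u (((r n : ℝ) : ℂ) * pt t)‖))
            atTop (𝓝 (Real.log 2 - Real.posLog (2 * 1))) :=
          tendsto_const_nhds.sub ((Real.continuous_posLog.tendsto _).comp (h5.const_mul 2))
        have h7 : Real.log 2 - Real.posLog (2 * 1) = 0 := by
          rw [mul_one, Real.posLog_eq_log (by norm_num), sub_self]
        rw [h7] at h6
        have h8 := (ENNReal.continuous_ofReal.tendsto _).comp h6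
        rw [ENNReal.ofReal_zero] at h8
        exact h8
    simp_rw [h3] at h2
    rw [h4.liminf_eq] at h2
    simpa using h2
  have h5 : d =ᵐ[mu] 0 := (lintegral_eq_zero_iff hdm).1 h1
  obtain ⟨θ, hθ⟩ := h5.exists
  refine ⟨A θ, hA θ, ?_⟩
  have hs := shift_inner hu (hA1 θ)
  obtain ⟨z0, hz0⟩ := lev_nonempty hs one_pos
  have hne : shift u (A θ) z0 ≠ 0 := by
    intro h0
    have := hz0.2
    rw [h0, norm_zero] at this
    norm_num at this
  obtain ⟨S, hS1, hS2, hS3, hS4, hS5⟩ := factor hs.1.1 (fun z hz => inner_le hs hz) hz0.1 hne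
  apply hS5
  obtain ⟨L, hL, hLe⟩ := exists_log hS1 hS2
  have hLn : ∀ z ∈ disc, ‖S z‖ = Real.exp (L z).re := fun z hz => by
    rw [← hLe z hz, Complex.norm_exp]
  have hF0 : ∀ z ∈ disc, 0 ≤ -(L z).re := by
    intro z hz
    have h1 := hS3 z hz
    rw [hLn z hz, Real.exp_le_one_iff] at h1
    linarith
  have h0d : (0 : ℂ) ∈ disc := mem_ball_self one_pos
  have hle : ∀ n, ENNReal.ofReal (-(L 0).re) ≤ ∫⁻ t, Φ n θ t ∂mu := by
    intro n
    have hLc : Continuous fun t : T => -(L (((r n : ℝ) : ℂ) * pt t)).re :=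
      (Complex.continuous_re.comp (hL.continuousOn.comp_continuous
        (continuous_const.mul hptc) (hz n))).neg
    have h6 := poisson hL.neg (hr n).1 (hr n).2 h0d
    have h7 : -(L 0).re = ∫ t, -(L (((r n : ℝ) : ℂ) * pt t)).re ∂mu := by
      have h8 : (-L) (((r n : ℝ) : ℂ) * 0) = -L 0 := by rw [mul_zero]; rfl
      rw [h8, Complex.neg_re] at h6
      rw [h6]
      congr 1
      funext t
      rw [pker_zero, mul_one]
      rfl
    rw [h7, ofReal_integral_eq_lintegral_ofReal (cont_intR hLc)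
      (Eventually.of_forall fun t => hF0 _ (hz n t))]
    refine lintegral_mono fun t => ?_
    rw [hΦdef]
    simp only [Gf]
    split_ifs with h9
    · exact le_top
    · apply ENNReal.ofReal_le_ofReal
      have h10 : 0 < ‖shift u (A θ) (((r n : ℝ) : ℂ) * pt t)‖ := norm_pos_iff.2 h9
      have h11 := Real.log_le_log h10 (hS4 _ (hz n t))
      rw [hLn _ (hz n t), Real.log_exp] at h11
      linarith
  have hd0 : ENNReal.ofReal (-(L 0).re) ≤ d θ := by
    refine le_liminf_of_le (by isBoundedDefault) ?_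
    exact Eventually.of_forall hle
  rw [hθ, Pi.zero_apply] at hd0
  have h12 : -(L 0).re ≤ 0 := by
    exact ENNReal.ofReal_eq_zero.1 (nonpos_iff_eq_zero.1 hd0)
  have h13 := hF0 0 h0d
  rw [hLn 0 h0d]
  have h14 : (L 0).re = 0 := by linarith
  rw [h14, Real.exp_zero]

end Pool.Agent.Helper34.Dg
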