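import Pool.Agent.Helper34.Dg.Zer
import Pool.Agent.Helper34.Dg.Fros2

set_option autoImplicit false

open MeasureTheory Filter Topology Complex Metric Set
open scoped ComplexConjugate ENNReal

namespace Pool.Agent.Helper34.Dg

lemma exists_ne {u : ℂ → ℂ} (hu : IsInner u) : ∃ z0 ∈ disc, u z0 ≠ 0 := by
  obtain ⟨z0, hz0⟩ := lev_nonempty hu one_pos
  refine ⟨z0, hz0.1, fun h0 => ?_⟩
  have := hz0.2
  rw [h0, norm_zero] at this
  norm_num at this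

lemma zs_nonneg {b : ℂ → ℂ} (h : IsBlaschke b) {z : ℂ} (hz : z ∈ disc) : 0 ≤ zsum b z := by
  obtain ⟨z0, hz0, hne⟩ := exists_ne h.inner
  exact zsum_nonneg h.inner.1.1 (fun z hz => inner_le h.inner hz) hz0 hne hz

lemma zs_ge {b : ℂ → ℂ} (h : IsBlaschke b) {z : ℂ} (hz : z ∈ disc) :
    1 - zsum b z ≤ ‖b z‖ ^ 2 := by
  obtain ⟨z0, hz0, hne⟩ := exists_ne h.inner
  have h1 := BP_ge h.inner.1.1 (fun z hz => inner_le h.inner hz) hz0 hne hz
  have h2 := BP_le_of_blaschke h hz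
  have h3 := norm_nonneg (BP b z)
  have h4 : ‖BP b z‖ ^ 2 ≤ ‖b z‖ ^ 2 := by gcongr
  linarith

lemma zs_le {b : ℂ → ℂ} (h : IsBlaschke b) {z : ℂ} (hz : z ∈ disc) (hbz : b z ≠ 0) :
    zsum b z ≤ -2 * Real.log ‖b z‖ := by
  obtain ⟨z0, hz0, hne⟩ := exists_ne h.inner
  exact zsum_le h.inner.1.1 (fun z hz => inner_le h.inner hz) hz0 hne hz hbz

lemma zlev_sub {b : ℂ → ℂ} (h : IsBlaschke b) (δ : ℝ) : zlev b δ ⊆ lev b δ := by
  rintro z ⟨hz, hzs⟩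
  refine ⟨hz, ?_⟩
  have h1 := zs_ge h hz
  have h2 := inner_le h.inner hz
  have h3 := norm_nonneg (b z)
  nlinarith

lemma lev_sub_zlev {b : ℂ → ℂ} (h : IsBlaschke b) {δ : ℝ} (hδ : 0 < δ) :
    ∃ δ' : ℝ, 0 < δ' ∧ lev b δ' ⊆ zlev b δ := by
  refine ⟨1 - Real.exp (-(δ / 2)), ?_, ?_⟩
  · have : Real.exp (-(δ / 2)) < 1 := Real.exp_lt_one_iff.2 (by linarith)
    linarith
  · rintro z ⟨hz, hzl⟩
    refine ⟨hz, ?_⟩
    have h1 : Real.exp (-(δ / 2)) < ‖b z‖ := by linarith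
    have h2 : 0 < ‖b z‖ := (Real.exp_pos _).trans h1
    have h3 := zs_le h hz (norm_pos_iff.1 h2)
    have h4 := Real.log_lt_log (Real.exp_pos _) h1
    rw [Real.log_exp] at h4
    linarith

lemma zset_sub {F : Finset (ℂ → ℂ)} (hF : ∀ b ∈ F, IsBlaschke b) (δ : ℝ) :
    zset F δ ⊆ levs F δ := by
  rintro z ⟨hz, hzs⟩
  refine ⟨hz, fun b hb => ?_⟩
  have h1 : zsum b z ≤ ∑ c ∈ F, zsum c z :=
    Finset.single_le_sum (f := fun c => zsum c z) (fun c hc => zs_nonneg (hF c hc) hz) hb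
  exact (zlev_sub (hF b hb) δ ⟨hz, h1.trans_lt hzs⟩).2

lemma levs_sub_zset {F : Finset (ℂ → ℂ)} (hF : ∀ b ∈ F, IsBlaschke b) {δ : ℝ} (hδ : 0 < δ) :
    ∃ δ' : ℝ, 0 < δ' ∧ levs F δ' ⊆ zset F δ := by
  have hc : (0 : ℝ) < (F.card : ℝ) + 1 := by positivity
  refine ⟨1 - Real.exp (-(δ / (2 * ((F.card : ℝ) + 1)))), ?_, ?_⟩
  · have : Real.exp (-(δ / (2 * ((F.card : ℝ) + 1)))) < 1 := Real.exp_lt_one_iff.2 (by
      have : 0 < δ / (2 * ((F.card : ℝ) + 1)) := by positivity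
      linarith)
    linarith
  · rintro z ⟨hz, hzl⟩
    refine ⟨hz, ?_⟩
    have h0 : ∀ b ∈ F, zsum b z ≤ δ / ((F.card : ℝ) + 1) := by
      intro b hb
      have h1 : Real.exp (-(δ / (2 * ((F.card : ℝ) + 1)))) < ‖b z‖ := by
        have := hzl b hb
        linarith
      have h2 : 0 < ‖b z‖ := (Real.exp_pos _).trans h1
      have h3 := zs_le (hF b hb) hz (norm_pos_iff.1 h2)
      have h4 := Real.log_lt_log (Real.exp_pos _) h1
      rw [Real.log_exp] at h4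
      have h5 : δ / (2 * ((F.card : ℝ) + 1)) = δ / ((F.card : ℝ) + 1) / 2 := by
        field_simp
      rw [h5] at h4
      linarith
    calc ∑ b ∈ F, zsum b z ≤ ∑ _b ∈ F, δ / ((F.card : ℝ) + 1) := Finset.sum_le_sum h0
      _ = F.card * (δ / ((F.card : ℝ) + 1)) := by rw [Finset.sum_const, nsmul_eq_mul]
      _ < δ := by
        rw [← mul_div_assoc, div_lt_iff₀ hc]
        nlinarith

lemma NoSingular.mono {E E' : Set ℂ} (h : NoSingular E) (hEE : E ⊆ E') : NoSingular E' :=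
  fun S hS h0 ⟨c, hc, hcE⟩ => h S hS h0 ⟨c, hc, fun z hz => hcE z (hEE hz)⟩

lemma Covers.mono {E E' : Set ℂ} {M : ℝ} (h : Covers E M) (hEE : E ⊆ E') : Covers E' M := by
  obtain ⟨s, w, h1, h2, h3⟩ := h
  exact ⟨s, w, fun z hz => ⟨hEE (h1 z hz).1, (h1 z hz).2⟩, h2, h3⟩

lemma transfer_all {D : Submodule ℂ (T →ₘ[mu] ℂ)} (hD : IsDouglas D) {P : Set ℂ → Prop}
    (hP : ∀ E E' : Set ℂ, P E → E ⊆ E' → P E') :
    (∀ b, IsInner b → InvIn D b → ∀ δ : ℝ, 0 < δ → P (lev b δ)) ↔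
      (∀ b, IsBlaschke b → InvIn D b → ∀ δ : ℝ, 0 < δ → P (zlev b δ)) := by
  constructor
  · intro h b hb hbD δ hδ
    obtain ⟨δ', hδ', hsub⟩ := lev_sub_zlev hb hδ
    exact hP _ _ (h b hb.inner hbD δ' hδ') hsub
  · intro h u hu huD δ hδ
    obtain ⟨a, ha, hBl⟩ := frostman hu
    exact hP _ _ (h _ hBl (shift_inv hD hu huD ha) _ (lt_min (by positivity : 0 < δ / 6) one_pos))
      ((zlev_sub hBl _).trans (lev_shift hu ha hδ))

lemma transfer_gen {B : Set (ℂ → ℂ)} (hB : ∀ b ∈ B, IsBlaschke b) {P : Set ℂ → Prop}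
    (hP : ∀ E E' : Set ℂ, P E → E ⊆ E' → P E') :
    (∀ F : Finset (ℂ → ℂ), (F : Set (ℂ → ℂ)) ⊆ B → ∀ δ : ℝ, 0 < δ → P (levs F δ)) ↔
      (∀ F : Finset (ℂ → ℂ), (F : Set (ℂ → ℂ)) ⊆ B → ∀ δ : ℝ, 0 < δ → P (zset F δ)) := by
  constructor
  · intro h F hF δ hδ
    obtain ⟨δ', hδ', hsub⟩ := levs_sub_zset (fun b hb => hB b (hF hb)) hδ
    exact hP _ _ (h F hF δ' hδ') hsub
  · intro h F hF δ hδ
    exact hP _ _ (h F hF δ hδ) (zset_sub (fun b hb => hB b (hF hb)) δ)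

/-- characterisation through the zeros of the invertible Blaschke products -/
theorem zchar_all {D : Submodule ℂ (T →ₘ[mu] ℂ)} (hD : IsDouglas D) :
    List.TFAE [
      ∀ u, IsInner u → InvIn D u → IsBlaschke u,
      ∀ b, IsBlaschke b → InvIn D b → ∀ δ : ℝ, 0 < δ → NoSingular (zlev b δ),
      ∀ b, IsBlaschke b → InvIn D b → ∀ δ : ℝ, 0 < δ → BddDominates (zlev b δ),
      ∀ b, IsBlaschke b → InvIn D b → ∀ δ : ℝ, 0 < δ → Dominates (zlev b δ),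
      ∀ b, IsBlaschke b → InvIn D b → ∀ δ η : ℝ, 0 < δ → 0 < η → Covers (zlev b δ) (1 + η),
      ∃ M : ℝ, ∀ b, IsBlaschke b → InvIn D b → ∀ δ : ℝ, 0 < δ → Covers (zlev b δ) M] := by
  have h := char_all hD
  have e2 := transfer_all hD (P := NoSingular) fun E E' h hE => h.mono hE
  have e3 := transfer_all hD (P := BddDominates) fun E E' h hE => h.mono hE
  have e4 := transfer_all hD (P := Dominates) fun E E' h hE => h.mono hE
  have e5 : ∀ η : ℝ, _ := fun η =>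
    transfer_all hD (P := fun E => Covers E (1 + η)) fun E E' h hE => h.mono hE
  have e6 : ∀ M : ℝ, _ := fun M =>
    transfer_all hD (P := fun E => Covers E M) fun E E' h hE => h.mono hE
  tfae_have 1 ↔ 2 := (h.out 0 1).trans e2
  tfae_have 1 ↔ 3 := (h.out 0 2).trans e3
  tfae_have 1 ↔ 4 := (h.out 0 3).trans e4
  tfae_have 1 ↔ 5 := by
    refine (h.out 0 4).trans ?_
    constructor
    · intro h b hb hbD δ η hδ hη
      exact (e5 η).1 (fun b hb hbD δ hδ => h b hb hbD δ η hδ hη) b hb hbD δ hδ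
    · intro h b hb hbD δ η hδ hη
      exact (e5 η).2 (fun b hb hbD δ hδ => h b hb hbD δ η hδ hη) b hb hbD δ hδ
  tfae_have 1 ↔ 6 := by
    exact (h.out 0 5).trans (exists_congr fun M => e6 M)
  tfae_finish

/-- characterisation through the zeros of generating Blaschke products -/
theorem zchar_gen {D : Submodule ℂ (T →ₘ[mu] ℂ)} (hD : IsDouglas D) {B : Set (ℂ → ℂ)}
    (hB : ∀ b ∈ B, IsBlaschke b) (hgen : GeneratedBy D B) :
    List.TFAE [
      ∀ u, IsInner u → InvIn D u → IsBlaschke u,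
      ∀ F : Finset (ℂ → ℂ), (F : Set (ℂ → ℂ)) ⊆ B → ∀ δ : ℝ, 0 < δ → NoSingular (zset F δ),
      ∀ F : Finset (ℂ → ℂ), (F : Set (ℂ → ℂ)) ⊆ B → ∀ δ : ℝ, 0 < δ → BddDominates (zset F δ),
      ∀ F : Finset (ℂ → ℂ), (F : Set (ℂ → ℂ)) ⊆ B → ∀ δ : ℝ, 0 < δ → Dominates (zset F δ),
      ∀ F : Finset (ℂ → ℂ), (F : Set (ℂ → ℂ)) ⊆ B → ∀ δ η : ℝ, 0 < δ → 0 < η →
        Covers (zset F δ) (1 + η),
      ∃ M : ℝ, ∀ F : Finset (ℂ → ℂ), (F : Set (ℂ → ℂ)) ⊆ B → ∀ δ : ℝ, 0 < δ →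
        Covers (zset F δ) M] := by
  have h := char_gen hD (fun b hb => (hB b hb).inner) hgen
  have e2 := transfer_gen hB (P := NoSingular) fun E E' h hE => h.mono hE
  have e3 := transfer_gen hB (P := BddDominates) fun E E' h hE => h.mono hE
  have e4 := transfer_gen hB (P := Dominates) fun E E' h hE => h.mono hE
  have e5 : ∀ η : ℝ, _ := fun η =>
    transfer_gen hB (P := fun E => Covers E (1 + η)) fun E E' h hE => h.mono hE
  have e6 : ∀ M : ℝ, _ := fun M =>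
    transfer_gen hB (P := fun E => Covers E M) fun E E' h hE => h.mono hE
  tfae_have 1 ↔ 2 := (h.out 0 1).trans e2
  tfae_have 1 ↔ 3 := (h.out 0 2).trans e3
  tfae_have 1 ↔ 4 := (h.out 0 3).trans e4
  tfae_have 1 ↔ 5 := by
    refine (h.out 0 4).trans ?_
    constructor
    · intro h F hF δ η hδ hη
      exact (e5 η).1 (fun F hF δ hδ => h F hF δ η hδ hη) F hF δ hδ
    · intro h F hF δ η hδ hη
      exact (e5 η).2 (fun F hF δ hδ => h F hF δ η hδ hη) F hF δ hδ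
  tfae_have 1 ↔ 6 := by
    exact (h.out 0 5).trans (exists_congr fun M => e6 M)
  tfae_finish

end Pool.Agent.Helper34.Dg
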