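import Pool.Agent.Helper34.Dg.Defs

set_option autoImplicit false

namespace Pool.Agent.Helper34.Dg

open MeasureTheory Filter Topology
open scoped ComplexConjugate

/-- The part of the disc on which every member of the finite family `F` has modulus greater than
`1 - δ`. -/
def levs (F : Finset (ℂ → ℂ)) (δ : ℝ) : Set ℂ := {z | z ∈ disc ∧ ∀ b ∈ F, 1 - δ < ‖b z‖}

/-- No nonconstant zero-free inner function (that is, no nonconstant singular inner function) is
bounded away from zero on `E`. -/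
def NoSingular (E : Set ℂ) : Prop :=
  ∀ S : ℂ → ℂ, IsInner S → (∀ z ∈ disc, S z ≠ 0) → (∃ c : ℝ, 0 < c ∧ ∀ z ∈ E, c ≤ ‖S z‖) →
    ∃ k : ℂ, ∀ z ∈ disc, S z = k

/-- Every positive harmonic function on the disc that is bounded on `E` is bounded. -/
def BddDominates (E : Set ℂ) : Prop :=
  ∀ h : ℂ → ℝ, InnerProductSpace.HarmonicOnNhd h disc → (∀ z ∈ disc, 0 ≤ h z) →
    (∃ M : ℝ, ∀ z ∈ E, h z ≤ M) → ∃ M : ℝ, ∀ z ∈ disc, h z ≤ M

end Pool.Agent.Helper34.Dg
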