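import Pool.Agent.Helper34.Dg.Shift

set_option autoImplicit false

open MeasureTheory Filter Topology Complex Metric Set
open scoped ComplexConjugate ENNReal

namespace Pool.Agent.Helper34.Dg

lemma int_circ (V : ℂ → ℝ) (r : ℝ) :
    ∫ t, V (r * e 1 t) ∂mu = Real.circleAverage V 0 r := by
  rw [int_T V r]; rfl

lemma integrable_T {V : ℂ → ℝ} (hV : Measurable V) {r : ℝ} (h : CircleIntegrable V 0 r) :
    Integrable (fun t : T => V (r * e 1 t)) mu := by
  have hm : Measurable (fun t : T => V (r * e 1 t)) :=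
    hV.comp (continuous_const.mul (e_cont 1)).measurable
  rw [← P648.mu_eq_vol]
  rw [← (AddCircle.measurePreserving_mk (1 : ℝ) 0).integrable_comp hm.aestronglyMeasurable]
  have h1 : IntervalIntegrable (fun x : ℝ => V (circleMap 0 r ((2 * Real.pi) * x))) volume
      ((0 : ℝ) / (2 * Real.pi)) ((2 * Real.pi) / (2 * Real.pi)) := by
    have h2 : IntervalIntegrable (fun θ : ℝ => V (circleMap 0 r θ)) volume 0 (2 * Real.pi) := h
    exact h2.comp_mul_left (c := 2 * Real.pi)
  rw [zero_div, div_self (by positivity), intervalIntegrable_iff_integrableOn_Ioc_of_le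
    zero_le_one] at h1
  have h3 : ((fun t : T => V (r * e 1 t)) ∘ (QuotientAddGroup.mk : ℝ → T)) =
      fun x : ℝ => V (circleMap 0 r ((2 * Real.pi) * x)) := by
    funext x
    simp only [Function.comp_apply]
    have h4 : e 1 ((x : ℝ) : T) = Complex.exp ((2 * Real.pi * x : ℝ) * I) := e1_coe x
    have h5 : (QuotientAddGroup.mk x : T) = ((x : ℝ) : T) := rfl
    rw [h5, h4]
    simp [circleMap]
  rw [h3]
  have h6 : (0 : ℝ) + 1 = 1 := by norm_num
  rw [h6]
  exact h1

/-- minus the logarithm, with value infinity at zero -/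
noncomputable def Gf (w : ℂ) : ℝ≥0∞ := if w = 0 then ⊤ else ENNReal.ofReal (-Real.log ‖w‖)

lemma Gf_meas : Measurable Gf :=
  Measurable.ite (measurableSet_singleton 0) measurable_const
    (ENNReal.measurable_ofReal.comp (Real.measurable_log.comp measurable_norm).neg)

lemma null_pt (r : ℝ) (hr : r ≠ 0) (w : ℂ) : ∀ᵐ t ∂mu, (r : ℂ) * e 1 t ≠ w := by
  have h1 : {t : T | (r : ℂ) * e 1 t = w}.Subsingleton := by
    intro t ht s hs
    simp only [Set.mem_ofPred_eq] at ht hs
    have h2 : e 1 t = e 1 s := by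
      have hr' : (r : ℂ) ≠ 0 := by exact_mod_cast hr
      exact mul_left_cancel₀ hr' (ht.trans hs.symm)
    have h3 : AddCircle.toCircle t = AddCircle.toCircle s := by
      apply Subtype.ext
      have h4 := h2
      simp only [e, fourier_apply, one_smul] at h4
      exact h4
    exact AddCircle.injective_toCircle one_ne_zero h3
  rw [ae_iff]
  simp only [not_not]
  rw [← P648.mu_eq_vol]
  rcases h1.eq_empty_or_singleton with h2 | ⟨x, h2⟩
  · have h3 : {t : T | (r : ℂ) * e 1 t = w} = ∅ := h2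
    rw [h3]; simp
  · have h3 : {t : T | (r : ℂ) * e 1 t = w} = {x} := h2
    rw [h3, ← Metric.closedBall_zero, AddCircle.volume_closedBall]
    simp

/-- the average of `-log |(w - a) / (1 - conj a w)|` over `|a| = 1/2` -/
lemma avg {w : ℂ} (hw : ‖w‖ ≤ 1) :
    ∫⁻ t, Gf ((w - ((1 / 2 : ℝ) : ℂ) * e 1 t) / (1 - conj (((1 / 2 : ℝ) : ℂ) * e 1 t) * w)) ∂mu =
      ENNReal.ofReal (Real.log 2 - Real.posLog (2 * ‖w‖)) := by
  set V : ℂ → ℝ := fun a => Real.log ‖1 - conj w * a‖ - Real.log ‖a - w‖ with hV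
  have hVm : Measurable V := by
    refine Measurable.sub ?_ ?_
    · exact Real.measurable_log.comp (by fun_prop)
    · exact Real.measurable_log.comp (by fun_prop)
  have hi1 : CircleIntegrable (fun a => Real.log ‖a - w‖) 0 (1 / 2) :=
    circleIntegrable_log_norm_sub_const _
  have hi2 : CircleIntegrable (fun a => Real.log ‖1 - conj w * a‖) 0 (1 / 2) := by
    refine MeromorphicOn.circleIntegrable_log_norm fun z hz => ?_
    fun_prop
  have hVi : CircleIntegrable V 0 (1 / 2) := hi2.sub hi1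
  have hI := integrable_T hVm hVi
  have hnorm : ∀ a : ℂ, ‖1 - conj w * a‖ = ‖1 - conj a * w‖ := by
    intro a
    have : 1 - conj w * a = conj (1 - conj a * w) := by
      simp only [map_sub, map_one, map_mul, Complex.conj_conj]; ring
    rw [this, RCLike.norm_conj]
  have hVeq : ∀ a : ℂ, ‖a‖ < 1 → a ≠ w →
      Gf ((w - a) / (1 - conj a * w)) = ENNReal.ofReal (V a) ∧ 0 ≤ V a := by
    intro a ha haw
    have hd := sden_ne ha hw
    have hn : w - a ≠ 0 := sub_ne_zero.2 haw.symm
    have h1 : V a = -Real.log ‖(w - a) / (1 - conj a * w)‖ := by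
      rw [hV]
      simp only
      rw [norm_div, Real.log_div (norm_ne_zero_iff.2 hn) (norm_ne_zero_iff.2 hd), hnorm,
        norm_sub_rev a w]
      ring
    constructor
    · rw [Gf, if_neg (div_ne_zero hn hd), h1]
    · rw [h1]
      have := Real.log_nonpos (norm_nonneg _) (sh_le ha hw)
      linarith
  have hhalf : ∀ t : T, ‖((1 / 2 : ℝ) : ℂ) * e 1 t‖ < 1 := by
    intro t
    rw [norm_mul, Complex.norm_real, e_norm]
    norm_num
  have hae : ∀ᵐ t ∂mu, Gf ((w - ((1 / 2 : ℝ) : ℂ) * e 1 t) /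
      (1 - conj (((1 / 2 : ℝ) : ℂ) * e 1 t) * w)) =
      ENNReal.ofReal (V (((1 / 2 : ℝ) : ℂ) * e 1 t)) ∧ 0 ≤ V (((1 / 2 : ℝ) : ℂ) * e 1 t) := by
    filter_upwards [null_pt (1 / 2) (by norm_num) w] with t ht
    exact hVeq _ (hhalf t) ht
  rw [lintegral_congr_ae (hae.mono fun t ht => ht.1),
    ← ofReal_integral_eq_lintegral_ofReal hI (hae.mono fun t ht => ht.2), int_circ]
  congr 1
  have h1 : Real.circleAverage V 0 (1 / 2) =
      Real.circleAverage (fun a => Real.log ‖1 - conj w * a‖) 0 (1 / 2) -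
        Real.circleAverage (fun a => Real.log ‖a - w‖) 0 (1 / 2) :=
    Real.circleAverage_fun_sub hi2 hi1
  rw [h1, circleAverage_log_norm_sub_const_eq_log_radius_add_posLog (by norm_num)]
  have h2 : Real.circleAverage (fun a => Real.log ‖1 - conj w * a‖) 0 (1 / 2) =
      Real.log ‖1 - conj w * 0‖ := by
    refine AnalyticOnNhd.circleAverage_log_norm_of_ne_zero (g := fun a => 1 - conj w * a)
      (fun z _ => by fun_prop) fun a ha => ?_
    rw [mem_closedBall_zero_iff, abs_of_pos (by norm_num : (0 : ℝ) < 1 / 2)] at ha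
    have ha1 : ‖a‖ < 1 := by linarith
    have := norm_pos_iff.2 (sden_ne ha1 hw)
    rw [← hnorm] at this
    exact norm_pos_iff.1 this
  rw [h2, mul_zero, sub_zero, norm_one, Real.log_one, zero_sub, zero_sub, norm_neg]
  have h3 : Real.log (1 / 2) = -Real.log 2 := by rw [one_div, Real.log_inv]
  rw [h3]
  norm_num
  ring

end Pool.Agent.Helper34.Dg
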