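import Mathlib

set_option autoImplicit false

open MeasureTheory Filter Topology Complex Metric Set
open scoped Interval ComplexConjugate

namespace Pool.Agent.Helper34.Dg

/-- the real linear map `w ↦ a w + b conj w` -/
noncomputable def wL (a b : ℂ) : ℂ →L[ℝ] ℂ :=
  a • (ContinuousLinearMap.id ℝ ℂ) + b • (Complex.conjCLE : ℂ →L[ℝ] ℂ)

lemma wL_apply (a b w : ℂ) : wL a b w = a * w + b * conj w := by simp [wL]

lemma wL_ext {L : ℂ →L[ℝ] ℂ} {a b : ℂ} (h : ∀ w, L w = a * w + b * conj w) : L = wL a b := by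
  apply ContinuousLinearMap.ext
  intro w
  rw [h, wL_apply]

/-- `U` is real differentiable at `z` with Wirtinger derivatives `a`, `b` -/
def HasW (U : ℂ → ℂ) (a b z : ℂ) : Prop := HasFDerivAt (𝕜 := ℝ) U (wL a b) z

lemma HasW.mk' {U : ℂ → ℂ} {a b z : ℂ} {L : ℂ →L[ℝ] ℂ} (h : HasFDerivAt (𝕜 := ℝ) U L z)
    (he : ∀ w, L w = a * w + b * conj w) : HasW U a b z := by
  unfold HasW
  rw [← wL_ext he]
  exact h

lemma HasW.unique {U : ℂ → ℂ} {a b a' b' z : ℂ} (h : HasW U a b z) (h' : HasW U a' b' z) :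
    a = a' ∧ b = b' := by
  have e := HasFDerivAt.unique h h'
  have e1 : wL a b 1 = wL a' b' 1 := by rw [e]
  have e2 : wL a b I = wL a' b' I := by rw [e]
  rw [wL_apply, wL_apply] at e1 e2
  simp only [map_one, mul_one, conj_I] at e1 e2
  have hI : I * I = -1 := I_mul_I
  constructor
  · linear_combination (1 / 2 : ℂ) * e1 + (-(1 / 2 : ℂ) * I) * e2 + (1 / 2 * (a - a') - 1 / 2 * (b - b')) * hI
  · linear_combination (1 / 2 : ℂ) * e1 + ((1 / 2 : ℂ) * I) * e2 - (1 / 2 * (a - a') - 1 / 2 * (b - b')) * hI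

lemma HasW.of_deriv {f : ℂ → ℂ} {f' z : ℂ} (h : HasDerivAt f f' z) : HasW f f' 0 z := by
  have h1 := h.hasFDerivAt.restrictScalars ℝ
  refine HasW.mk' h1 fun w => ?_
  simp [mul_comm]

lemma HasW.conj {U : ℂ → ℂ} {a b z : ℂ} (h : HasW U a b z) :
    HasW (fun w => conj (U w)) (conj b) (conj a) z := by
  have h1 := (Complex.conjCLE.hasFDerivAt (x := U z)).comp z h
  refine HasW.mk' h1 fun w => ?_
  simp [wL_apply]
  ring

lemma HasW.add {U V : ℂ → ℂ} {a b c d z : ℂ} (h : HasW U a b z) (h' : HasW V c d z) :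
    HasW (fun w => U w + V w) (a + c) (b + d) z := by
  have h1 := HasFDerivAt.add h h'
  refine HasW.mk' h1 fun w => ?_
  simp [wL_apply]
  ring

lemma HasW.sub {U V : ℂ → ℂ} {a b c d z : ℂ} (h : HasW U a b z) (h' : HasW V c d z) :
    HasW (fun w => U w - V w) (a - c) (b - d) z := by
  have h1 := HasFDerivAt.sub h h'
  refine HasW.mk' h1 fun w => ?_
  simp [wL_apply]
  ring

lemma HasW.const (c z : ℂ) : HasW (fun _ => c) 0 0 z := by
  have := HasW.of_deriv (hasDerivAt_const z c)
  exact this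

lemma HasW.mul {U V : ℂ → ℂ} {a b c d z : ℂ} (h : HasW U a b z) (h' : HasW V c d z) :
    HasW (fun w => U w * V w) (a * V z + U z * c) (b * V z + U z * d) z := by
  have h1 := HasFDerivAt.mul h h'
  refine HasW.mk' h1 fun w => ?_
  simp [wL_apply]
  ring

lemma HasW.comp_analytic {U : ℂ → ℂ} {a b z : ℂ} {g : ℂ → ℂ} {g' : ℂ} (h : HasW U a b z)
    (hg : HasDerivAt g g' (U z)) : HasW (fun w => g (U w)) (g' * a) (g' * b) z := by
  have h1 := (hg.hasFDerivAt.restrictScalars ℝ).comp z h
  refine HasW.mk' h1 fun w => ?_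
  simp [wL_apply]
  ring

lemma HasW.inv {U : ℂ → ℂ} {a b z : ℂ} (h : HasW U a b z) (h0 : U z ≠ 0) :
    HasW (fun w => (U w)⁻¹) (-a / U z ^ 2) (-b / U z ^ 2) z := by
  have := h.comp_analytic (hasDerivAt_inv h0)
  convert this using 1 <;> field_simp

lemma HasW.congr {U : ℂ → ℂ} {a b c d z : ℂ} (h : HasW U a b z) (h1 : a = c) (h2 : b = d) :
    HasW U c d z := by
  subst h1 h2; exact h

lemma HasW.radial {V : ℂ → ℂ} {a b : ℂ} {s θ : ℝ} (h : HasW V a b (circleMap 0 s θ)) :
    HasDerivAt (fun s : ℝ => V (circleMap 0 s θ))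
      (a * Complex.exp (θ * I) + b * conj (Complex.exp (θ * I))) s := by
  have h1 : HasDerivAt (fun s : ℝ => circleMap 0 s θ) (Complex.exp (θ * I)) s := by
    have : HasDerivAt (fun s : ℝ => (s : ℂ)) 1 s := Complex.ofRealCLM.hasDerivAt (x := s)
    have h2 := this.mul_const (Complex.exp (θ * I))
    rw [one_mul] at h2
    have e1 : (fun s : ℝ => circleMap 0 s θ) = fun s : ℝ => (s : ℂ) * Complex.exp (θ * I) := by
      funext x
      simp [circleMap]
    rw [e1]
    exact h2
  have h4 : HasFDerivAt (𝕜 := ℝ) V (wL a b) (circleMap 0 s θ) := h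
  have h3 := HasFDerivAt.comp_hasDerivAt (f := fun s : ℝ => circleMap 0 s θ) s h4 h1
  rw [wL_apply] at h3
  exact h3

lemma HasW.angular {V : ℂ → ℂ} {a b : ℂ} {s θ : ℝ} (h : HasW V a b (circleMap 0 s θ)) :
    HasDerivAt (fun θ : ℝ => V (circleMap 0 s θ))
      (a * (circleMap 0 s θ * I) + b * conj (circleMap 0 s θ * I)) θ := by
  have h4 : HasFDerivAt (𝕜 := ℝ) V (wL a b) (circleMap 0 s θ) := h
  have h3 := HasFDerivAt.comp_hasDerivAt (f := fun θ : ℝ => circleMap 0 s θ) θ h4
    (hasDerivAt_circleMap 0 s θ)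
  rw [wL_apply] at h3
  exact h3

/-- unnormalised circle integral -/
noncomputable def Av {E : Type*} [NormedAddCommGroup E] [NormedSpace ℝ E] (V : ℂ → E) (s : ℝ) : E :=
  ∫ θ in (0 : ℝ)..2 * Real.pi, V (circleMap 0 s θ)

lemma circleMap_mem {s : ℝ} (h0 : -1 < s) (h1 : s < 1) (θ : ℝ) :
    circleMap 0 s θ ∈ ball (0 : ℂ) 1 := by
  rw [mem_ball_zero_iff, norm_circleMap_zero]
  exact abs_lt.2 ⟨h0, h1⟩

lemma continuous_circleMap2 : Continuous fun p : ℝ × ℝ => circleMap 0 p.1 p.2 := by
  unfold circleMap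
  fun_prop

lemma cont_circ {E : Type*} [NormedAddCommGroup E] [NormedSpace ℝ E] {V : ℂ → E}
    (hV : ContinuousOn V (ball 0 1)) {s : ℝ} (h0 : -1 < s) (h1 : s < 1) :
    Continuous fun θ : ℝ => V (circleMap 0 s θ) :=
  hV.comp_continuous (continuous_circleMap 0 s) (circleMap_mem h0 h1)

lemma Av_cont {E : Type*} [NormedAddCommGroup E] [NormedSpace ℝ E] {V : ℂ → E}
    (hV : ContinuousOn V (ball 0 1)) {r : ℝ} (h0 : 0 ≤ r) (h1 : r < 1) :
    ContinuousOn (Av V) (Icc 0 r) := by
  let cl : ℝ → ℝ := fun s => max 0 (min s r)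
  have hcl : Continuous cl := continuous_const.max (continuous_id.min continuous_const)
  have hcl0 : ∀ s, 0 ≤ cl s := fun s => le_max_left _ _
  have hcl1 : ∀ s, cl s ≤ r := fun s => max_le h0 (min_le_right _ _)
  have hc : Continuous (Function.uncurry fun (s θ : ℝ) => V (circleMap 0 (cl s) θ)) := by
    apply hV.comp_continuous (continuous_circleMap2.comp
      ((hcl.comp continuous_fst).prodMk continuous_snd))
    intro p
    have q0 := hcl0 p.1
    have q1 := hcl1 p.1
    exact circleMap_mem (by show -1 < cl p.1; linarith) (by show cl p.1 < 1; linarith) _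
  have h2 := intervalIntegral.continuous_parametric_intervalIntegral_of_continuous' (μ := volume)
    hc 0 (2 * Real.pi)
  refine h2.continuousOn.congr fun s hs => ?_
  have : cl s = s := by
    show max 0 (min s r) = s
    rw [min_eq_left hs.2, max_eq_right hs.1]
  simp only [Av, this]

lemma Av_bound {V : ℂ → ℂ} (hV : ContinuousOn V (ball 0 1)) {r : ℝ} (h1 : r < 1) :
    ∃ C : ℝ, 0 ≤ C ∧ ∀ z : ℂ, ‖z‖ ≤ r → ‖V z‖ ≤ C := by
  have hc : IsCompact (closedBall (0 : ℂ) r) := isCompact_closedBall _ _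
  obtain ⟨C, hC⟩ := hc.exists_bound_of_continuousOn
    (hV.mono (closedBall_subset_ball h1))
  refine ⟨max C 0, le_max_right _ _, fun z hz => (hC z ?_).trans (le_max_left _ _)⟩
  simpa using hz

/-- the two identities for circular means -/
lemma Av_angular {V V1 V2 : ℂ → ℂ} (h : ∀ z ∈ ball (0 : ℂ) 1, HasW V (V1 z) (V2 z) z)
    (c1 : ContinuousOn V1 (ball 0 1)) (c2 : ContinuousOn V2 (ball 0 1)) {s : ℝ} (h0 : 0 ≤ s)
    (h1 : s < 1) : Av (fun z => z * V1 z) s = Av (fun z => conj z * V2 z) s := by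
  have hm := fun θ => circleMap_mem (by linarith : -1 < s) h1 θ
  have hd : ∀ θ : ℝ, HasDerivAt (fun θ : ℝ => V (circleMap 0 s θ))
      (I * (circleMap 0 s θ * V1 (circleMap 0 s θ)) -
        I * (conj (circleMap 0 s θ) * V2 (circleMap 0 s θ))) θ := by
    intro θ
    convert (h _ (hm θ)).angular using 1
    rw [map_mul, conj_I]
    ring
  have cc1 : Continuous fun θ => circleMap 0 s θ * V1 (circleMap 0 s θ) :=
    (continuous_circleMap 0 s).mul (cont_circ c1 (by linarith) h1)
  have cc2 : Continuous fun θ => conj (circleMap 0 s θ) * V2 (circleMap 0 s θ) :=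
    (Complex.continuous_conj.comp (continuous_circleMap 0 s)).mul (cont_circ c2 (by linarith) h1)
  have h3 := intervalIntegral.integral_eq_sub_of_hasDerivAt (a := 0) (b := 2 * Real.pi)
    (fun θ _ => hd θ) (((continuous_const.mul cc1).sub
      (continuous_const.mul cc2)).intervalIntegrable _ _)
  have h4 : circleMap 0 s (2 * Real.pi) = circleMap 0 s 0 := by
    have := periodic_circleMap 0 s 0
    rwa [zero_add] at this
  rw [h4, sub_self, intervalIntegral.integral_sub, intervalIntegral.integral_const_mul,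
    intervalIntegral.integral_const_mul, ← mul_sub] at h3
  · have := (mul_eq_zero.1 h3).resolve_left I_ne_zero
    exact sub_eq_zero.1 this
  · exact (continuous_const.mul cc1).intervalIntegrable _ _
  · exact (continuous_const.mul cc2).intervalIntegrable _ _

lemma Av_radial {V V1 V2 : ℂ → ℂ} (h : ∀ z ∈ ball (0 : ℂ) 1, HasW V (V1 z) (V2 z) z)
    (c1 : ContinuousOn V1 (ball 0 1)) (c2 : ContinuousOn V2 (ball 0 1)) {s : ℝ} (h0 : 0 < s)
    (h1 : s < 1) : HasDerivAt (Av V) ((2 / s : ℂ) * Av (fun z => conj z * V2 z) s) s := by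
  obtain ⟨r, hr1, hr2⟩ := exists_between h1
  have c0 : ContinuousOn V (ball 0 1) := fun z hz =>
    (HasFDerivAt.continuousAt (h z hz)).continuousWithinAt
  obtain ⟨C1, hC10, hC1⟩ := Av_bound c1 hr2
  obtain ⟨C2, hC20, hC2⟩ := Av_bound c2 hr2
  have hs : Ioo (-r) r ∈ 𝓝 s := Ioo_mem_nhds (by linarith) hr1
  have hce : Continuous fun θ : ℝ => Complex.exp (θ * I) := by fun_prop
  have key := (intervalIntegral.hasDerivAt_integral_of_dominated_loc_of_deriv_le
    (F := fun (s θ : ℝ) => V (circleMap 0 s θ))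
    (F' := fun (s θ : ℝ) => V1 (circleMap 0 s θ) * Complex.exp (θ * I) +
      V2 (circleMap 0 s θ) * conj (Complex.exp (θ * I)))
    (x₀ := s) (s := Ioo (-r) r) (bound := fun _ => C1 + C2) (a := 0) (b := 2 * Real.pi)
    (μ := volume) hs ?_ ?_ ?_ ?_ ?_ ?_).2
  · have e1 : (∫ θ in (0 : ℝ)..2 * Real.pi, (V1 (circleMap 0 s θ) * Complex.exp (θ * I) +
        V2 (circleMap 0 s θ) * conj (Complex.exp (θ * I)))) =
        (2 / s : ℂ) * Av (fun z => conj z * V2 z) s := by
      have hsc : (s : ℂ) ≠ 0 := by exact_mod_cast h0.ne'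
      have e2 : ∀ θ : ℝ, (V1 (circleMap 0 s θ) * Complex.exp (θ * I) +
          V2 (circleMap 0 s θ) * conj (Complex.exp (θ * I))) =
          (1 / s : ℂ) * (circleMap 0 s θ * V1 (circleMap 0 s θ)) +
          (1 / s : ℂ) * (conj (circleMap 0 s θ) * V2 (circleMap 0 s θ)) := by
        intro θ
        simp only [circleMap, zero_add, map_mul, Complex.conj_ofReal]
        field_simp
      simp_rw [e2]
      have cc1 : Continuous fun θ => circleMap 0 s θ * V1 (circleMap 0 s θ) :=
        (continuous_circleMap 0 s).mul (cont_circ c1 (by linarith) h1)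
      have cc2 : Continuous fun θ => conj (circleMap 0 s θ) * V2 (circleMap 0 s θ) :=
        (Complex.continuous_conj.comp (continuous_circleMap 0 s)).mul
          (cont_circ c2 (by linarith) h1)
      rw [intervalIntegral.integral_add, intervalIntegral.integral_const_mul,
        intervalIntegral.integral_const_mul]
      · have h5 := Av_angular h c1 c2 h0.le h1
        unfold Av at h5 ⊢
        rw [h5]
        field_simp
        ring
      · exact (continuous_const.mul cc1).intervalIntegrable _ _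
      · exact (continuous_const.mul cc2).intervalIntegrable _ _
    rw [← e1]
    exact key
  · filter_upwards [hs] with x hx
    exact (cont_circ c0 (by linarith [hx.1]) (by linarith [hx.2])).aestronglyMeasurable
  · exact (cont_circ c0 (by linarith) h1).intervalIntegrable _ _
  · exact (((cont_circ c1 (by linarith) h1).mul hce).add ((cont_circ c2 (by linarith) h1).mul
      (Complex.continuous_conj.comp hce))).aestronglyMeasurable
  · refine Eventually.of_forall fun θ _ x hx => ?_
    have hn : ‖circleMap 0 x θ‖ ≤ r := by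
      rw [norm_circleMap_zero]
      exact (abs_lt.2 ⟨hx.1, hx.2⟩).le
    refine (norm_add_le _ _).trans ?_
    rw [norm_mul, norm_mul, RCLike.norm_conj, Complex.norm_exp_ofReal_mul_I, mul_one, mul_one]
    exact add_le_add (hC1 _ hn) (hC2 _ hn)
  · exact intervalIntegrable_const
  · refine Eventually.of_forall fun θ _ x hx => ?_
    exact (h _ (circleMap_mem (by linarith [hx.1]) (by linarith [hx.2]) θ)).radial

lemma contP {V : ℂ → ℂ} {c : ℝ → ℂ} (hc : Continuous c)
    (hV : ContinuousOn V (ball 0 1)) {r : ℝ} (h0 : 0 ≤ r) (h1 : r < 1) :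
    ContinuousOn (fun s : ℝ => ∫ θ in (0 : ℝ)..2 * Real.pi, c θ * V (circleMap 0 s θ))
      (Icc 0 r) := by
  let cl : ℝ → ℝ := fun s => max 0 (min s r)
  have hcl : Continuous cl := continuous_const.max (continuous_id.min continuous_const)
  have hcl0 : ∀ s, 0 ≤ cl s := fun s => le_max_left _ _
  have hcl1 : ∀ s, cl s ≤ r := fun s => max_le h0 (min_le_right _ _)
  have hcc : Continuous (Function.uncurry fun (s θ : ℝ) => c θ * V (circleMap 0 (cl s) θ)) := by
    refine (hc.comp continuous_snd).mul ?_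
    apply hV.comp_continuous (continuous_circleMap2.comp
      ((hcl.comp continuous_fst).prodMk continuous_snd))
    intro p
    have q0 := hcl0 p.1
    have q1 := hcl1 p.1
    exact circleMap_mem (by show -1 < cl p.1; linarith) (by show cl p.1 < 1; linarith) _
  have h2 := intervalIntegral.continuous_parametric_intervalIntegral_of_continuous' (μ := volume)
    hcc 0 (2 * Real.pi)
  refine h2.continuousOn.congr fun s hs => ?_
  have : cl s = s := by
    show max 0 (min s r) = s
    rw [min_eq_left hs.2, max_eq_right hs.1]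
  simp only [this]

/-- Green's formula on the disc of radius `r` -/
theorem green {U U1 U2 U21 U22 : ℂ → ℂ} (h : ∀ z ∈ ball (0 : ℂ) 1, HasW U (U1 z) (U2 z) z)
    (h2 : ∀ z ∈ ball (0 : ℂ) 1, HasW U2 (U21 z) (U22 z) z)
    (c1 : ContinuousOn U1 (ball 0 1)) (c21 : ContinuousOn U21 (ball 0 1))
    (c22 : ContinuousOn U22 (ball 0 1)) {r : ℝ} (h0 : 0 < r) (h1 : r < 1) :
    Av U r - Av U 0 = ∫ s in (0 : ℝ)..r, ((4 * (s * (Real.log r - Real.log s)) : ℝ) : ℂ) *
      Av U21 s := by
  have c0 : ContinuousOn U (ball 0 1) := fun z hz =>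
    (HasFDerivAt.continuousAt (h z hz)).continuousWithinAt
  have c2 : ContinuousOn U2 (ball 0 1) := fun z hz =>
    (HasFDerivAt.continuousAt (h2 z hz)).continuousWithinAt
  have hconj : ContinuousOn (fun z : ℂ => conj z) (ball 0 1) :=
    Complex.continuous_conj.continuousOn
  have hid : ContinuousOn (fun z : ℂ => z) (ball 0 1) := continuousOn_id
  -- W
  have hW : ∀ z ∈ ball (0 : ℂ) 1, HasW (fun z => conj z * U2 z) (conj z * U21 z)
      (U2 z + conj z * U22 z) z := by
    intro z hz
    have e1 : HasW (fun z => conj z) 0 1 z := by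
      have := (HasW.of_deriv (hasDerivAt_id z)).conj
      simpa using this
    refine (e1.mul (h2 z hz)).congr (by ring) (by ring)
  have cW1 : ContinuousOn (fun z => conj z * U21 z) (ball 0 1) := hconj.mul c21
  have cW2 : ContinuousOn (fun z => U2 z + conj z * U22 z) (ball 0 1) := c2.add (hconj.mul c22)
  have hM : ∀ s ∈ Ioo 0 r, HasDerivAt (Av U) ((2 / s : ℂ) * Av (fun z => conj z * U2 z) s) s :=
    fun s hs => Av_radial h c1 c2 hs.1 (hs.2.trans h1)
  have hN : ∀ s ∈ Ioo 0 r, HasDerivAt (Av fun z => conj z * U2 z) (2 * s * Av U21 s) s := by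
    intro s hs
    have h3 := Av_radial hW cW1 cW2 hs.1 (hs.2.trans h1)
    have h4 := Av_angular hW cW1 cW2 hs.1.le (hs.2.trans h1)
    rw [← h4] at h3
    have hsc : (s : ℂ) ≠ 0 := by exact_mod_cast hs.1.ne'
    have e2 : Av (fun z => z * (conj z * U21 z)) s = (s : ℂ) ^ 2 * Av U21 s := by
      unfold Av
      rw [← intervalIntegral.integral_const_mul]
      congr 1
      funext θ
      show circleMap 0 s θ * (conj (circleMap 0 s θ) * U21 (circleMap 0 s θ)) = _
      rw [← mul_assoc, Complex.mul_conj, Complex.normSq_eq_norm_sq, norm_circleMap_zero]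
      simp
    rw [e2] at h3
    convert h3 using 1
    field_simp
  -- the function N(s)(log s - log r)
  have hce : Continuous fun θ : ℝ => conj (Complex.exp (θ * I)) := by
    exact Complex.continuous_conj.comp (by fun_prop)
  have hK := contP hce c2 h0.le h1
  have hNK : ∀ s : ℝ, Av (fun z => conj z * U2 z) s = (s : ℂ) *
      ∫ θ in (0 : ℝ)..2 * Real.pi, conj (Complex.exp (θ * I)) * U2 (circleMap 0 s θ) := by
    intro s
    unfold Av
    rw [← intervalIntegral.integral_const_mul]
    congr 1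
    funext θ
    simp only [circleMap, zero_add, map_mul, Complex.conj_ofReal]
    ring
  have hlog : Continuous fun s : ℝ => ((s * Real.log s - s * Real.log r : ℝ) : ℂ) :=
    Complex.continuous_ofReal.comp (Real.continuous_mul_log.sub (continuous_id.mul continuous_const))
  have hPsi : ContinuousOn (fun s : ℝ => Av U s - 2 * (Av (fun z => conj z * U2 z) s *
      ((Real.log s - Real.log r : ℝ) : ℂ))) (Icc 0 r) := by
    refine (Av_cont c0 h0.le h1).sub (continuousOn_const.mul ?_)
    refine (hK.mul hlog.continuousOn).congr fun s _ => ?_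
    rw [Pi.mul_apply, hNK]
    push_cast
    ring
  have hdPsi : ∀ s ∈ Ioo 0 r, HasDerivAt (fun s : ℝ => Av U s -
      2 * (Av (fun z => conj z * U2 z) s * ((Real.log s - Real.log r : ℝ) : ℂ)))
      (((4 * (s * (Real.log r - Real.log s)) : ℝ) : ℂ) * Av U21 s) s := by
    intro s hs
    have hsc : (s : ℂ) ≠ 0 := by exact_mod_cast hs.1.ne'
    have h3 : HasDerivAt (fun s : ℝ => ((Real.log s - Real.log r : ℝ) : ℂ)) ((s⁻¹ : ℝ) : ℂ) s := by
      have := (Real.hasDerivAt_log hs.1.ne').sub_const (Real.log r)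
      exact this.ofReal_comp
    have h4 := (hM s hs).sub (((hN s hs).mul h3).const_mul 2)
    refine h4.congr_deriv ?_
    have e3 : ((s⁻¹ : ℝ) : ℂ) = (s : ℂ)⁻¹ := by push_cast; rfl
    rw [e3]
    push_cast
    rw [div_eq_mul_inv]
    ring
  have hint : IntervalIntegrable (fun s : ℝ => ((4 * (s * (Real.log r - Real.log s)) : ℝ) : ℂ) *
      Av U21 s) volume 0 r := by
    apply ContinuousOn.intervalIntegrable
    rw [uIcc_of_le h0.le]
    have : ContinuousOn (fun s : ℝ => (-4 * ((s * Real.log s - s * Real.log r : ℝ) : ℂ)) *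
      Av U21 s) (Icc 0 r) := (continuousOn_const.mul hlog.continuousOn).mul (Av_cont c21 h0.le h1)
    refine this.congr fun s _ => ?_
    push_cast
    ring
  rw [intervalIntegral.integral_eq_sub_of_hasDerivAt_of_le h0.le hPsi hdPsi hint, hNK 0]
  simp

end Pool.Agent.Helper34.Dg
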