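import Pool.Agent.Helper34.Dg.P643
import Pool.Agent.Helper34.Dg.Alg

set_option autoImplicit false

namespace Pool.Agent.Helper34.Dg
namespace Herg

open MeasureTheory AddCircle Complex Filter Topology
open scoped ENNReal ComplexConjugate

lemma int_pk_gen {f : T → ℂ} (hf : Integrable f mu) (hneg : ∀ n : ℤ, n < 0 → fourierCoeff f n = 0)
    {a : ℂ} (ha : ‖a‖ < 1) : ∫ t, f t * (pk a t : ℂ) ∂mu = ext f a := by
  have ha' : ‖conj a‖ < 1 := by simpa using ha
  have h1 : ∀ t, f t * (pk a t : ℂ) = f t * ck a t + conj a * (f t * e 1 t * qk (conj a) t) := by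
    intro t; rw [pk_eq ha]; ring
  have h0 : ∫ t, f t * e 1 t * qk (conj a) t ∂mu = 0 := by
    have h := int_qk hf ha' 1
    refine h.unique ?_
    convert hasSum_zero with m
    rw [hneg _ (by omega), mul_zero]
  simp_rw [h1]
  rw [integral_add, int_ck_ext hf ha, integral_const_mul, h0, mul_zero, add_zero]
  · exact hf.mul_bdd (c := (1 - ‖a‖)⁻¹) (ck_cont ha).aestronglyMeasurable
      (Eventually.of_forall fun t => norm_ck_le ha t)
  · refine Integrable.const_mul ?_ _
    refine Integrable.mul_bdd (c := (1 - ‖conj a‖)⁻¹) ?_ (qk_cont ha').aestronglyMeasurable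
      (Eventually.of_forall fun t => norm_qk_le ha' t)
    exact hf.mul_bdd (c := 1) (e_aesm 1) (Eventually.of_forall fun t => (e_norm 1 t).le)

/-- functions with prescribed square summable Fourier coefficients -/
lemma exists_fc {d : ℤ → ℂ} (hd : Summable fun n => ‖d n‖ ^ 2) :
    ∃ f : T → ℂ, MemLp f 2 mu ∧ ∀ n, fourierCoeff f n = d n := by
  have hm : Memℓp d 2 := by
    rw [memℓp_gen_iff (by norm_num)]
    simpa using hd
  let x : lp (fun _ : ℤ => ℂ) 2 := ⟨d, hm⟩
  let H : Lp ℂ 2 mu := (fourierBasis (T := (1 : ℝ))).repr.symm x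
  refine ⟨H, Lp.memLp H, fun n => ?_⟩
  rw [← fourierBasis_repr]
  simp only [H, LinearIsometryEquiv.apply_symm_apply]
  rfl

theorem exists_herglotz {w : T → ℝ} (hwm : MemLp (fun t => (w t : ℂ)) ∞ mu)
    (hw : ∀ᵐ t ∂mu, 0 ≤ w t ∧ w t ≤ 1) :
    ∃ h ∈ H2, (∀ᵐ t ∂mu, (h t).re = w t) ∧
      ∀ z : ℂ, ‖z‖ < 1 → 0 ≤ (ext h z).re ∧ (ext h z).re ≤ 1 := by
  classical
  set χ : T → ℂ := fun t => (w t : ℂ) with hχ
  have hχm : MemLp χ ∞ mu := hwm
  have hχ2 := memLp2 hχm
  have hsum := (parseval hχ2).summable
  have hconj : ∀ n, conj (fourierCoeff χ (-n)) = fourierCoeff χ n := by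
    intro n
    rw [← fc_conj]
    congr 1
    funext t
    simp [hχ]
  let d : ℤ → ℂ := fun n => if n = 0 then fourierCoeff χ 0 else if 0 < n then 2 * fourierCoeff χ n
    else 0
  have hd : Summable fun n => ‖d n‖ ^ 2 := by
    refine Summable.of_nonneg_of_le (fun n => by positivity) ?_ (hsum.mul_left 4)
    intro n
    simp only [d]
    by_cases h0 : n = 0
    · subst h0
      simp only [if_true]
      nlinarith [sq_nonneg ‖fourierCoeff χ 0‖]
    · rw [if_neg h0]
      by_cases h1 : 0 < n
      · rw [if_pos h1, norm_mul, mul_pow]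
        norm_num
      · rw [if_neg h1, norm_zero]
        have : 0 ≤ ‖fourierCoeff χ n‖ ^ 2 := by positivity
        nlinarith
  obtain ⟨h, hh2, hfc⟩ := exists_fc hd
  have hint : Integrable h mu := hh2.integrable (by norm_num)
  have hneg : ∀ n : ℤ, n < 0 → fourierCoeff h n = 0 := by
    intro n hn
    rw [hfc]
    simp only [d]
    rw [if_neg hn.ne, if_neg (by omega)]
  have hchint : Integrable (fun t => conj (h t)) mu := by
    have := hh2.star
    exact this.integrable (by norm_num)
  have hcm : MemLp (fun t => conj (h t)) 2 mu := hh2.star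
  have hae : ∀ᵐ t ∂mu, h t + conj (h t) - 2 * χ t = 0 := by
    have hm : MemLp (fun t => h t + conj (h t) - 2 * χ t) 2 mu :=
      (hh2.add hcm).sub (hχ2.const_mul 2)
    refine ae_zero_of_fc hm fun n => ?_
    have e1 : fourierCoeff (fun t => h t + conj (h t) - 2 * χ t) n =
        fourierCoeff h n + fourierCoeff (fun t => conj (h t)) n - 2 * fourierCoeff χ n := by
      have i1 : Integrable (fun t => e (-n) t * h t) mu :=
        hint.bdd_mul (c := 1) (e_aesm _) (Eventually.of_forall fun t => (e_norm _ t).le)
      have i2 : Integrable (fun t => e (-n) t * conj (h t)) mu :=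
        hchint.bdd_mul (c := 1) (e_aesm _) (Eventually.of_forall fun t => (e_norm _ t).le)
      have i3 : Integrable (fun t => e (-n) t * χ t) mu :=
        (memLp_integrable hχm).bdd_mul (c := 1) (e_aesm _)
          (Eventually.of_forall fun t => (e_norm _ t).le)
      have i12 : Integrable (fun t => e (-n) t * h t + e (-n) t * conj (h t)) mu := i1.add i2
      rw [fc_def, fc_def, fc_def, fc_def, ← integral_const_mul, ← integral_add i1 i2,
        ← integral_sub i12 (i3.const_mul 2)]
      congr 1
      funext t
      ring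
    rw [e1, fc_conj, hfc, hfc]
    simp only [d]
    rcases lt_trichotomy n 0 with hn | hn | hn
    · rw [if_neg hn.ne, if_neg (by omega), if_neg (by omega), if_pos (by omega), map_mul,
        hconj]
      have h2 : conj (2 : ℂ) = 2 := Complex.conj_ofNat 2
      rw [h2]; ring
    · subst hn
      have := hconj 0
      simp only [neg_zero] at this
      simp only [neg_zero, if_true]
      rw [this]; ring
    · rw [if_neg hn.ne', if_pos hn, if_neg (by omega), if_neg (by omega), map_zero]
      ring
  have hre : ∀ᵐ t ∂mu, (h t).re = w t := by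
    filter_upwards [hae] with t ht
    rw [Complex.add_conj] at ht
    have := congrArg Complex.re ht
    simp [hχ] at this
    linarith
  refine ⟨h, ⟨hh2, hneg⟩, hre, ?_⟩
  · intro z hz
    have h1 := int_pk_gen hint hneg hz
    have hpi : Integrable (fun t => h t * (pk z t : ℂ)) mu := by
      obtain ⟨C, hC⟩ := isCompact_univ.exists_bound_of_continuousOn (pk_cont hz).continuousOn
      refine hint.mul_bdd (c := C) (Complex.continuous_ofReal.comp (pk_cont hz)).aestronglyMeasurable
        (Eventually.of_forall fun t => ?_)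
      have := hC t trivial
      simpa using this
    have h2 : (ext h z).re = ∫ t, w t * pk z t ∂mu := by
      rw [← h1]
      have h3 : (∫ t, h t * (pk z t : ℂ) ∂mu).re = ∫ t, (h t * (pk z t : ℂ)).re ∂mu :=
        (integral_re hpi).symm
      rw [h3]
      apply integral_congr_ae
      filter_upwards [hre] with t ht
      rw [Complex.re_mul_ofReal, ht]
    have hwi : Integrable w mu := by
      have := (memLp_integrable hχm).re
      refine this.congr (Eventually.of_forall fun t => ?_)
      simp [hχ]
    have hpi2 : Integrable (fun t => w t * pk z t) mu := by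
      obtain ⟨C, hC⟩ := isCompact_univ.exists_bound_of_continuousOn (pk_cont hz).continuousOn
      refine Integrable.mul_bdd (c := C) hwi (pk_cont hz).aestronglyMeasurable
        (Eventually.of_forall fun t => ?_)
      exact hC t trivial
    rw [h2]
    constructor
    · apply integral_nonneg_of_ae
      filter_upwards [hw] with t ht
      exact mul_nonneg ht.1 (pk_nonneg hz t)
    · have h5 : ∫ t, w t * pk z t ∂mu ≤ ∫ t, pk z t ∂mu := by
        refine integral_mono_ae hpi2 (cont_intR (pk_cont hz)) ?_
        filter_upwards [hw] with t ht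
        have := mul_le_mul_of_nonneg_right ht.2 (pk_nonneg hz t)
        simpa using this
      exact h5.trans (int_pk hz).le

end Herg
end Pool.Agent.Helper34.Dg
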