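import Pool.Agent.Helper34.Dg.Green

set_option autoImplicit false

open MeasureTheory Filter Topology Complex Metric Set
open scoped Interval ComplexConjugate

namespace Pool.Agent.Helper34.Dg

/-- the Green functional of the disc of radius `r` -/
noncomputable def J (r : ℝ) (φ : ℂ → ℝ) : ℝ :=
  ∫ s in (0 : ℝ)..r, (4 * (s * (Real.log r - Real.log s))) * Av φ s

lemma wt_cont (r : ℝ) : Continuous fun s : ℝ => 4 * (s * (Real.log r - Real.log s)) := by
  have h : Continuous fun s : ℝ => 4 * (s * Real.log r - s * Real.log s) :=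
    continuous_const.mul ((continuous_id.mul continuous_const).sub Real.continuous_mul_log)
  refine h.congr fun s => ?_
  ring

lemma wt_nonneg {r s : ℝ} (hs : 0 ≤ s) (hsr : s ≤ r) :
    0 ≤ 4 * (s * (Real.log r - Real.log s)) := by
  rcases hs.eq_or_lt with h | h
  · rw [← h]; simp
  · have := Real.log_le_log h hsr
    have : 0 ≤ Real.log r - Real.log s := by linarith
    positivity

lemma J_int {φ : ℂ → ℝ} (hφ : ContinuousOn φ (ball 0 1)) {r : ℝ} (h0 : 0 ≤ r) (h1 : r < 1) :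
    IntervalIntegrable (fun s : ℝ => (4 * (s * (Real.log r - Real.log s))) * Av φ s)
      volume 0 r := by
  apply ContinuousOn.intervalIntegrable
  rw [uIcc_of_le h0]
  exact (wt_cont r).continuousOn.mul (Av_cont hφ h0 h1)

lemma Av_mono {φ ψ : ℂ → ℝ} (hφ : ContinuousOn φ (ball 0 1)) (hψ : ContinuousOn ψ (ball 0 1))
    (h : ∀ z ∈ ball (0 : ℂ) 1, φ z ≤ ψ z) {s : ℝ} (h0 : 0 ≤ s) (h1 : s < 1) :
    Av φ s ≤ Av ψ s := by
  unfold Av
  apply intervalIntegral.integral_mono_on (by positivity)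
  · exact (cont_circ hφ (by linarith) h1).intervalIntegrable _ _
  · exact (cont_circ hψ (by linarith) h1).intervalIntegrable _ _
  · intro θ _
    exact h _ (circleMap_mem (by linarith) h1 θ)

lemma J_mono {φ ψ : ℂ → ℝ} (hφ : ContinuousOn φ (ball 0 1)) (hψ : ContinuousOn ψ (ball 0 1))
    (h : ∀ z ∈ ball (0 : ℂ) 1, φ z ≤ ψ z) {r : ℝ} (h0 : 0 ≤ r) (h1 : r < 1) :
    J r φ ≤ J r ψ := by
  unfold J
  apply intervalIntegral.integral_mono_on h0 (J_int hφ h0 h1) (J_int hψ h0 h1)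
  intro s hs
  exact mul_le_mul_of_nonneg_left (Av_mono hφ hψ h hs.1 (lt_of_le_of_lt hs.2 h1))
    (wt_nonneg hs.1 hs.2)

lemma Av_add {φ ψ : ℂ → ℝ} (hφ : ContinuousOn φ (ball 0 1)) (hψ : ContinuousOn ψ (ball 0 1))
    {s : ℝ} (h0 : 0 ≤ s) (h1 : s < 1) :
    Av (fun z => φ z + ψ z) s = Av φ s + Av ψ s := by
  unfold Av
  exact intervalIntegral.integral_add
    ((cont_circ hφ (by linarith) h1).intervalIntegrable _ _)
    ((cont_circ hψ (by linarith) h1).intervalIntegrable _ _)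

lemma J_add {φ ψ : ℂ → ℝ} (hφ : ContinuousOn φ (ball 0 1)) (hψ : ContinuousOn ψ (ball 0 1))
    {r : ℝ} (h0 : 0 ≤ r) (h1 : r < 1) :
    J r (fun z => φ z + ψ z) = J r φ + J r ψ := by
  unfold J
  rw [← intervalIntegral.integral_add (J_int hφ h0 h1) (J_int hψ h0 h1)]
  apply intervalIntegral.integral_congr
  intro s hs
  rw [uIcc_of_le h0] at hs
  simp only []
  rw [Av_add hφ hψ hs.1 (lt_of_le_of_lt hs.2 h1)]
  ring

lemma J_mul (c : ℝ) (φ : ℂ → ℝ) (r : ℝ) : J r (fun z => c * φ z) = c * J r φ := by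
  unfold J Av
  simp_rw [intervalIntegral.integral_const_mul]
  rw [← intervalIntegral.integral_const_mul]
  congr 1
  funext s
  ring

lemma norm_Av_le {V : ℂ → ℂ} {s : ℝ} : ‖Av V s‖ ≤ Av (fun z => ‖V z‖) s := by
  unfold Av
  exact intervalIntegral.norm_integral_le_integral_norm (by positivity)

lemma green_le {U U1 U2 U21 U22 : ℂ → ℂ} (h : ∀ z ∈ ball (0 : ℂ) 1, HasW U (U1 z) (U2 z) z)
    (h2 : ∀ z ∈ ball (0 : ℂ) 1, HasW U2 (U21 z) (U22 z) z)
    (c1 : ContinuousOn U1 (ball 0 1)) (c21 : ContinuousOn U21 (ball 0 1))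
    (c22 : ContinuousOn U22 (ball 0 1)) {r : ℝ} (h0 : 0 < r) (h1 : r < 1) :
    ‖Av U r - Av U 0‖ ≤ J r (fun z => ‖U21 z‖) := by
  rw [green h h2 c1 c21 c22 h0 h1]
  refine (intervalIntegral.norm_integral_le_integral_norm h0.le).trans ?_
  unfold J
  apply intervalIntegral.integral_mono_on h0.le
  · apply ContinuousOn.intervalIntegrable
    rw [uIcc_of_le h0.le]
    exact (((Complex.continuous_ofReal.comp (wt_cont r)).continuousOn).mul
      (Av_cont c21 h0.le h1)).norm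
  · exact J_int c21.norm h0.le h1
  · intro s hs
    rw [norm_mul, Complex.norm_real, Real.norm_of_nonneg (wt_nonneg hs.1 hs.2)]
    exact mul_le_mul_of_nonneg_left norm_Av_le (wt_nonneg hs.1 hs.2)

lemma deriv_diffOn {F : ℂ → ℂ} (hF : DifferentiableOn ℂ F (ball 0 1)) :
    DifferentiableOn ℂ (deriv F) (ball 0 1) := hF.deriv isOpen_ball

lemma hasDeriv {F : ℂ → ℂ} (hF : DifferentiableOn ℂ F (ball 0 1)) {z : ℂ}
    (hz : z ∈ ball (0 : ℂ) 1) : HasDerivAt F (deriv F z) z :=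
  (hF.differentiableAt (isOpen_ball.mem_nhds hz)).hasDerivAt

/-- Littlewood-Paley -/
lemma lp_le {F : ℂ → ℂ} (hF : DifferentiableOn ℂ F (ball 0 1)) {r : ℝ} (h0 : 0 < r)
    (h1 : r < 1) : J r (fun z => ‖deriv F z‖ ^ 2) ≤ Av (fun z => ‖F z‖ ^ 2) r := by
  have hF' := deriv_diffOn hF
  have hF'' := deriv_diffOn hF'
  have hcj := Complex.continuous_conj
  have hU : ∀ z ∈ ball (0 : ℂ) 1, HasW (fun z => F z * conj (F z)) (deriv F z * conj (F z))
      (F z * conj (deriv F z)) z := by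
    intro z hz
    have e1 := HasW.of_deriv (hasDeriv hF hz)
    refine (e1.mul e1.conj).congr (by simp) (by simp)
  have hU2 : ∀ z ∈ ball (0 : ℂ) 1, HasW (fun z => F z * conj (deriv F z))
      (deriv F z * conj (deriv F z)) (F z * conj (deriv (deriv F) z)) z := by
    intro z hz
    have e1 := HasW.of_deriv (hasDeriv hF hz)
    have e2 := HasW.of_deriv (hasDeriv hF' hz)
    refine (e1.mul e2.conj).congr (by simp) (by simp)
  have cF := hF.continuousOn
  have cF' := hF'.continuousOn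
  have cF'' := hF''.continuousOn
  have key := green hU hU2 (cF'.mul (hcj.comp_continuousOn cF)) (cF'.mul (hcj.comp_continuousOn cF'))
    (cF.mul (hcj.comp_continuousOn cF'')) h0 h1
  have e1 : ∀ (G : ℂ → ℂ) (s : ℝ), Av (fun z => G z * conj (G z)) s =
      ((Av (fun z => ‖G z‖ ^ 2) s : ℝ) : ℂ) := by
    intro G s
    unfold Av
    rw [← intervalIntegral.integral_ofReal]
    congr 1
    funext θ
    show G (circleMap 0 s θ) * conj (G (circleMap 0 s θ)) =
      ((‖G (circleMap 0 s θ)‖ ^ 2 : ℝ) : ℂ)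
    rw [Complex.mul_conj, Complex.normSq_eq_norm_sq]
  simp_rw [e1] at key
  have e2 : (∫ s in (0 : ℝ)..r, ((4 * (s * (Real.log r - Real.log s)) : ℝ) : ℂ) *
      ((Av (fun z => ‖deriv F z‖ ^ 2) s : ℝ) : ℂ)) =
      ((J r (fun z => ‖deriv F z‖ ^ 2) : ℝ) : ℂ) := by
    unfold J
    rw [← intervalIntegral.integral_ofReal]
    congr 1
    funext s
    push_cast
    ring
  rw [e2] at key
  have key2 : Av (fun z => ‖F z‖ ^ 2) r - Av (fun z => ‖F z‖ ^ 2) 0 =
      J r (fun z => ‖deriv F z‖ ^ 2) := by exact_mod_cast key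
  have h3 : 0 ≤ Av (fun z => ‖F z‖ ^ 2) 0 := by
    unfold Av
    exact intervalIntegral.integral_nonneg (by positivity) fun θ _ => by positivity
  linarith

end Pool.Agent.Helper34.Dg
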