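import Pool.Agent.Helper34.Dg.Hdefs

set_option autoImplicit false

namespace Pool.Agent.Helper34.Dg
namespace P643

open MeasureTheory AddCircle Complex Filter Topology
open scoped ENNReal ComplexConjugate

lemma norm_fc_le1 (f : T → ℂ) (n : ℤ) :
    ‖fourierCoeff f n‖ ≤ ∫ t, ‖f t‖ ∂mu := by
  rw [fc_def]
  refine (norm_integral_le_integral_norm _).trans (le_of_eq ?_)
  congr 1; funext t
  rw [norm_mul, e_norm, one_mul]

lemma ext_diff1 (f : T → ℂ) :
    DifferentiableOn ℂ (ext f) (Metric.ball 0 1) := by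
  set M := ∫ t, ‖f t‖ ∂mu with hMdef
  have hM0 : 0 ≤ M := integral_nonneg fun t => norm_nonneg _
  intro z hz
  have hz' : ‖z‖ < 1 := by simpa using hz
  obtain ⟨r, hr1, hr2⟩ := exists_between hz'
  have hr0 : 0 ≤ r := le_trans (norm_nonneg z) hr1.le
  have h1 : DifferentiableOn ℂ (ext f) (Metric.ball 0 r) := by
    have h2 : Summable fun n : ℕ => M * r ^ n :=
      (summable_geometric_of_lt_one hr0 hr2).mul_left _
    refine differentiableOn_tsum_of_summable_norm (u := fun n : ℕ => M * r ^ n) h2 ?_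
      Metric.isOpen_ball ?_
    · intro n
      exact (differentiableOn_const _).mul (differentiableOn_pow n)
    · intro n w hw
      have hw' : ‖w‖ < r := by simpa using hw
      rw [norm_mul, norm_pow]
      exact mul_le_mul (norm_fc_le1 f n) (pow_le_pow_left₀ (norm_nonneg _) hw'.le n)
        (by positivity) hM0
  exact (h1.differentiableAt (Metric.isOpen_ball.mem_nhds (by simpa using hr1))).differentiableWithinAt

/-- Fourier coefficients of the dilation -/
lemma fc_dilate1 {f : T → ℂ} (hf : Integrable f mu) {r : ℝ} (hr0 : 0 ≤ r) (hr1 : r < 1) (n : ℤ) :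
    fourierCoeff (fun t => ext f (r * e 1 t)) n =
      if 0 ≤ n then fourierCoeff f n * (r : ℂ) ^ n.toNat else 0 := by
  set M := ∫ t, ‖f t‖ ∂mu with hMdef
  have hM0 : 0 ≤ M := integral_nonneg fun t => norm_nonneg _
  have hsum : Summable fun k : ℕ => M * r ^ k := (summable_geometric_of_lt_one hr0 hr1).mul_left _
  have hn1 : ∀ t, ‖(r : ℂ) * e 1 t‖ < 1 := fun t => by
    rw [norm_mul, e_norm, Complex.norm_real, Real.norm_of_nonneg hr0, mul_one]; exact hr1
  have key := hasSum_integral_of_dominated_convergence (μ := mu)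
    (F := fun (k : ℕ) t => e (-n) t * (fourierCoeff f k * (r * e 1 t) ^ k))
    (f := fun t => e (-n) t * ext f (r * e 1 t))
    (fun (k : ℕ) _ => M * r ^ k) ?_ ?_ ?_ ?_ ?_
  · rw [fc_def]
    refine key.unique ?_
    have e1 : ∀ k : ℕ, ∫ t, e (-n) t * (fourierCoeff f k * (r * e 1 t) ^ k) ∂mu =
        if (k : ℤ) = n then fourierCoeff f k * (r : ℂ) ^ k else 0 := by
      intro k
      have e2 : ∀ t, e (-n) t * (fourierCoeff f k * (r * e 1 t) ^ k) =
          (fourierCoeff f k * (r : ℂ) ^ k) * e (k - n) t := by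
        intro t
        rw [show (k : ℤ) - n = -n + k by ring, e_add, e_nat, mul_pow]; ring
      simp_rw [e2]
      rw [integral_const_mul, int_e]
      by_cases h : (k : ℤ) = n
      · rw [if_pos h, if_pos (by omega), mul_one]
      · rw [if_neg h, if_neg (by omega), mul_zero]
    simp_rw [e1]
    by_cases h : 0 ≤ n
    · rw [if_pos h]
      have e3 : (fun k : ℕ => if (k : ℤ) = n then fourierCoeff f k * (r : ℂ) ^ k else 0) =
          fun k : ℕ => if k = n.toNat then fourierCoeff f n * (r : ℂ) ^ n.toNat else 0 := by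
        funext k
        by_cases hk : k = n.toNat
        · rw [if_pos hk, if_pos (by omega), hk, Int.toNat_of_nonneg h]
        · rw [if_neg hk, if_neg (by omega)]
      rw [e3]
      exact hasSum_ite_eq _ _
    · rw [if_neg h]
      convert hasSum_zero with k
      rw [if_neg (by omega)]
  · intro k
    exact ((e_cont (-n)).mul (continuous_const.mul ((continuous_const.mul
      (e_cont 1)).pow k))).aestronglyMeasurable
  · intro k
    refine Eventually.of_forall fun t => ?_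
    rw [norm_mul, norm_mul, norm_pow, norm_mul, e_norm, e_norm, Complex.norm_real,
      Real.norm_of_nonneg hr0, mul_one, one_mul]
    exact mul_le_mul_of_nonneg_right (norm_fc_le1 f _) (by positivity)
  · exact Eventually.of_forall fun t => hsum
  · exact integrable_const _
  · refine Eventually.of_forall fun t => ?_
    exact (hasSum_ext hf (hn1 t)).mul_left _

lemma dilate_cont1 (f : T → ℂ) {r : ℝ} (hr0 : 0 ≤ r) (hr1 : r < 1) :
    Continuous fun t => ext f (r * e 1 t) := by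
  have h1 : ContinuousOn (ext f) (Metric.ball 0 1) := (ext_diff1 f).continuousOn
  refine h1.comp_continuous (continuous_const.mul (e_cont 1)) fun t => ?_
  simp only [Metric.mem_ball, dist_zero_right]
  rw [norm_mul, e_norm, Complex.norm_real, Real.norm_of_nonneg hr0, mul_one]; exact hr1

/-- `L²` convergence of dilations -/
lemma dilate_tendsto1 {f : T → ℂ} (hf2 : MemLp f 2 mu) (hneg : ∀ n : ℤ, n < 0 → fourierCoeff f n = 0)
    {δ : ℝ} (hδ : 0 < δ) :
    ∀ᶠ r : ℝ in 𝓝[<] 1, ∫ t, ‖f t - ext f (r * e 1 t)‖ ∂mu ≤ δ := by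
  have hpar := parseval hf2
  -- the tails
  have htend : Tendsto (fun r : ℝ => ∑' n : ℤ, ‖fourierCoeff f n‖ ^ 2 * (1 - r ^ n.toNat) ^ 2)
      (𝓝[<] 1) (𝓝 (∑' _n : ℤ, (0 : ℝ))) := by
    apply tendsto_tsum_of_dominated_convergence (bound := fun n : ℤ => ‖fourierCoeff f n‖ ^ 2)
    · exact hpar.summable
    · intro n
      have h1 : Tendsto (fun r : ℝ => ‖fourierCoeff f n‖ ^ 2 * (1 - r ^ n.toNat) ^ 2) (𝓝 1)
          (𝓝 (‖fourierCoeff f n‖ ^ 2 * (1 - 1 ^ n.toNat) ^ 2)) :=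
        Continuous.tendsto (by fun_prop) 1
      have h2 := h1.mono_left (nhdsWithin_le_nhds (s := Set.Iio 1))
      simpa using h2
    · have h3 : ∀ᶠ r : ℝ in 𝓝[<] 1, 0 < r := by
        have : ∀ᶠ r : ℝ in 𝓝 1, 0 < r := lt_mem_nhds (by norm_num)
        exact this.filter_mono nhdsWithin_le_nhds
      filter_upwards [h3, self_mem_nhdsWithin] with r hr0 hr1 n
      have hr1' : r < 1 := hr1
      have h4 : r ^ n.toNat ≤ 1 := pow_le_one₀ hr0.le hr1'.le
      have h5 : 0 < r ^ n.toNat := pow_pos hr0 _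
      rw [Real.norm_of_nonneg (by positivity)]
      have h6 : (1 - r ^ n.toNat) ^ 2 ≤ 1 := by nlinarith
      have h7 : 0 ≤ ‖fourierCoeff f n‖ ^ 2 := by positivity
      nlinarith
  rw [tsum_zero] at htend
  have h3 : ∀ᶠ r : ℝ in 𝓝[<] 1, 0 < r := by
    have : ∀ᶠ r : ℝ in 𝓝 1, 0 < r := lt_mem_nhds (by norm_num)
    exact this.filter_mono nhdsWithin_le_nhds
  have h4 := htend.eventually (gt_mem_nhds (show (0 : ℝ) < δ ^ 2 by positivity))
  filter_upwards [h3, h4, self_mem_nhdsWithin] with r hr0 hrs hr1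
  have hr1' : r < 1 := hr1
  have hcont := dilate_cont1 f hr0.le hr1'
  have hm2 : MemLp (fun t => ext f (r * e 1 t)) 2 mu := memLp2 (bdd_cont hcont)
  have hsub : MemLp (fun t => f t - ext f (r * e 1 t)) 2 mu := hf2.sub hm2
  refine L1_le_of_L2 hsub hδ ?_
  have hp := parseval hsub
  have hint : Integrable f mu := hf2.integrable (by norm_num)
  have e1 : ∀ n : ℤ, ‖fourierCoeff (fun t => f t - ext f (r * e 1 t)) n‖ ^ 2 =
      ‖fourierCoeff f n‖ ^ 2 * (1 - r ^ n.toNat) ^ 2 := by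
    intro n
    have e2 : fourierCoeff (fun t => f t - ext f (r * e 1 t)) n =
        fourierCoeff f n - fourierCoeff (fun t => ext f (r * e 1 t)) n := by
      rw [fc_def, fc_def, fc_def, ← integral_sub]
      · congr 1; funext t; ring
      · exact hint.bdd_mul (c := 1) (e_aesm _) (Eventually.of_forall fun t => (e_norm _ t).le)
      · exact memLp_integrable (bdd_mul (bdd_e _) (bdd_cont hcont))
    rw [e2, fc_dilate1 hint hr0.le hr1']
    by_cases hn : 0 ≤ n
    · rw [if_pos hn]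
      have : fourierCoeff f n - fourierCoeff f n * (r : ℂ) ^ n.toNat =
          fourierCoeff f n * (((1 - r ^ n.toNat : ℝ)) : ℂ) := by push_cast; ring
      rw [this, norm_mul, mul_pow, Complex.norm_real, Real.norm_eq_abs, sq_abs]
    · rw [if_neg hn, hneg n (by omega)]
      simp
  simp_rw [e1] at hp
  rw [← hp.tsum_eq]
  exact hrs.le

/-- a common sequence of radii with a.e. convergence for two functions -/
lemma exists_radii {f g : T → ℂ} (hf : MemLp f 2 mu) (hfn : ∀ n : ℤ, n < 0 → fourierCoeff f n = 0)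
    (hg : MemLp g 2 mu) (hgn : ∀ n : ℤ, n < 0 → fourierCoeff g n = 0) :
    ∃ r : ℕ → ℝ, (∀ k, 0 ≤ r k ∧ r k < 1) ∧
      (∀ᵐ t ∂mu, Tendsto (fun k => ext f (r k * e 1 t)) atTop (𝓝 (f t))) ∧
      (∀ᵐ t ∂mu, Tendsto (fun k => ext g (r k * e 1 t)) atTop (𝓝 (g t))) := by
  have h3 : ∀ᶠ r : ℝ in 𝓝[<] 1, 0 < r := by
    have : ∀ᶠ r : ℝ in 𝓝 1, 0 < r := lt_mem_nhds (by norm_num)
    exact this.filter_mono nhdsWithin_le_nhds
  have hex : ∀ k : ℕ, ∃ r : ℝ, (0 ≤ r ∧ r < 1) ∧
      ∫ t, ‖f t - ext f (r * e 1 t)‖ ∂mu ≤ (1 / 2) ^ k ∧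
      ∫ t, ‖g t - ext g (r * e 1 t)‖ ∂mu ≤ (1 / 2) ^ k := by
    intro k
    have hk : (0 : ℝ) < (1 / 2) ^ k := by positivity
    obtain ⟨r, ⟨⟨h1, h2⟩, h4⟩, h5⟩ := (((h3.and (dilate_tendsto1 hf hfn hk)).and
      (dilate_tendsto1 hg hgn hk)).and self_mem_nhdsWithin).exists
    exact ⟨r, ⟨h1.le, h5⟩, h2, h4⟩
  choose r hr hrf hrg using hex
  refine ⟨r, hr, ?_⟩
  have main : ∀ h : T → ℂ, MemLp h 2 mu →
      (∀ k, ∫ t, ‖h t - ext h (r k * e 1 t)‖ ∂mu ≤ (1 / 2) ^ k) →
      ∀ᵐ t ∂mu, Tendsto (fun k => ext h (r k * e 1 t)) atTop (𝓝 (h t)) := by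
    intro h hh hrh
    have hint : ∀ k, Integrable (fun t => h t - ext h (r k * e 1 t)) mu := fun k =>
      (hh.integrable (by norm_num)).sub (cont_int (dilate_cont1 h (hr k).1 (hr k).2))
    have hl : ∫⁻ t, ∑' k, ENNReal.ofReal ‖h t - ext h (r k * e 1 t)‖ ∂mu ≠ ∞ := by
      rw [lintegral_tsum (fun k => ((hint k).norm.1.aemeasurable).ennreal_ofReal)]
      have e1 : ∀ k, ∫⁻ t, ENNReal.ofReal ‖h t - ext h (r k * e 1 t)‖ ∂mu ≤
          ENNReal.ofReal ((1 / 2) ^ k) := by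
        intro k
        rw [← ofReal_integral_eq_lintegral_ofReal (hint k).norm
          (Eventually.of_forall fun t => norm_nonneg _)]
        exact ENNReal.ofReal_le_ofReal (hrh k)
      refine ne_top_of_le_ne_top ?_ (ENNReal.tsum_le_tsum e1)
      rw [← ENNReal.ofReal_tsum_of_nonneg (fun k => by positivity)
        (summable_geometric_of_lt_one (by norm_num) (by norm_num))]
      exact ENNReal.ofReal_ne_top
    have hae := ae_lt_top' (AEMeasurable.ennreal_tsum
      (fun k => ((hint k).norm.1.aemeasurable).ennreal_ofReal)) hl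
    filter_upwards [hae] with t ht
    have h5 := ENNReal.tendsto_atTop_zero_of_tsum_ne_top ht.ne
    have h6 : Tendsto (fun k => ‖h t - ext h (r k * e 1 t)‖) atTop (𝓝 0) := by
      have h7 := (ENNReal.tendsto_toReal ENNReal.zero_ne_top).comp h5
      simp only [ENNReal.toReal_zero] at h7
      refine h7.congr fun k => ?_
      simp only [Function.comp]
      rw [ENNReal.toReal_ofReal (norm_nonneg _)]
    rw [tendsto_iff_norm_sub_tendsto_zero]
    refine h6.congr fun k => ?_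
    rw [norm_sub_rev]
  exact ⟨main f hf hrf, main g hg hrg⟩

theorem comp_strip
    (hJ1 : ∀ (F : ℂ → ℂ), DifferentiableOn ℂ F (Metric.ball 0 1) → ∀ (M : ℝ),
      (∀ z : ℂ, ‖z‖ < 1 → ‖F z‖ ≤ M) →
      ∃ f ∈ HInf, (∀ᵐ t ∂mu, ‖f t‖ ≤ M) ∧ ∀ z : ℂ, ‖z‖ < 1 → ext f z = F z)
    {h : T → ℂ} (hh : h ∈ H2) (hb : ∀ᵐ t ∂mu, 0 ≤ (h t).re ∧ (h t).re ≤ 1)
    (hz : ∀ z : ℂ, ‖z‖ < 1 → 0 ≤ (ext h z).re ∧ (ext h z).re ≤ 1)
    {ψ : ℂ → ℂ} (hψ : DifferentiableOn ℂ ψ {w : ℂ | -(1 / 4) < w.re ∧ w.re < 5 / 4}) {M : ℝ}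
    (hM : ∀ w : ℂ, 0 ≤ w.re → w.re ≤ 1 → ‖ψ w‖ ≤ M) :
    (fun t => ψ (h t)) ∈ HInf ∧
      ∀ z : ℂ, ‖z‖ < 1 → ext (fun t => ψ (h t)) z = ψ (ext h z) := by
  have hopen : IsOpen {w : ℂ | -(1 / 4) < w.re ∧ w.re < 5 / 4} :=
    (isOpen_lt continuous_const Complex.continuous_re).inter
      (isOpen_lt Complex.continuous_re continuous_const)
  have hG : DifferentiableOn ℂ (fun z => ψ (ext h z)) (Metric.ball 0 1) := by
    refine hψ.comp (ext_diff1 h) ?_
    intro z hz'
    have := hz z (by simpa using hz')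
    exact ⟨by linarith [this.1], by linarith [this.2]⟩
  obtain ⟨f, hf, -, hfe⟩ := hJ1 _ hG M (fun z hz' => hM _ (hz z hz').1 (hz z hz').2)
  obtain ⟨r, hr, h1, h2⟩ := exists_radii hh.1 hh.2 (memLp2 hf.1) hf.2
  have hae : f =ᵐ[mu] fun t => ψ (h t) := by
    filter_upwards [h1, h2, hb] with t ht1 ht2 htb
    have hn1 : ∀ k, ‖(r k : ℂ) * e 1 t‖ < 1 := fun k => by
      rw [norm_mul, e_norm, Complex.norm_real, Real.norm_of_nonneg (hr k).1, mul_one]
      exact (hr k).2
    have hmem : h t ∈ {w : ℂ | -(1 / 4) < w.re ∧ w.re < 5 / 4} :=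
      ⟨by linarith [htb.1], by linarith [htb.2]⟩
    have hcont : ContinuousAt ψ (h t) := (hψ.differentiableAt (hopen.mem_nhds hmem)).continuousAt
    have h3 : Tendsto (fun k => ψ (ext h (r k * e 1 t))) atTop (𝓝 (ψ (h t))) :=
      hcont.tendsto.comp ht1
    have h4 : Tendsto (fun k => ψ (ext h (r k * e 1 t))) atTop (𝓝 (f t)) := by
      refine ht2.congr fun k => ?_
      exact hfe _ (hn1 k)
    exact tendsto_nhds_unique h4 h3
  refine ⟨congr_HInf hf hae, fun z hz' => ?_⟩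
  rw [← ext_congr hae, hfe z hz']


end P643
end Pool.Agent.Helper34.Dg
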