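import Pool.Agent.Helper34.Dg.Hdefs

set_option autoImplicit false

namespace Pool.Agent.Helper34.Dg
namespace P648

open MeasureTheory AddCircle Complex Filter Topology
open scoped ENNReal ComplexConjugate

/-- pointwise bound of the Poisson kernel -/
lemma fatou_kernel {x y r : ℝ} (hr : 1 / 2 ≤ r) (hr1 : r < 1) (hy : |y - x| ≤ 1 / 2) :
    pk ((r : ℂ) * Complex.exp ((2 * Real.pi * x : ℝ) * Complex.I)) (y : T) ≤ 2 / (1 - r) ∧
    (y - x ≠ 0 → pk ((r : ℂ) * Complex.exp ((2 * Real.pi * x : ℝ) * Complex.I)) (y : T) ≤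
      2 * (1 - r) / (y - x) ^ 2) := by
  set z : ℂ := (r : ℂ) * Complex.exp ((2 * Real.pi * x : ℝ) * Complex.I) with hz
  have hnz : ‖z‖ = r := by
    rw [hz, norm_mul, Complex.norm_exp_ofReal_mul_I, mul_one, Complex.norm_real, Real.norm_eq_abs,
      abs_of_nonneg (by linarith)]
  have he : e (-1) (y : T) = Complex.exp ((-(2 * Real.pi * y) : ℝ) * Complex.I) := by
    rw [e, fourier_coe_apply]
    congr 1
    push_cast
    ring
  have hzz : z * e (-1) (y : T) = (r : ℂ) * Complex.exp ((2 * Real.pi * (x - y) : ℝ) * Complex.I) := by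
    rw [hz, he, mul_assoc, ← Complex.exp_add]
    congr 2
    push_cast
    ring
  have hsq : ‖1 - z * e (-1) (y : T)‖ ^ 2 = (1 - r) ^ 2 + 4 * r * Real.sin (Real.pi * (x - y)) ^ 2 := by
    rw [hzz, ← Complex.normSq_eq_norm_sq, Complex.normSq_apply]
    have h1 : ((r : ℂ) * Complex.exp ((2 * Real.pi * (x - y) : ℝ) * Complex.I)).re =
        r * Real.cos (2 * Real.pi * (x - y)) := by
      rw [Complex.re_ofReal_mul, Complex.exp_ofReal_mul_I_re]
    have h2 : ((r : ℂ) * Complex.exp ((2 * Real.pi * (x - y) : ℝ) * Complex.I)).im =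
        r * Real.sin (2 * Real.pi * (x - y)) := by
      rw [Complex.im_ofReal_mul, Complex.exp_ofReal_mul_I_im]
    rw [Complex.sub_re, Complex.sub_im, h1, h2, Complex.one_re, Complex.one_im]
    have h3 : Real.cos (2 * Real.pi * (x - y)) = 1 - 2 * Real.sin (Real.pi * (x - y)) ^ 2 := by
      rw [show 2 * Real.pi * (x - y) = 2 * (Real.pi * (x - y)) by ring, Real.cos_two_mul]
      have := Real.sin_sq_add_cos_sq (Real.pi * (x - y))
      linarith
    have h4 := Real.sin_sq_add_cos_sq (2 * Real.pi * (x - y))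
    have h5 : Real.sin (2 * Real.pi * (x - y)) ^ 2 = 1 - Real.cos (2 * Real.pi * (x - y)) ^ 2 := by
      linarith
    ring_nf
    ring_nf at h5 h3
    rw [h5, h3]
    ring
  have hsin : 4 * (y - x) ^ 2 ≤ Real.sin (Real.pi * (x - y)) ^ 2 := by
    have h1 : |Real.pi * (x - y)| ≤ Real.pi / 2 := by
      rw [abs_mul, abs_of_pos Real.pi_pos, abs_sub_comm]
      have := Real.pi_pos
      nlinarith
    have h2 := Real.mul_abs_le_abs_sin h1
    rw [abs_mul, abs_of_pos Real.pi_pos, abs_sub_comm] at h2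
    have h3 : 2 / Real.pi * (Real.pi * |y - x|) = 2 * |y - x| := by
      have := Real.pi_pos.ne'
      field_simp
    rw [h3] at h2
    have h4 : (2 * |y - x|) ^ 2 ≤ |Real.sin (Real.pi * (x - y))| ^ 2 :=
      pow_le_pow_left₀ (by positivity) h2 2
    rw [sq_abs, mul_pow, sq_abs] at h4
    linarith
  have hpk : pk z (y : T) = (1 - r ^ 2) / ((1 - r) ^ 2 + 4 * r * Real.sin (Real.pi * (x - y)) ^ 2) := by
    rw [pk, ck, norm_inv, inv_pow, hsq, hnz]
    rfl
  have hs0 : 0 ≤ Real.sin (Real.pi * (x - y)) ^ 2 := sq_nonneg _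
  constructor
  · rw [hpk, div_le_div_iff₀ (by nlinarith) (by linarith)]
    nlinarith
  · intro hne
    have h0 : 0 < (y - x) ^ 2 := by positivity
    rw [hpk, div_le_div_iff₀ (by nlinarith) h0]
    have h6 : (1 - r) * ((1 + r) * (y - x) ^ 2) ≤ (1 - r) *
        (2 * ((1 - r) ^ 2 + 4 * r * Real.sin (Real.pi * (x - y)) ^ 2)) := by
      apply mul_le_mul_of_nonneg_left _ (by linarith)
      nlinarith
    nlinarith


/-- dyadic majorant of the Poisson kernel -/
lemma fatou_dyadic {x y r : ℝ} (hr : 1 / 2 ≤ r) (hr1 : r < 1) (hy : |y - x| ≤ 1 / 2) :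
    ∃ k : ℕ, |y - x| ≤ 2 ^ k * (1 - r) ∧
      pk ((r : ℂ) * Complex.exp ((2 * Real.pi * x : ℝ) * Complex.I)) (y : T) ≤
        8 / (4 ^ k * (1 - r)) ∧ 2 ^ k * (1 - r) ≤ 2 := by
  obtain ⟨h1, h2⟩ := fatou_kernel hr hr1 hy
  have hd : 0 < 1 - r := by linarith
  have hex : ∃ k : ℕ, |y - x| ≤ 2 ^ k * (1 - r) := by
    obtain ⟨k, hk⟩ := pow_unbounded_of_one_lt (|y - x| / (1 - r)) (one_lt_two)
    refine ⟨k, ?_⟩
    rw [div_lt_iff₀ hd] at hk
    exact hk.le
  classical
  set k := Nat.find hex with hk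
  have hk1 : |y - x| ≤ 2 ^ k * (1 - r) := Nat.find_spec hex
  refine ⟨k, hk1, ?_, ?_⟩
  · rcases Nat.eq_zero_or_pos k with h0 | hpos
    · rw [h0, pow_zero, one_mul]
      refine h1.trans ?_
      gcongr
      norm_num
    · have hk2 : ¬ |y - x| ≤ 2 ^ (k - 1) * (1 - r) := Nat.find_min hex (by omega)
      push Not at hk2
      have hne : y - x ≠ 0 := by
        intro h
        rw [h, abs_zero] at hk2
        have : 0 < (2 : ℝ) ^ (k - 1) * (1 - r) := by positivity
        linarith
      refine (h2 hne).trans ?_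
      rw [← sq_abs, div_le_div_iff₀ (by positivity) (by positivity)]
      have h3 : (2 ^ (k - 1) * (1 - r)) ^ 2 ≤ |y - x| ^ 2 := pow_le_pow_left₀ (by positivity) hk2.le 2
      have h4 : (4 : ℝ) ^ k = 4 * (2 ^ (k - 1)) ^ 2 := by
        obtain ⟨m, hm⟩ := Nat.exists_eq_succ_of_ne_zero hpos.ne'
        rw [hm, Nat.succ_eq_add_one, Nat.add_sub_cancel, pow_succ, ← pow_mul, mul_comm m 2, pow_mul]
        norm_num
        ring
      rw [h4]
      nlinarith
  · rcases Nat.eq_zero_or_pos k with h0 | hpos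
    · rw [h0, pow_zero, one_mul]; linarith
    · have hk2 : ¬ |y - x| ≤ 2 ^ (k - 1) * (1 - r) := Nat.find_min hex (by omega)
      push Not at hk2
      have h4 : (2 : ℝ) ^ k = 2 * 2 ^ (k - 1) := by
        obtain ⟨m, hm⟩ := Nat.exists_eq_succ_of_ne_zero hpos.ne'
        rw [hm, Nat.succ_eq_add_one, Nat.add_sub_cancel, pow_succ]; ring
      rw [h4]
      nlinarith

lemma mu_eq_vol : (volume : Measure T) = mu := by
  rw [AddCircle.volume_eq_smul_haarAddCircle]; simp

/-- the basic estimate -/
lemma fatou_est {f : T → ℂ} (hf : f ∈ HInf) (hm : Measurable f) {M : ℝ} (hM : ∀ t, ‖f t‖ ≤ M)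
    {x r : ℝ} (hr : 1 / 2 ≤ r) (hr1 : r < 1) :
    ‖ext f ((r : ℂ) * Complex.exp ((2 * Real.pi * x : ℝ) * Complex.I)) - f (x : T)‖ ≤
      ∑' k : ℕ, 16 * (1 / 2) ^ k *
        ⨍ y in Metric.closedBall x (2 ^ k * (1 - r)), ‖f (y : T) - f (x : T)‖ := by
  set z : ℂ := (r : ℂ) * Complex.exp ((2 * Real.pi * x : ℝ) * Complex.I) with hz
  have hd : 0 < 1 - r := by linarith
  have hM0 : 0 ≤ M := (norm_nonneg _).trans (hM 0)
  have hnz : ‖z‖ = r := by
    rw [hz, norm_mul, Complex.norm_exp_ofReal_mul_I, mul_one, Complex.norm_real, Real.norm_eq_abs,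
      abs_of_nonneg (by linarith)]
  have hz1 : ‖z‖ < 1 := by rw [hnz]; exact hr1
  have hint : Integrable f mu := memLp_integrable hf.1
  have hpkb : ∀ t, ‖((pk z t : ℝ) : ℂ)‖ ≤ (1 - ‖z‖ ^ 2) * ((1 - ‖z‖)⁻¹) ^ 2 := by
    intro t
    rw [Complex.norm_real, Real.norm_eq_abs, abs_of_nonneg (pk_nonneg hz1 t), pk]
    apply mul_le_mul_of_nonneg_left _ (by rw [hnz]; nlinarith)
    exact pow_le_pow_left₀ (norm_nonneg _) (norm_ck_le hz1 t) 2
  -- the difference as an integral
  have h1 : ext f z - f (x : T) = ∫ t, (f t - f (x : T)) * (pk z t : ℂ) ∂mu := by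
    have e1 : ∫ t, (f t - f (x : T)) * (pk z t : ℂ) ∂mu =
        ∫ t, f t * (pk z t : ℂ) ∂mu - ∫ t, f (x : T) * (pk z t : ℂ) ∂mu := by
      rw [← integral_sub]
      · congr 1; funext t; ring
      · exact hint.mul_bdd (c := (1 - ‖z‖ ^ 2) * ((1 - ‖z‖)⁻¹) ^ 2)
          (Complex.continuous_ofReal.comp (pk_cont hz1)).aestronglyMeasurable
          (Eventually.of_forall hpkb)
      · exact (cont_int (Complex.continuous_ofReal.comp (pk_cont hz1))).const_mul _
    rw [e1, int_pk_HInf hf hz1, integral_const_mul, integral_complex_ofReal, int_pk hz1]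
    simp
  set G : ℝ → ℝ := fun y => ‖f (y : T) - f (x : T)‖ with hG
  have hGm : Measurable G := by
    have : Measurable (fun y : ℝ => f (y : T)) :=
      hm.comp (AddCircle.continuous_mk' 1).measurable
    exact (this.sub measurable_const).norm
  have hG2 : ∀ y, G y ≤ 2 * M := fun y => by
    have := norm_sub_le (f (y : T)) (f (x : T))
    have h3 := hM (y : T)
    have h4 := hM (x : T)
    simp only [hG]; linarith
  have hG0 : ∀ y, 0 ≤ G y := fun y => norm_nonneg _
  have hGint : ∀ s : ℝ, IntegrableOn G (Metric.closedBall x s) volume := by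
    intro s
    refine Measure.integrableOn_of_bounded (M := 2 * M) ?_ hGm.aestronglyMeasurable
      (Eventually.of_forall fun y => ?_)
    · exact (measure_closedBall_lt_top).ne
    · rw [Real.norm_eq_abs, abs_of_nonneg (hG0 y)]; exact hG2 y
  have havg0 : ∀ s : ℝ, 0 ≤ ⨍ y in Metric.closedBall x s, G y := by
    intro s
    rw [average_eq]
    exact smul_nonneg (by positivity) (integral_nonneg hG0)
  have havg : ∀ s : ℝ, 0 < s → ∫ y in Metric.closedBall x s, G y =
      2 * s * ⨍ y in Metric.closedBall x s, G y := by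
    intro s hs
    rw [setAverage_eq, smul_eq_mul, measureReal_def, Real.volume_closedBall,
      ENNReal.toReal_ofReal (by linarith)]
    field_simp
  have havg2 : ∀ s : ℝ, 0 < s → ⨍ y in Metric.closedBall x s, G y ≤ 2 * M := by
    intro s hs
    have h5 : ∫ y in Metric.closedBall x s, G y ≤ ∫ y in Metric.closedBall x s, 2 * M := by
      refine integral_mono (hGint s) ?_ hG2
      refine integrableOn_const (hs := (measure_closedBall_lt_top).ne)
    rw [havg s hs] at h5
    rw [setIntegral_const, smul_eq_mul, measureReal_def, Real.volume_closedBall,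
      ENNReal.toReal_ofReal (by linarith)] at h5
    have h6 : 2 * s * (⨍ y in Metric.closedBall x s, G y) ≤ 2 * s * (2 * M) := h5
    exact le_of_mul_le_mul_left h6 (by linarith)
  -- choose a number of scales
  obtain ⟨K, hK⟩ : ∃ K : ℕ, 2 < 2 ^ K * (1 - r) := by
    obtain ⟨K, hK⟩ := pow_unbounded_of_one_lt (2 / (1 - r)) (one_lt_two)
    refine ⟨K, ?_⟩
    rwa [div_lt_iff₀ hd] at hK
  have hsummable : Summable (fun k : ℕ => 16 * (1 / 2 : ℝ) ^ k *
      ⨍ y in Metric.closedBall x (2 ^ k * (1 - r)), G y) := by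
    refine Summable.of_nonneg_of_le (f := fun k : ℕ => 16 * (2 * M) * (1 / 2 : ℝ) ^ k)
      (fun k => mul_nonneg (by positivity) (havg0 _)) (fun k => ?_)
      ((summable_geometric_of_lt_one (by norm_num) (by norm_num)).mul_left _)
    have := havg2 (2 ^ k * (1 - r)) (by positivity)
    calc 16 * (1 / 2 : ℝ) ^ k * ⨍ y in Metric.closedBall x (2 ^ k * (1 - r)), G y
        ≤ 16 * (1 / 2 : ℝ) ^ k * (2 * M) := mul_le_mul_of_nonneg_left this (by positivity)
      _ = _ := by ring
  calc ‖ext f z - f (x : T)‖ ≤ ∫ t, ‖f t - f (x : T)‖ * pk z t ∂mu := by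
        rw [h1]
        refine (norm_integral_le_integral_norm _).trans (le_of_eq ?_)
        congr 1; funext t
        rw [norm_mul, Complex.norm_real, Real.norm_eq_abs, abs_of_nonneg (pk_nonneg hz1 t)]
    _ = ∫ y in Set.Ioc (x - 1 / 2) (x - 1 / 2 + 1), G y * pk z (y : T) := by
        rw [← mu_eq_vol, ← AddCircle.integral_preimage 1 (x - 1 / 2)]
    _ ≤ ∫ y in Set.Ioc (x - 1 / 2) (x - 1 / 2 + 1), ∑ k ∈ Finset.range K,
          (8 / (4 ^ k * (1 - r))) * (Metric.closedBall x (2 ^ k * (1 - r))).indicator G y := by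
        refine setIntegral_mono_on ?_ ?_ measurableSet_Ioc ?_
        · refine Measure.integrableOn_of_bounded
            (M := 2 * M * ((1 - ‖z‖ ^ 2) * ((1 - ‖z‖)⁻¹) ^ 2)) (by simp) ?_ ?_
          · exact (hGm.mul ((pk_cont hz1).measurable.comp
              (AddCircle.continuous_mk' 1).measurable)).aestronglyMeasurable
          · refine Eventually.of_forall fun y => ?_
            rw [norm_mul, Real.norm_eq_abs, abs_of_nonneg (hG0 y)]
            refine mul_le_mul (hG2 y) ?_ (norm_nonneg _) (by linarith)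
            have := hpkb (y : T)
            rwa [Complex.norm_real] at this
        · refine integrable_finsetSum _ fun k _ => ?_
          refine Integrable.const_mul ?_ _
          refine Integrable.mono_measure ?_ Measure.restrict_le_self
          rw [integrable_indicator_iff measurableSet_closedBall]
          exact hGint _
        · intro y hy
          have hy2 : |y - x| ≤ 1 / 2 := by
            rw [abs_le]; constructor <;> [linarith [hy.1]; linarith [hy.2]]
          obtain ⟨k, hk1, hk2, hk3⟩ := fatou_dyadic hr hr1 hy2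
          have hkK : k ∈ Finset.range K := by
            rw [Finset.mem_range]
            by_contra hcon
            push Not at hcon
            have : (2 : ℝ) ^ K ≤ 2 ^ k := pow_le_pow_right₀ (by norm_num) hcon
            nlinarith
          refine le_trans ?_ (Finset.single_le_sum (f := fun k : ℕ => (8 / (4 ^ k * (1 - r))) *
            (Metric.closedBall x (2 ^ k * (1 - r))).indicator G y) ?_ hkK)
          · rw [Set.indicator_of_mem (by rw [Metric.mem_closedBall, Real.dist_eq]; exact hk1)]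
            rw [mul_comm]
            exact mul_le_mul_of_nonneg_right hk2 (hG0 y)
          · intro i _
            exact mul_nonneg (by positivity) (Set.indicator_nonneg (fun y _ => hG0 y) y)
    _ = ∑ k ∈ Finset.range K, (8 / (4 ^ k * (1 - r))) *
          ∫ y in Set.Ioc (x - 1 / 2) (x - 1 / 2 + 1),
            (Metric.closedBall x (2 ^ k * (1 - r))).indicator G y := by
        rw [integral_finsetSum]
        · refine Finset.sum_congr rfl fun k _ => ?_
          rw [integral_const_mul]
        · intro k _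
          refine Integrable.const_mul ?_ _
          refine Integrable.mono_measure ?_ Measure.restrict_le_self
          rw [integrable_indicator_iff measurableSet_closedBall]
          exact hGint _
    _ ≤ ∑ k ∈ Finset.range K, 16 * (1 / 2) ^ k *
          ⨍ y in Metric.closedBall x (2 ^ k * (1 - r)), G y := by
        refine Finset.sum_le_sum fun k _ => ?_
        have h7 : ∫ y in Set.Ioc (x - 1 / 2) (x - 1 / 2 + 1),
            (Metric.closedBall x (2 ^ k * (1 - r))).indicator G y ≤
            2 * (2 ^ k * (1 - r)) * ⨍ y in Metric.closedBall x (2 ^ k * (1 - r)), G y := by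
          rw [← havg _ (by positivity), ← integral_indicator measurableSet_closedBall]
          refine setIntegral_le_integral ?_ (Eventually.of_forall fun y =>
            Set.indicator_nonneg (fun y _ => hG0 y) y)
          rw [integrable_indicator_iff measurableSet_closedBall]
          exact hGint _
        refine (mul_le_mul_of_nonneg_left h7 (by positivity)).trans (le_of_eq ?_)
        have h8 : (4 : ℝ) ^ k = 2 ^ k * 2 ^ k := by
          rw [← mul_pow]; norm_num
        rw [h8]
        have h9 : (2 : ℝ) ^ k ≠ 0 := by positivity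
        have h10 : (1 : ℝ) - r ≠ 0 := hd.ne'
        rw [one_div, inv_pow]
        field_simp
        ring
    _ ≤ _ := hsummable.sum_le_tsum _ fun k _ => mul_nonneg (by positivity) (havg0 _)


/-- null sets of the circle pull back to null sets of the line -/
lemma ae_line {P : T → Prop} (h : ∀ᵐ t ∂mu, P t) : ∀ᵐ y : ℝ, P (y : T) := by
  have h1 : ∀ n : ℤ, ∀ᵐ y ∂(volume.restrict (Set.Ioc (n : ℝ) (n + 1))), P ((y : ℝ) : T) := by
    intro n
    have := (AddCircle.measurePreserving_mk 1 (n : ℝ)).quasiMeasurePreserving.ae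
      (p := P) (by rw [mu_eq_vol]; exact h)
    exact this
  have h2 : ∀ᵐ y : ℝ, ∀ n : ℤ, y ∈ Set.Ioc (n : ℝ) (n + 1) → P (y : T) := by
    rw [ae_all_iff]
    intro n
    exact (ae_restrict_iff' measurableSet_Ioc).1 (h1 n)
  filter_upwards [h2] with y hy
  refine hy (⌈y⌉ - 1) ⟨?_, ?_⟩
  · push_cast
    linarith [Int.ceil_lt_add_one y]
  · push_cast
    linarith [Int.le_ceil y]

lemma fatou_meas {f : T → ℂ} (hf : f ∈ HInf) (hm : Measurable f) {M : ℝ} (hM : ∀ t, ‖f t‖ ≤ M) :
    ∀ᵐ x : ℝ, Tendsto (fun r : ℝ => ext f ((r : ℂ) * Complex.exp ((2 * Real.pi * x : ℝ) * Complex.I)))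
      (𝓝[<] 1) (𝓝 (f (x : T))) := by
  have hM0 : 0 ≤ M := (norm_nonneg _).trans (hM 0)
  have hFm : Measurable (fun y : ℝ => f (y : T)) := hm.comp (AddCircle.continuous_mk' 1).measurable
  have hloc : LocallyIntegrable (fun y : ℝ => f (y : T)) volume := by
    intro y
    refine ⟨Metric.closedBall y 1, Metric.closedBall_mem_nhds y one_pos, ?_⟩
    exact Measure.integrableOn_of_bounded (M := M) (measure_closedBall_lt_top).ne
      hFm.aestronglyMeasurable (Eventually.of_forall fun y => hM _)
  have hL := IsUnifLocDoublingMeasure.ae_tendsto_average_norm_sub (volume : Measure ℝ) hloc 1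
  filter_upwards [hL] with x hx
  rw [tendsto_iff_norm_sub_tendsto_zero]
  have hlim : Tendsto (fun r : ℝ => ∑' k : ℕ, 16 * (1 / 2) ^ k *
        ⨍ y in Metric.closedBall x (2 ^ k * (1 - r)), ‖f (y : T) - f (x : T)‖) (𝓝[<] 1) (𝓝 0) := by
    have h0 : (0 : ℝ) = ∑' k : ℕ, (fun _ => 0 : ℕ → ℝ) k := by simp
    rw [h0]
    refine tendsto_tsum_of_dominated_convergence
      (bound := fun k : ℕ => 16 * (2 * M) * (1 / 2 : ℝ) ^ k)
      ((summable_geometric_of_lt_one (by norm_num) (by norm_num)).mul_left _) ?_ ?_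
    · intro k
      have h1 : Tendsto (fun r : ℝ => 2 ^ k * (1 - r)) (𝓝[<] 1) (𝓝[>] 0) := by
        rw [tendsto_nhdsWithin_iff]
        constructor
        · have : Tendsto (fun r : ℝ => 2 ^ k * (1 - r)) (𝓝 1) (𝓝 (2 ^ k * (1 - 1))) := by
            exact (tendsto_const_nhds.sub tendsto_id).const_mul _
          rw [sub_self, mul_zero] at this
          exact this.mono_left nhdsWithin_le_nhds
        · filter_upwards [self_mem_nhdsWithin] with r hr
          have : (r : ℝ) < 1 := hr
          simp only [Set.mem_Ioi]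
          have : 0 < 1 - r := by linarith
          positivity
      have h2 := hx (l := 𝓝[<] (1 : ℝ)) (fun _ => x) (fun r : ℝ => 2 ^ k * (1 - r)) h1 ?_
      · have h7 := h2.const_mul (16 * (1 / 2) ^ k)
        rw [mul_zero] at h7
        exact h7
      · filter_upwards [self_mem_nhdsWithin] with r hr
        have : (r : ℝ) < 1 := hr
        have : 0 < 1 - r := by linarith
        rw [Metric.mem_closedBall, dist_self]
        positivity
    · filter_upwards [self_mem_nhdsWithin] with r hr
      intro k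
      have hr1 : (r : ℝ) < 1 := hr
      have hd : 0 < 1 - r := by linarith
      have hs : 0 < 2 ^ k * (1 - r) := by positivity
      rw [norm_mul, Real.norm_eq_abs, abs_of_nonneg (by positivity : (0 : ℝ) ≤ 16 * (1 / 2) ^ k)]
      have h3 : ‖⨍ y in Metric.closedBall x (2 ^ k * (1 - r)), ‖f (y : T) - f (x : T)‖‖ ≤ 2 * M := by
        rw [setAverage_eq, norm_smul]
        have h4 : ‖∫ y in Metric.closedBall x (2 ^ k * (1 - r)), ‖f (y : T) - f (x : T)‖‖ ≤
            (2 * M) * (volume.real (Metric.closedBall x (2 ^ k * (1 - r)))) := by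
          refine norm_setIntegral_le_of_norm_le_const (measure_closedBall_lt_top) ?_
          intro y _
          rw [norm_norm]
          have := norm_sub_le (f (y : T)) (f (x : T))
          have h3 := hM (y : T)
          have h4 := hM (x : T)
          linarith
        have h5 : 0 < volume.real (Metric.closedBall x (2 ^ k * (1 - r))) := by
          rw [measureReal_def, Real.volume_closedBall, ENNReal.toReal_ofReal (by linarith)]
          linarith
        rw [norm_inv, Real.norm_eq_abs, abs_of_pos h5, inv_mul_le_iff₀ h5]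
        linarith
      calc 16 * (1 / 2) ^ k * ‖⨍ y in Metric.closedBall x (2 ^ k * (1 - r)), ‖f (y : T) - f (x : T)‖‖
          ≤ 16 * (1 / 2) ^ k * (2 * M) := mul_le_mul_of_nonneg_left h3 (by positivity)
        _ = _ := by ring
  refine squeeze_zero' (Eventually.of_forall fun r => norm_nonneg _) ?_ hlim
  have h6 : Set.Ico (1 / 2 : ℝ) 1 ∈ 𝓝[<] (1 : ℝ) := Ico_mem_nhdsLT (by norm_num)
  filter_upwards [h6] with r hr
  exact fatou_est hf hm hM hr.1 hr.2

/-- Fatou's theorem. -/
theorem fatou {f : T → ℂ} (hf : f ∈ HInf) :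
    ∀ᵐ θ : ℝ, Tendsto (fun r : ℝ => ext f ((r : ℂ) * Complex.exp ((θ : ℂ) * Complex.I)))
      (𝓝[<] 1) (𝓝 (f ((θ / (2 * Real.pi) : ℝ) : T))) := by
  obtain ⟨M, hM0, hM⟩ := exists_bound hf.1
  -- a bounded measurable representative
  obtain ⟨g, hgm, hg⟩ : ∃ g : T → ℂ, Measurable g ∧ f =ᵐ[mu] g :=
    ⟨hf.1.1.mk f, hf.1.1.stronglyMeasurable_mk.measurable, hf.1.1.ae_eq_mk⟩
  set g' : T → ℂ := fun t => if ‖g t‖ ≤ M then g t else 0 with hg'
  have hg'm : Measurable g' :=
    Measurable.ite (measurableSet_le hgm.norm measurable_const) hgm measurable_const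
  have hg'b : ∀ t, ‖g' t‖ ≤ M := by
    intro t
    simp only [hg']
    split_ifs with h
    · exact h
    · simpa using hM0
  have hfg' : f =ᵐ[mu] g' := by
    filter_upwards [hg, hM] with t h1 h2
    simp only [hg']
    rw [h1] at h2
    rw [if_pos h2, h1]
  have hg'H : g' ∈ HInf := congr_HInf hf hfg'
  have h1 := fatou_meas hg'H hg'm hg'b
  have h2 := ae_line hfg'
  have h3 : ∀ᵐ x : ℝ, Tendsto
      (fun r : ℝ => ext f ((r : ℂ) * Complex.exp ((2 * Real.pi * x : ℝ) * Complex.I)))
      (𝓝[<] 1) (𝓝 (f (x : T))) := by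
    filter_upwards [h1, h2] with x hx hx2
    rw [hx2]
    simp_rw [ext_congr hfg']
    exact hx
  -- change of variables
  have h4 : ∀ᵐ θ : ℝ, Tendsto
      (fun r : ℝ => ext f ((r : ℂ) * Complex.exp
        ((2 * Real.pi * (θ * (2 * Real.pi)⁻¹) : ℝ) * Complex.I)))
      (𝓝[<] 1) (𝓝 (f ((θ * (2 * Real.pi)⁻¹ : ℝ) : T))) := by
    rw [ae_iff] at h3 ⊢
    have := Real.volume_preimage_mul_right (a := (2 * Real.pi)⁻¹) (by positivity)
      {x : ℝ | ¬ Tendsto
      (fun r : ℝ => ext f ((r : ℂ) * Complex.exp ((2 * Real.pi * x : ℝ) * Complex.I)))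
      (𝓝[<] 1) (𝓝 (f (x : T)))}
    rw [h3, mul_zero] at this
    exact this
  filter_upwards [h4] with θ hθ
  have h5 : 2 * Real.pi * (θ * (2 * Real.pi)⁻¹) = θ := by
    have := Real.pi_pos.ne'
    field_simp
  rw [h5, ← div_eq_mul_inv] at hθ
  exact hθ



end P648
end Pool.Agent.Helper34.Dg
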