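import Mathlib

set_option autoImplicit false

open MeasureTheory Filter Topology Complex Metric Set
open scoped Interval ComplexConjugate

namespace Pool.Agent.Helper34.Dg

/-- a zero free analytic function on the disc has an analytic logarithm -/
lemma exists_log {Q : ℂ → ℂ} (hQ : DifferentiableOn ℂ Q (ball 0 1))
    (h0 : ∀ z ∈ ball (0 : ℂ) 1, Q z ≠ 0) :
    ∃ L : ℂ → ℂ, DifferentiableOn ℂ L (ball 0 1) ∧ ∀ z ∈ ball (0 : ℂ) 1, Complex.exp (L z) = Q z := by
  have hd : DifferentiableOn ℂ (fun z => deriv Q z / Q z) (ball 0 1) :=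
    (hQ.deriv isOpen_ball).div hQ h0
  have hz0 : (0 : ℂ) ∈ ball (0 : ℂ) 1 := by simp
  obtain ⟨L, hL⟩ := hd.isExactOn_ball
  have hLd : ∀ z ∈ ball (0 : ℂ) 1, HasDerivAt L (deriv Q z / Q z) z := hL
  set L1 : ℂ → ℂ := fun z => L z - L 0 + Complex.log (Q 0) with hL1
  have hL1d : ∀ z ∈ ball (0 : ℂ) 1, HasDerivAt L1 (deriv Q z / Q z) z := fun z hz =>
    ((hLd z hz).sub_const _).add_const _
  refine ⟨L1, fun z hz => (hL1d z hz).differentiableAt.differentiableWithinAt, ?_⟩
  -- the quotient exp(L)/Q is constant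
  have hq : ∀ z ∈ ball (0 : ℂ) 1, HasDerivAt (fun z => Complex.exp (L1 z) / Q z) 0 z := by
    intro z hz
    have e1 := (hL1d z hz).cexp
    have e2 : HasDerivAt Q (deriv Q z) z :=
      (hQ.differentiableAt (isOpen_ball.mem_nhds hz)).hasDerivAt
    have e3 := e1.div e2 (h0 z hz)
    refine e3.congr_deriv ?_
    have := h0 z hz
    rw [div_eq_zero_iff]
    left
    field_simp
    ring
  intro z hz
  have hc := (convex_ball (0 : ℂ) 1).is_const_of_fderivWithin_eq_zero (𝕜 := ℂ)
    (f := fun z => Complex.exp (L1 z) / Q z)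
    (fun z hz => (hq z hz).differentiableAt.differentiableWithinAt) (by
      intro z hz
      rw [fderivWithin_of_isOpen isOpen_ball hz]
      ext
      simp [(hq z hz).deriv]) hz hz0
  simp only [hL1, sub_self, zero_add, Complex.exp_log (h0 0 hz0)] at hc
  rw [div_self (h0 0 hz0)] at hc
  exact (div_eq_one_iff_eq (h0 z hz)).1 hc

lemma exists_sqrt {Q : ℂ → ℂ} (hQ : DifferentiableOn ℂ Q (ball 0 1))
    (h0 : ∀ z ∈ ball (0 : ℂ) 1, Q z ≠ 0) :
    ∃ h : ℂ → ℂ, DifferentiableOn ℂ h (ball 0 1) ∧ ∀ z ∈ ball (0 : ℂ) 1, h z * h z = Q z := by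
  obtain ⟨L, hL, hLe⟩ := exists_log hQ h0
  refine ⟨fun z => Complex.exp (L z / 2), (hL.div_const 2).cexp, fun z hz => ?_⟩
  rw [← Complex.exp_add, add_halves, hLe z hz]

/-- reflection factorisation of polynomials -/
lemma poly_factor (P : Polynomial ℂ) (hP : P ≠ 0) :
    ∃ (Q : ℂ → ℂ) (β : ℂ → ℂ), Differentiable ℂ Q ∧ (∀ z ∈ ball (0 : ℂ) 1, Q z ≠ 0) ∧
      DifferentiableOn ℂ β (ball 0 1) ∧ (∀ z ∈ ball (0 : ℂ) 1, ‖β z‖ ≤ 1) ∧
      (∀ z ∈ ball (0 : ℂ) 1, P.eval z = β z * Q z) ∧ (∀ z : ℂ, ‖z‖ = 1 → ‖Q z‖ = ‖P.eval z‖) := by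
  have hspl := IsAlgClosed.splits P
  rw [hspl.eq_prod_roots]
  have hlc : P.leadingCoeff ≠ 0 := by simpa using hP
  generalize P.leadingCoeff = c at hlc
  generalize P.roots = s
  induction s using Multiset.induction_on with
  | empty =>
    refine ⟨fun _ => c, fun _ => 1, by fun_prop, fun _ _ => hlc, by fun_prop, by simp, ?_, ?_⟩
    · intro z _; simp
    · intro z _; simp
  | cons a s ih =>
    obtain ⟨Q, β, h1, h2, h3, h4, h5, h6⟩ := ih
    have e : ∀ z : ℂ, Polynomial.eval z (Polynomial.C c * (Multiset.map (fun a => Polynomial.X - Polynomial.C a) (a ::ₘ s)).prod) =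
        (z - a) * Polynomial.eval z (Polynomial.C c * (Multiset.map (fun a => Polynomial.X - Polynomial.C a) s).prod) := by
      intro z
      rw [Multiset.map_cons, Multiset.prod_cons]
      simp only [Polynomial.eval_mul, Polynomial.eval_C, Polynomial.eval_sub, Polynomial.eval_X]
      ring
    by_cases ha : ‖a‖ < 1
    · have hden : ∀ z ∈ ball (0 : ℂ) 1, 1 - conj a * z ≠ 0 := by
        intro z hz h
        have h7 : conj a * z = 1 := by linear_combination -h
        have h8 := congrArg norm h7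
        rw [norm_mul, RCLike.norm_conj, norm_one] at h8
        have hz' : ‖z‖ < 1 := by simpa using hz
        nlinarith [norm_nonneg a, norm_nonneg z]
      refine ⟨fun z => (1 - conj a * z) * Q z, fun z => (z - a) / (1 - conj a * z) * β z,
        ?_, ?_, ?_, ?_, ?_, ?_⟩
      · exact (by fun_prop : Differentiable ℂ fun z => 1 - conj a * z).mul h1
      · intro z hz
        exact mul_ne_zero (hden z hz) (h2 z hz)
      · exact (DifferentiableOn.div (by fun_prop) (by fun_prop) hden).mul h3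
      · intro z hz
        rw [norm_mul]
        have h9 : ‖(z - a) / (1 - conj a * z)‖ ≤ 1 := by
          rw [norm_div, div_le_one (norm_pos_iff.2 (hden z hz))]
          have hz' : ‖z‖ < 1 := by simpa using hz
          have h10 : ‖1 - conj a * z‖ ^ 2 = ‖z - a‖ ^ 2 + (1 - ‖a‖ ^ 2) * (1 - ‖z‖ ^ 2) := by
            simp only [← Complex.normSq_eq_norm_sq, Complex.normSq_apply, Complex.sub_re,
              Complex.sub_im, Complex.mul_re, Complex.mul_im, Complex.conj_re, Complex.conj_im,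
              Complex.one_re, Complex.one_im]
            ring
          have h11 : 0 ≤ (1 - ‖a‖ ^ 2) * (1 - ‖z‖ ^ 2) := by
            apply mul_nonneg <;> nlinarith [norm_nonneg a, norm_nonneg z]
          exact le_of_sq_le_sq (by linarith) (norm_nonneg _)
        calc ‖(z - a) / (1 - conj a * z)‖ * ‖β z‖ ≤ 1 * 1 :=
              mul_le_mul h9 (h4 z hz) (norm_nonneg _) (by norm_num)
          _ = 1 := one_mul 1
      · intro z hz
        rw [e, h5 z hz]
        have := hden z hz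
        show (z - a) * (β z * Q z) = (z - a) / (1 - conj a * z) * β z * ((1 - conj a * z) * Q z)
        generalize 1 - conj a * z = d at this ⊢
        field_simp
      · intro z hz
        rw [e, norm_mul, norm_mul, h6 z hz]
        congr 1
        have h10 : ‖1 - conj a * z‖ ^ 2 = ‖z - a‖ ^ 2 + (1 - ‖a‖ ^ 2) * (1 - ‖z‖ ^ 2) := by
          simp only [← Complex.normSq_eq_norm_sq, Complex.normSq_apply, Complex.sub_re,
            Complex.sub_im, Complex.mul_re, Complex.mul_im, Complex.conj_re, Complex.conj_im,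
            Complex.one_re, Complex.one_im]
          ring
        rw [hz] at h10
        have h11 : ‖1 - conj a * z‖ ^ 2 = ‖z - a‖ ^ 2 := by rw [h10]; ring
        exact (pow_left_inj₀ (norm_nonneg _) (norm_nonneg _) two_ne_zero).1 h11
    · refine ⟨fun z => (z - a) * Q z, β, ?_, ?_, h3, h4, ?_, ?_⟩
      · exact (by fun_prop : Differentiable ℂ fun z => z - a).mul h1
      · intro z hz
        refine mul_ne_zero ?_ (h2 z hz)
        intro h
        have : z = a := by linear_combination h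
        rw [this] at hz
        exact ha (by simpa using hz)
      · intro z hz
        rw [e, h5 z hz]; ring
      · intro z hz
        rw [e, norm_mul, norm_mul, h6 z hz]

/-- `P = h k` with `|h|² = |Q|`, `|k|² ≤ |Q|` in the disc, `|Q| = |P|` on the circle -/
lemma poly_hk (P : Polynomial ℂ) (hP : P ≠ 0) :
    ∃ (Q h k : ℂ → ℂ), Continuous Q ∧ DifferentiableOn ℂ h (ball 0 1) ∧
      DifferentiableOn ℂ k (ball 0 1) ∧ (∀ z ∈ ball (0 : ℂ) 1, P.eval z = h z * k z) ∧
      (∀ z ∈ ball (0 : ℂ) 1, ‖h z‖ ^ 2 ≤ ‖Q z‖) ∧ (∀ z ∈ ball (0 : ℂ) 1, ‖k z‖ ^ 2 ≤ ‖Q z‖) ∧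
      (∀ z : ℂ, ‖z‖ = 1 → ‖Q z‖ = ‖P.eval z‖) := by
  obtain ⟨Q, β, h1, h2, h3, h4, h5, h6⟩ := poly_factor P hP
  obtain ⟨g, hg, hg2⟩ := exists_sqrt h1.differentiableOn h2
  have hn : ∀ z ∈ ball (0 : ℂ) 1, ‖g z‖ ^ 2 = ‖Q z‖ := by
    intro z hz
    rw [← hg2 z hz, norm_mul, sq]
  refine ⟨Q, g, fun z => β z * g z, h1.continuous, hg, h3.mul hg, ?_, fun z hz => (hn z hz).le,
    ?_, h6⟩
  · intro z hz
    rw [h5 z hz, ← hg2 z hz]; ring
  · intro z hz
    rw [norm_mul, mul_pow, hn z hz]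
    have := h4 z hz
    have h7 := norm_nonneg (β z)
    have : ‖β z‖ ^ 2 ≤ 1 := by nlinarith
    nlinarith [norm_nonneg (Q z)]

end Pool.Agent.Helper34.Dg
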