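import Pool.Agent.Helper34.Dg.Final2

set_option autoImplicit false

open MeasureTheory Filter Topology Complex Metric Set
open scoped ComplexConjugate

namespace Pool.Agent.Helper34.Dg

/-- Frostman shift -/
noncomputable def shift (u : ℂ → ℂ) (a z : ℂ) : ℂ := (u z - a) / (1 - conj a * u z)

lemma sden_ne {a w : ℂ} (ha : ‖a‖ < 1) (hw : ‖w‖ ≤ 1) : 1 - conj a * w ≠ 0 := by
  intro h
  have h1 : conj a * w = 1 := by linear_combination -h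
  have h2 : ‖conj a * w‖ = 1 := by rw [h1]; simp
  rw [norm_mul, RCLike.norm_conj] at h2
  nlinarith [norm_nonneg a, norm_nonneg w]

lemma sh_id {a w : ℂ} (ha : ‖a‖ < 1) (hw : ‖w‖ ≤ 1) :
    (1 - ‖(w - a) / (1 - conj a * w)‖ ^ 2) * ‖1 - conj a * w‖ ^ 2 =
      (1 - ‖a‖ ^ 2) * (1 - ‖w‖ ^ 2) := by
  have hd := sden_ne ha hw
  have key : ‖1 - conj a * w‖ ^ 2 - ‖w - a‖ ^ 2 = (1 - ‖a‖ ^ 2) * (1 - ‖w‖ ^ 2) := by
    rw [← Complex.normSq_eq_norm_sq, ← Complex.normSq_eq_norm_sq, ← Complex.normSq_eq_norm_sq,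
      ← Complex.normSq_eq_norm_sq]
    simp only [Complex.normSq_apply, Complex.sub_re, Complex.sub_im, Complex.one_re,
      Complex.one_im, Complex.mul_re, Complex.mul_im, Complex.conj_re, Complex.conj_im]
    ring
  rw [norm_div, div_pow, ← key]
  have : ‖1 - conj a * w‖ ^ 2 ≠ 0 := by positivity
  rw [sub_mul, one_mul, div_mul_cancel₀ _ this]

lemma sh_le {a w : ℂ} (ha : ‖a‖ < 1) (hw : ‖w‖ ≤ 1) : ‖(w - a) / (1 - conj a * w)‖ ≤ 1 := by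
  have h := sh_id ha hw
  have hd : 0 < ‖1 - conj a * w‖ := norm_pos_iff.2 (sden_ne ha hw)
  have h1 : 0 ≤ (1 - ‖a‖ ^ 2) * (1 - ‖w‖ ^ 2) := by
    apply mul_nonneg <;> nlinarith [norm_nonneg a, norm_nonneg w]
  rw [← h] at h1
  have h2 : 0 ≤ 1 - ‖(w - a) / (1 - conj a * w)‖ ^ 2 := by
    by_contra hc
    push Not at hc
    have : (1 - ‖(w - a) / (1 - conj a * w)‖ ^ 2) * ‖1 - conj a * w‖ ^ 2 < 0 :=
      mul_neg_of_neg_of_pos hc (by positivity)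
    linarith
  nlinarith [norm_nonneg ((w - a) / (1 - conj a * w))]

/-- bounds for the modulus of the shift, `|a| = 1/2` -/
lemma sh_bounds {a w : ℂ} (ha : ‖a‖ = 1 / 2) (hw : ‖w‖ ≤ 1) :
    1 - 3 * (1 - ‖w‖ ^ 2) ≤ ‖(w - a) / (1 - conj a * w)‖ ^ 2 ∧
      1 - ‖w‖ ^ 2 ≤ 3 * (1 - ‖(w - a) / (1 - conj a * w)‖ ^ 2) := by
  have ha1 : ‖a‖ < 1 := by rw [ha]; norm_num
  have h := sh_id ha1 hw
  have hl : 1 / 2 ≤ ‖1 - conj a * w‖ := by
    have h1 : ‖(1 : ℂ)‖ - ‖conj a * w‖ ≤ ‖1 - conj a * w‖ := norm_sub_norm_le _ _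
    rw [norm_one, norm_mul, RCLike.norm_conj, ha] at h1
    linarith
  have hu : ‖1 - conj a * w‖ ≤ 3 / 2 := by
    have h1 : ‖1 - conj a * w‖ ≤ ‖(1 : ℂ)‖ + ‖conj a * w‖ := norm_sub_le _ _
    rw [norm_one, norm_mul, RCLike.norm_conj, ha] at h1
    linarith
  have h2 : 0 ≤ 1 - ‖(w - a) / (1 - conj a * w)‖ ^ 2 := by
    have := sh_le ha1 hw
    nlinarith [norm_nonneg ((w - a) / (1 - conj a * w))]
  have h3 : (1 : ℝ) / 4 ≤ ‖1 - conj a * w‖ ^ 2 := by nlinarith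
  have h4 : ‖1 - conj a * w‖ ^ 2 ≤ 9 / 4 := by nlinarith
  rw [ha] at h
  constructor
  · nlinarith [mul_le_mul_of_nonneg_left h3 h2]
  · nlinarith [mul_le_mul_of_nonneg_left h4 h2]

lemma shift_bdd {u : ℂ → ℂ} (hu : IsInner u) {a : ℂ} (ha : ‖a‖ < 1) : BddHol (shift u a) := by
  refine ⟨?_, 1, fun z hz => sh_le ha (inner_le hu hz)⟩
  exact (hu.1.1.sub (differentiableOn_const _)).div
    ((differentiableOn_const _).sub ((differentiableOn_const _).mul hu.1.1))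
    fun z hz => sden_ne ha (inner_le hu hz)

lemma shift_inner {u : ℂ → ℂ} (hu : IsInner u) {a : ℂ} (ha : ‖a‖ < 1) : IsInner (shift u a) := by
  refine ⟨shift_bdd hu ha, ?_⟩
  filter_upwards [hu.2] with t ht
  obtain ⟨w, hw, hwt⟩ := ht
  have hd := sden_ne ha hw.le
  refine ⟨(w - a) / (1 - conj a * w), ?_, ?_⟩
  · have h1 := sh_id ha hw.le
    rw [hw] at h1
    have h2 : 0 < ‖1 - conj a * w‖ := norm_pos_iff.2 hd
    have h3 : (1 - ‖(w - a) / (1 - conj a * w)‖ ^ 2) * ‖1 - conj a * w‖ ^ 2 = 0 := by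
      rw [h1]; ring
    rcases mul_eq_zero.1 h3 with h4 | h4
    · have h5 := norm_nonneg ((w - a) / (1 - conj a * w))
      nlinarith
    · exact absurd h4 (by positivity)
  · exact (hwt.sub_const a).div (tendsto_const_nhds.sub (hwt.const_mul _)) hd

lemma shift_inv {D : Submodule ℂ (T →ₘ[mu] ℂ)} (hD : IsDouglas D) {u : ℂ → ℂ} (hu : IsInner u)
    (huD : InvIn D u) {a : ℂ} (ha : ‖a‖ = 1 / 2) : InvIn D (shift u a) := by
  have ha1 : ‖a‖ < 1 := by rw [ha]; norm_num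
  obtain ⟨uT, ru⟩ := inner_rep hu
  obtain ⟨sT, rs⟩ := inner_rep (shift_inner hu ha1)
  refine key hD ru rs huD (c := 1 / 216) (by norm_num) fun z hz => ?_
  obtain ⟨h1, h2⟩ := sh_bounds ha (inner_le hu hz)
  have h3 := inner_le hu hz
  have h4 := norm_nonneg (u z)
  have h5 : 0 ≤ 1 - ‖u z‖ ^ 2 := by nlinarith
  have h6 : 0 ≤ ‖shift u a z‖ ^ 2 := by positivity
  have h7 : 1 - 3 * (1 - ‖u z‖ ^ 2) ≤ ‖shift u a z‖ ^ 2 := h1
  rcases le_total (1 - ‖u z‖ ^ 2) (1 / 6) with h8 | h8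
  · have : 0 ≤ (1 - ‖u z‖ ^ 2) ^ 3 := by positivity
    linarith
  · have : (1 / 6 : ℝ) ^ 3 ≤ (1 - ‖u z‖ ^ 2) ^ 3 := by gcongr
    norm_num at this
    linarith

/-- where the shift is large, so is `u` -/
lemma lev_shift {u : ℂ → ℂ} (hu : IsInner u) {a : ℂ} (ha : ‖a‖ = 1 / 2) {δ : ℝ} (hδ : 0 < δ) :
    lev (shift u a) (min (δ / 6) 1) ⊆ lev u δ := by
  have ha1 : ‖a‖ < 1 := by rw [ha]; norm_num
  rintro z ⟨hz, h⟩
  refine ⟨hz, ?_⟩
  obtain ⟨h1, h2⟩ := sh_bounds ha (inner_le hu hz)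
  have h3 := inner_le hu hz
  have h4 := norm_nonneg (u z)
  have h5 : 1 - ‖u z‖ ^ 2 ≤ 3 * (1 - ‖shift u a z‖ ^ 2) := h2
  have h6 := inner_le (shift_inner hu ha1) hz
  have h7 : min (δ / 6) 1 ≤ δ / 6 := min_le_left _ _
  have h8 : min (δ / 6) 1 ≤ 1 := min_le_right _ _
  have h9 : 0 < min (δ / 6) 1 := lt_min (by positivity) one_pos
  have h10 : (1 - min (δ / 6) 1) ^ 2 < ‖shift u a z‖ ^ 2 := by
    apply pow_lt_pow_left₀ h (by linarith) (by norm_num)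
  nlinarith

end Pool.Agent.Helper34.Dg
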