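import Pool.Agent.Helper34.Dg.FinalDefs

set_option autoImplicit false

namespace Pool.Agent.Helper34.Dg

open MeasureTheory Filter Topology
open scoped ComplexConjugate

/-- `∑ (1 - |w|²) (1 - |z|²) / |1 - conj w z|²`, the sum being over the zeros `w` of `b` in the disc,
counted with multiplicity. -/
noncomputable def zsum (b : ℂ → ℂ) (z : ℂ) : ℝ :=
  ∑' w : {w : ℂ // w ∈ disc}, (analyticOrderNatAt b (w : ℂ) : ℝ) *
    ((1 - ‖(w : ℂ)‖ ^ 2) * (1 - ‖z‖ ^ 2) / ‖1 - conj (w : ℂ) * z‖ ^ 2)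

/-- The points of the disc at which the zero sum of `b` is less than `δ`. -/
def zlev (b : ℂ → ℂ) (δ : ℝ) : Set ℂ := {z | z ∈ disc ∧ zsum b z < δ}

/-- The points of the disc at which the zero sums of the members of the finite family `F` add up to
less than `δ`. -/
def zset (F : Finset (ℂ → ℂ)) (δ : ℝ) : Set ℂ := {z | z ∈ disc ∧ ∑ b ∈ F, zsum b z < δ}

end Pool.Agent.Helper34.Dg
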