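import Pool.Agent.Helper34.Dg.ZDefs
import Pool.Agent.Helper34.Dg.Bl

set_option autoImplicit false

open MeasureTheory Filter Topology Complex Metric Set
open scoped ComplexConjugate

namespace Pool.Agent.Helper34.Dg

lemma xfac_eq {a z : ℂ} (ha : a ∈ disc) (hz : z ∈ disc) :
    (1 - ‖a‖ ^ 2) * (1 - ‖z‖ ^ 2) / ‖1 - conj a * z‖ ^ 2 = 1 - ‖bfac a z‖ ^ 2 := by
  rw [← one_sub_bfac ha hz]
  have := norm_pos_iff.2 (bden_ne ha hz)
  field_simp

lemma xfac_nonneg {a z : ℂ} (ha : a ∈ disc) (hz : z ∈ disc) : 0 ≤ 1 - ‖bfac a z‖ ^ 2 := by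
  have h1 := bfac_le ha hz
  have h2 := norm_nonneg (bfac a z)
  nlinarith

section

variable {u : ℂ → ℂ} (hu : DifferentiableOn ℂ u disc) (hb : ∀ z ∈ disc, ‖u z‖ ≤ 1)
  {z0 : ℂ} (hz0 : z0 ∈ disc) (h0 : u z0 ≠ 0)

include hu hb hz0 h0 in
lemma x_summable {z : ℂ} (hz : z ∈ disc) :
    Summable fun i : Idx u => 1 - ‖bfac (zer u i) z‖ ^ 2 := by
  refine Summable.of_nonneg_of_le (fun i => xfac_nonneg (zer_mem u i) hz) (fun i => ?_)
    ((sub_summable hu hb hz0 h0 hz).mul_left 2)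
  have h1 : 1 - ‖bfac (zer u i) z‖ ≤ ‖bfac (zer u i) z - 1‖ := by
    have := norm_sub_norm_le (1 : ℂ) (bfac (zer u i) z)
    rw [norm_one, norm_sub_rev] at this
    exact this
  have h2 := bfac_le (zer_mem u i) hz
  have h3 := norm_nonneg (bfac (zer u i) z)
  nlinarith

include hu hb hz0 h0 in
lemma zsum_eq {z : ℂ} (hz : z ∈ disc) :
    zsum u z = ∑' i : Idx u, (1 - ‖bfac (zer u i) z‖ ^ 2) := by
  rw [(x_summable hu hb hz0 h0 hz).tsum_sigma]
  unfold zsum
  congr 1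
  funext w
  rw [tsum_fintype]
  simp only [zer]
  rw [Finset.sum_const, Finset.card_univ, Fintype.card_fin, nsmul_eq_mul, xfac_eq w.2 hz]

include hu hb hz0 h0 in
lemma zsum_nonneg {z : ℂ} (hz : z ∈ disc) : 0 ≤ zsum u z := by
  rw [zsum_eq hu hb hz0 h0 hz]
  exact tsum_nonneg fun i => xfac_nonneg (zer_mem u i) hz

include hu hb hz0 h0 in
/-- `∑ x ≤ -2 log |u|` -/
lemma zsum_le {z : ℂ} (hz : z ∈ disc) (hzu : u z ≠ 0) : zsum u z ≤ -2 * Real.log ‖u z‖ := by
  rw [zsum_eq hu hb hz0 h0 hz]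
  refine Summable.tsum_le_of_sum_le (x_summable hu hb hz0 h0 hz) fun s => ?_
  have hupos : 0 < ‖u z‖ := norm_pos_iff.2 hzu
  have hne : ∀ i : Idx u, 0 < ‖bfac (zer u i) z‖ := by
    intro i
    have := le_fin hu hb hz0 h0 {i} hz
    rw [Finset.prod_singleton] at this
    linarith
  have h1 : ∀ i ∈ s, 1 - ‖bfac (zer u i) z‖ ^ 2 ≤ -2 * Real.log ‖bfac (zer u i) z‖ := by
    intro i _
    have h3 : Real.log (‖bfac (zer u i) z‖ ^ 2) ≤ ‖bfac (zer u i) z‖ ^ 2 - 1 :=
      Real.log_le_sub_one_of_pos (by have := hne i; positivity)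
    rw [Real.log_pow] at h3
    push_cast at h3
    linarith
  refine (Finset.sum_le_sum h1).trans ?_
  rw [← Finset.mul_sum, ← Real.log_prod (fun i _ => (hne i).ne'), ← norm_prod]
  have h4 := Real.log_le_log hupos (le_fin hu hb hz0 h0 s hz)
  linarith

lemma prod_ge {ι : Type} (s : Finset ι) (x : ι → ℝ) (h0 : ∀ i, 0 ≤ x i) (h1 : ∀ i, x i ≤ 1) :
    1 - ∑ i ∈ s, (1 - x i) ≤ ∏ i ∈ s, x i := by
  classical
  induction s using Finset.induction_on with
  | empty => simp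
  | insert j s hj ih =>
    rw [Finset.sum_insert hj, Finset.prod_insert hj]
    have h2 : ∏ i ∈ s, x i ≤ 1 := Finset.prod_le_one (fun i _ => h0 i) fun i _ => h1 i
    have h3 : 0 ≤ ∏ i ∈ s, x i := Finset.prod_nonneg fun i _ => h0 i
    have h4 := h0 j
    have h5 := h1 j
    nlinarith

include hu hb hz0 h0 in
/-- `1 - ∑ x ≤ |BP|²` -/
lemma BP_ge {z : ℂ} (hz : z ∈ disc) : 1 - zsum u z ≤ ‖BP u z‖ ^ 2 := by
  have h1 := ((BP_hasProd hu hb hz0 h0 hz).norm).pow 2
  refine ge_of_tendsto h1 (Filter.Eventually.of_forall fun s => ?_)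
  have h2 := prod_ge s (fun i => ‖bfac (zer u i) z‖ ^ 2) (fun i => by positivity) (fun i => by
    have h2 := bfac_le (zer_mem u i) hz
    have h3 := norm_nonneg (bfac (zer u i) z)
    nlinarith)
  refine le_trans ?_ h2
  rw [zsum_eq hu hb hz0 h0 hz]
  have h3 := (x_summable hu hb hz0 h0 hz).sum_le_tsum s fun i _ => xfac_nonneg (zer_mem u i) hz
  linarith

end

lemma fam_order {ι : Type} {a : ι → ℂ} (ha : ∀ i, a i ∈ disc) {t : ℂ → ℂ}
    (ht : DifferentiableOn ℂ t disc) {w : ℂ} (hw : w ∈ disc) (s : Finset ι)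
    [DecidablePred fun i => a i = w] :
    analyticOrderAt (fun z => (∏ i ∈ s, bfac (a i) z) * t z) w =
      ((s.filter fun i => a i = w).card : ℕ∞) + analyticOrderAt t w := by
  classical
  induction s using Finset.induction_on with
  | empty => simp
  | insert j s hj ih =>
    have hd : DifferentiableOn ℂ (fun z => (∏ i ∈ s, bfac (a i) z) * t z) disc :=
      (DifferentiableOn.fun_finsetProd fun i _ => bfac_diff (ha i)).mul ht
    have h1 : (fun z => (∏ i ∈ insert j s, bfac (a i) z) * t z) =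
        (bfac (a j)) * (fun z => (∏ i ∈ s, bfac (a i) z) * t z) := by
      funext z
      rw [Finset.prod_insert hj, Pi.mul_apply]
      ring
    rw [h1, analyticOrderAt_mul (ana (bfac_diff (ha j)) hw) (ana hd hw), ih,
      bfac_order (ha j) hw, Finset.filter_insert]
    split_ifs with h
    · rw [Finset.card_insert_of_notMem (by simp [hj])]
      push_cast; ring
    · ring

lemma card_le_order {b : ℂ → ℂ} {c : ℂ} {ι : Type} {a : ι → ℂ} (ha : ∀ i, a i ∈ disc)
    (hs : Summable fun i => 1 - ‖a i‖) (hb : ∀ z ∈ disc, b z = c * bprod a z)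
    (hord : ∀ w ∈ disc, analyticOrderAt b w ≠ ⊤) {w : ℂ} (hw : w ∈ disc) (s : Finset ι)
    [DecidablePred fun i => a i = w] :
    (s.filter fun i => a i = w).card ≤ analyticOrderNatAt b w := by
  set t : ℂ → ℂ := fun z => c * bprod (fun i : ((s : Set ι)ᶜ : Set ι) => a i) z with ht
  have htd : DifferentiableOn ℂ t disc := (fam_diff (fun i : ((s : Set ι)ᶜ : Set ι) => ha i)
    (hs.subtype _)).const_mul c
  have h1 : analyticOrderAt b w = analyticOrderAt (fun z => (∏ i ∈ s, bfac (a i) z) * t z) w := by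
    refine analyticOrderAt_congr ?_
    filter_upwards [isOpen_ball.mem_nhds hw] with z hz
    rw [hb z hz, fam_split ha hs s hz, ht]
    ring
  rw [fam_order ha htd hw] at h1
  have h2 : ((s.filter fun i => a i = w).card : ℕ∞) ≤ analyticOrderAt b w := by
    rw [h1]; exact le_self_add
  rw [← Nat.cast_analyticOrderNatAt (hord w hw)] at h2
  exact_mod_cast h2

/-- the zeros of a Blaschke product account for all of its modulus -/
lemma BP_le_of_blaschke {b : ℂ → ℂ} (h : IsBlaschke b) {z : ℂ} (hz : z ∈ disc) :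
    ‖BP b z‖ ≤ ‖b z‖ := by
  classical
  have hin := h.inner
  obtain ⟨c, ι, a, hc, ha, hs, hb⟩ := h.data
  obtain ⟨z0, hz0, hz0a⟩ := exists_avoid ha hs
  have hne : b z0 ≠ 0 := by
    rw [hb z0 hz0]
    exact mul_ne_zero (by intro h0; rw [h0, norm_zero] at hc; norm_num at hc)
      (fam_ne ha hs hz0 hz0a)
  have hb1 : ∀ z ∈ disc, ‖b z‖ ≤ 1 := fun z hz => inner_le hin hz
  have hord := ord_ne_top hin.1.1 hz0 hne
  have h1 := (fam_hasProd ha hs hz).norm
  have h2 : ‖bprod a z‖ = ‖b z‖ := by rw [hb z hz, norm_mul, hc, one_mul]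
  rw [h2] at h1
  refine ge_of_tendsto h1 (Filter.Eventually.of_forall fun s => ?_)
  -- regroup by the value of the zero
  set a' : ι → {w : ℂ // w ∈ disc} := fun i => ⟨a i, ha i⟩ with ha'
  have e1 : ∏ i ∈ s, ‖bfac (a i) z‖ =
      ∏ w ∈ s.image a', ‖bfac (w : ℂ) z‖ ^ (s.filter fun i => a' i = w).card :=
    Finset.prod_comp (fun w : {w : ℂ // w ∈ disc} => ‖bfac (w : ℂ) z‖) a'
  have e2 : ∏ w ∈ s.image a', ‖bfac (w : ℂ) z‖ ^ analyticOrderNatAt b (w : ℂ) ≤
      ∏ w ∈ s.image a', ‖bfac (w : ℂ) z‖ ^ (s.filter fun i => a' i = w).card := by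
    refine Finset.prod_le_prod (fun w _ => by positivity) fun w _ => ?_
    refine pow_le_pow_of_le_one (norm_nonneg _) (bfac_le w.2 hz) ?_
    have h3 := card_le_order ha hs hb hord w.2 s
    refine le_trans (le_of_eq ?_) h3
    congr 1
    ext i
    simp only [Finset.mem_filter, ha', Subtype.ext_iff]
  have e3 : ∏ w ∈ s.image a', ‖bfac (w : ℂ) z‖ ^ analyticOrderNatAt b (w : ℂ) =
      ∏ i ∈ (s.image a').sigma (fun w => (Finset.univ : Finset (Fin (analyticOrderNatAt b (w : ℂ))))),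
        ‖bfac (zer b i) z‖ := by
    rw [Finset.prod_sigma]
    refine Finset.prod_congr rfl fun w _ => ?_
    simp [zer]
  show ‖BP b z‖ ≤ ∏ i ∈ s, ‖bfac (a i) z‖
  rw [e1]
  refine le_trans ?_ e2
  rw [e3]
  have hsz := zer_summable hin.1.1 hb1 hz0 hne
  exact fam_le_fin (zer_mem b) hsz _ hz

end Pool.Agent.Helper34.Dg
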